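import Pool.Agent.Mg.F42957e.Gb5e2d5

section

set_option autoImplicit false

namespace Pool.Agent.MP_42957e_ag

open MvPolynomial Filter Topology Asymptotics
open scoped ComplexConjugate

theorem frm_hom {d w : ℕ} {c : Arr} (h : Supp d w c) : (frm d w c).IsHomogeneous (d - w) := by
  refine IsHomogeneous.sum _ _ _ fun a _ => IsHomogeneous.sum _ _ _ fun b _ => ?_
  by_cases hc : c a b = 0
  · simp [hc, isHomogeneous_zero]
  · obtain ⟨h1, h2⟩ := h a b hc
    have := (isHomogeneous_C (Fin 3) (c a b : ℂ)).mul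
      ((((isHomogeneous_X ℂ (2 : Fin 3)).pow ((a : ℕ) - w)).mul
        ((isHomogeneous_X ℂ (0 : Fin 3)).pow (b : ℕ))).mul
        ((isHomogeneous_X ℂ (1 : Fin 3)).pow (d - a - b)))
    convert this using 1
    omega

theorem cj_frm (d w : ℕ) (c : Arr) : cj (frm d w c) = frm d w c := by
  simp [frm, cj_sum]

theorem Form_eval (d w : ℕ) (c : Arr) (p : V) : eval p (frm d w c) = ∑ a : Fin 6, ∑ b : Fin 6,
    (c a b : ℂ) * (p 2 ^ ((a : ℕ) - w) * p 0 ^ (b : ℕ) * p 1 ^ (d - a - b)) := by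
  simp [frm]

theorem continuous_frm (d w : ℕ) : Continuous fun x : Arr × V => eval x.2 (frm d w x.1) := by
  simp only [Form_eval]
  fun_prop

theorem frm_shift {d w : ℕ} {c : Arr} (h : Supp d w c) : frm d 0 c = X 2 ^ w * frm d w c := by
  simp only [frm, Finset.mul_sum]
  refine Finset.sum_congr rfl fun a _ => Finset.sum_congr rfl fun b _ => ?_
  by_cases hc : c a b = 0
  · simp [hc]
  · obtain ⟨h1, -⟩ := h a b hc
    obtain ⟨k, hk⟩ := Nat.exists_eq_add_of_le h1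
    rw [Nat.sub_zero, show (a : ℕ) - w = k by omega]
    generalize d - a - b = m
    rw [hk]
    ring

theorem frm_sub (d w : ℕ) (c c' : Arr) : frm d w (c - c') = frm d w c - frm d w c' := by
  simp [frm, sub_mul, Finset.sum_sub_distrib]

theorem frm_smul (d w : ℕ) (r : ℝ) (c : Arr) : frm d w (r • c) = C (r : ℂ) * frm d w c := by
  simp [frm, Finset.mul_sum, mul_assoc]

theorem Supp.sub {d w : ℕ} {c c' : Arr} (h : Supp d w c) (h' : Supp d w c') :
    Supp d w (c - c') := by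
  intro a b hab
  by_cases h1 : c a b = 0
  · exact h' a b fun h2 => hab (by simp [h1, h2])
  · exact h a b h1

theorem Supp.smul {d w : ℕ} {c : Arr} (h : Supp d w c) (r : ℝ) : Supp d w (r • c) := by
  intro a b hab
  exact h a b fun h2 => hab (by simp [h2])

theorem isClosed_supp (d w : ℕ) : IsClosed {c : Arr | Supp d w c} := by
  simp only [Supp, Set.ofPred_forall]
  refine isClosed_iInter fun a => isClosed_iInter fun b => ?_
  by_cases h : w ≤ (a : ℕ) ∧ (a : ℕ) + b ≤ d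
  · simp [h]
  · convert (isClosed_eq (f := fun c : Arr => c a b) (g := fun _ => 0) (by fun_prop)
      continuous_const) using 1
    ext c
    simp [h]

/-- the exponent vector -/
noncomputable def Form_ex (d a b : ℕ) : Fin 3 →₀ ℕ :=
  Finsupp.single 2 a + Finsupp.single 0 b + Finsupp.single 1 (d - a - b)

theorem Form_mono (d a b : ℕ) (r : ℂ) : (C r * (X 2 ^ a * X 0 ^ b * X 1 ^ (d - a - b)) : CP) =
    monomial (Form_ex d a b) r := by
  simp only [X_pow_eq_monomial, monomial_mul, C_mul_monomial, mul_one, Form_ex]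

theorem exists_frm {Q : CP} {d : ℕ} (hQ : Q.IsHomogeneous d) (hd : d ≤ 5) (hr : cj Q = Q) :
    ∃ c : Arr, Supp d 0 c ∧ frm d 0 c = Q := by
  have hre : ∀ m, ((coeff m Q).re : ℂ) = coeff m Q := fun m => by
    have := congrArg (coeff m) hr
    rw [cj, coeff_map] at this
    exact Complex.conj_eq_iff_re.1 this
  refine ⟨fun a b => if (a : ℕ) + b ≤ d then (coeff (Form_ex d a b) Q).re else 0, ?_, ?_⟩
  · intro a b hab
    refine ⟨Nat.zero_le _, ?_⟩
    by_contra hn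
    simp [hn] at hab
  · ext m
    simp only [frm, Nat.sub_zero, Form_mono, coeff_sum, coeff_monomial]
    by_cases hm : m 2 + m 0 + m 1 = d
    · have e : Form_ex d (m 2) (m 0) = m := by
        ext i
        fin_cases i <;> simp [Form_ex]
        omega
      rw [Finset.sum_eq_single (⟨m 2, by omega⟩ : Fin 6), Finset.sum_eq_single (⟨m 0, by omega⟩ : Fin 6)]
      · have : m 2 + m 0 ≤ d := by omega
        simp [e, this, hre]
      · intro b _ hb
        rw [if_neg]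
        intro h
        apply hb
        have := congrArg (fun f => f 0) h
        simp [Form_ex] at this
        exact Fin.ext this
      · simp
      · intro a _ ha
        refine Finset.sum_eq_zero fun b _ => ?_
        rw [if_neg]
        intro h
        apply ha
        have := congrArg (fun f => f 2) h
        simp [Form_ex] at this
        exact Fin.ext this
      · simp
    · rw [hQ.coeff_eq_zero]
      · refine Finset.sum_eq_zero fun a _ => Finset.sum_eq_zero fun b _ => ?_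
        split_ifs with h1 h2
        · exfalso
          apply hm
          rw [← h1]
          simp [Form_ex]
          omega
        · simp
        · rfl
      · rw [Finsupp.degree_eq_sum, Fin.sum_univ_three]
        omega

theorem exists_min_row {d : ℕ} {c : Arr} (h : Supp d 0 c) (hc : c ≠ 0) :
    ∃ a b : Fin 6, Supp d a c ∧ c a b ≠ 0 := by
  classical
  have hne : (Finset.univ.filter fun a : Fin 6 => ∃ b, c a b ≠ 0).Nonempty := by
    by_contra hn
    apply hc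
    ext a b
    by_contra h1
    exact hn ⟨a, by simpa using ⟨b, h1⟩⟩
  obtain ⟨a, ha, hmin⟩ := Finset.exists_min_image _ (fun a : Fin 6 => (a : ℕ)) hne
  obtain ⟨b, hb⟩ := (Finset.mem_filter.1 ha).2
  exact ⟨a, b, fun a' b' h' => ⟨hmin a' (by simpa using ⟨b', h'⟩), (h a' b' h').2⟩, hb⟩

theorem natDegree_rowP (c : Arr) (a : Fin 6) : (rowP c a).natDegree ≤ 5 := by
  refine Polynomial.natDegree_sum_le_of_forall_le _ _ fun b _ => ?_
  exact (Polynomial.natDegree_C_mul_X_pow_le _ _).trans (by omega)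

theorem eval_rowP (c : Arr) (a : Fin 6) (x : ℂ) :
    (rowP c a).eval x = ∑ b : Fin 6, (c a b : ℂ) * x ^ (b : ℕ) := by
  simp [rowP, Polynomial.eval_finsetSum]

theorem row_eq_zero {t : Fin 3 → ℂ} (ht : Function.Injective t) (hpos : ∀ i, 0 < (t i).im)
    {c : Arr} {a : Fin 6} (h : ∀ i, (rowP c a).eval (t i) = 0) (b : Fin 6) : c a b = 0 := by
  have h0 : rowP c a = 0 := by
    refine Polynomial.eq_zero_of_natDegree_lt_card_of_eval_eq_zero _
      (f := Sum.elim t fun i => conj (t i)) ?_ ?_ ?_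
    · rintro (i | i) (j | j) hij
      · rw [ht hij]
      · have := congrArg Complex.im hij
        simp at this
        linarith [hpos i, hpos j]
      · have := congrArg Complex.im hij
        simp at this
        linarith [hpos i, hpos j]
      · rw [ht (star_injective hij)]
    · rintro (i | i)
      · exact h i
      · have := congrArg conj (h i)
        rw [eval_rowP] at this
        simpa [eval_rowP] using this
    · have := natDegree_rowP c a
      simp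
      omega
  have := congrArg (fun p => p.coeff b) h0
  simp only [rowP, Polynomial.finsetSum_coeff, Polynomial.coeff_C_mul_X_pow,
    Polynomial.coeff_zero] at this
  rw [Finset.sum_eq_single b] at this
  · simpa using this
  · intro b' _ hb'
    rw [if_neg]
    exact fun e => hb' (Fin.ext e.symm)
  · simp

theorem eval_frm_zp {d : ℕ} {c : Arr} {a : Fin 6} (h : Supp d a c) (x : ℂ) :
    eval (zp x) (frm d a c) = (rowP c a).eval x := by
  rw [Form_eval, eval_rowP, Finset.sum_eq_single a]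
  · simp [zp]
  · intro a' _ ha'
    refine Finset.sum_eq_zero fun b _ => ?_
    by_cases hc : c a' b = 0
    · simp [hc]
    · have h1 := (h a' b hc).1
      have h2 : (a' : ℕ) ≠ a := fun e => ha' (Fin.ext e)
      have h3 : (a' : ℕ) - a ≠ 0 := by omega
      simp [zp, h3]
  · simp

theorem eval_frm_chart (d : ℕ) (c : Arr) {p : V} (h : p 1 = 1) :
    eval p (frm d 0 c) = ∑ a : Fin 6, p 2 ^ (a : ℕ) * (rowP c a).eval (p 0) := by
  rw [Form_eval]
  refine Finset.sum_congr rfl fun a _ => ?_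
  rw [eval_rowP, Finset.mul_sum]
  refine Finset.sum_congr rfl fun b _ => ?_
  rw [h, Nat.sub_zero]
  ring

theorem exists_zp_poly {K : CP} {n : ℕ} (hK : K.IsHomogeneous n) : ∃ g : Polynomial ℂ,
    g.natDegree ≤ n ∧ g.coeff n = eval ![1, 0, 0] K ∧ ∀ x, g.eval x = eval (zp x) K := by
  have hdeg : ∀ m ∈ K.support, m 0 + m 1 + m 2 = n := fun m hm => by
    by_contra hn
    refine mem_support_iff.1 hm (hK.coeff_eq_zero ?_)
    rwa [Finsupp.degree_eq_sum, Fin.sum_univ_three]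
  refine ⟨∑ m ∈ K.support, Polynomial.C (coeff m K * 0 ^ m 2) * Polynomial.X ^ m 0, ?_, ?_, ?_⟩
  · refine Polynomial.natDegree_sum_le_of_forall_le _ _ fun m hm => ?_
    exact (Polynomial.natDegree_C_mul_X_pow_le _ _).trans (by have := hdeg m hm; omega)
  · rw [eval_eq', Polynomial.finsetSum_coeff]
    refine Finset.sum_congr rfl fun m hm => ?_
    have := hdeg m hm
    rw [Polynomial.coeff_C_mul_X_pow, Fin.prod_univ_three]
    split_ifs with h
    · have h1 : m 1 = 0 := by omega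
      simp [h1]
    · by_cases h1 : m 1 = 0
      · have h2 : m 2 ≠ 0 := by omega
        simp [h2]
      · simp [h1]
  · intro x
    rw [eval_eq', Polynomial.eval_finsetSum]
    refine Finset.sum_congr rfl fun m _ => ?_
    rw [Fin.prod_univ_three]
    simp [zp]
    ring

/-- differences of values of a form whose coefficients tend to zero -/
theorem frm_diff_isLittleO {ι : Type} {l : Filter ι} {p p' : ι → V} {p0 : V} {c : ι → Arr}
    (h : Tendsto p l (𝓝 p0)) (h' : Tendsto p' l (𝓝 p0)) (hc : Tendsto c l (𝓝 0)) (d w : ℕ) :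
    (fun i => eval (p i) (frm d w (c i)) - eval (p' i) (frm d w (c i))) =o[l]
      fun i => p i - p' i := by
  have e : (fun i => eval (p i) (frm d w (c i)) - eval (p' i) (frm d w (c i))) =
      fun i => ∑ a : Fin 6, ∑ b : Fin 6, (c i a b : ℂ) *
        (eval (p i) (X 2 ^ ((a : ℕ) - w) * X 0 ^ (b : ℕ) * X 1 ^ (d - a - b) : CP) -
          eval (p' i) (X 2 ^ ((a : ℕ) - w) * X 0 ^ (b : ℕ) * X 1 ^ (d - a - b) : CP)) := by
    ext i
    simp only [frm, map_sum, map_mul (eval _) (C _), eval_C, mul_sub, Finset.sum_sub_distrib]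
  rw [e]
  refine IsLittleO.fun_sum fun a _ => IsLittleO.fun_sum fun b _ => ?_
  have h1 : (fun i => (c i a b : ℂ)) =o[l] fun _ => (1 : ℝ) := by
    rw [isLittleO_one_iff]
    have h2 : Continuous fun c : Arr => (c a b : ℂ) := by fun_prop
    have := (h2.tendsto 0).comp hc
    simp only [Function.comp_def, Pi.zero_apply, Complex.ofReal_zero] at this
    exact this
  have h3 := h1.mul_isBigO (diff_isBigO h h' (X 2 ^ ((a : ℕ) - w) * X 0 ^ (b : ℕ) *
    X 1 ^ (d - a - b))).norm_right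
  simp only [one_mul] at h3
  exact h3.of_norm_right

end Pool.Agent.MP_42957e_ag

end

section

set_option autoImplicit false

namespace Pool.Agent.MP_42957e_ag

open MvPolynomial Filter Topology Asymptotics
open scoped ComplexConjugate

theorem datab_deg {f g : Polynomial ℂ} {n : ℕ} (hf : f.natDegree ≤ n) (hg : g.natDegree ≤ n)
    (h : f.coeff n = g.coeff n) : (f - g).degree < n := by
  rw [Polynomial.degree_lt_iff_coeff_zero]
  intro m hm
  rw [Polynomial.coeff_sub]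
  rcases hm.eq_or_lt with rfl | hm
  · rw [h, sub_self]
  · rw [Polynomial.coeff_eq_zero_of_natDegree_lt (hf.trans_lt hm),
      Polynomial.coeff_eq_zero_of_natDegree_lt (hg.trans_lt hm), sub_self]

theorem datab_nodal {n : ℕ} (c : ℂ) (t : Fin n → ℂ) :
    (Polynomial.C c * Lagrange.nodal Finset.univ t).natDegree ≤ n ∧
    (Polynomial.C c * Lagrange.nodal Finset.univ t).coeff n = c := by
  have h1 : (Lagrange.nodal Finset.univ t).natDegree = n := by
    rw [Lagrange.natDegree_nodal, Finset.card_univ, Fintype.card_fin]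
  refine ⟨(Polynomial.natDegree_C_mul_le _ _).trans h1.le, ?_⟩
  have h2 := (Lagrange.nodal_monic (s := Finset.univ) (v := t)).coeff_natDegree
  rw [h1] at h2
  rw [Polynomial.coeff_C_mul, h2, mul_one]

theorem datab_normSq (x y t : ℂ) : Complex.normSq (x - t * y) -
    Complex.normSq (conj x - t * conj y) = -4 * t.im * (x * conj y).im := by
  simp only [Complex.normSq_apply, Complex.sub_re, Complex.sub_im, Complex.mul_re, Complex.mul_im,
    Complex.conj_re, Complex.conj_im]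
  ring

theorem datab_norm_lt {a b : ℂ} (h : Complex.normSq a < Complex.normSq b) : ‖a‖ < ‖b‖ := by
  rw [Complex.normSq_eq_norm_sq, Complex.normSq_eq_norm_sq] at h
  exact lt_of_pow_lt_pow_left₀ 2 (norm_nonneg _) h

theorem datab_prod_lt {a b : Fin 3 → ℂ} (h : ∀ i, ‖a i‖ < ‖b i‖) : ‖∏ i, a i‖ < ‖∏ i, b i‖ := by
  simp only [Fin.prod_univ_three, norm_mul]
  exact mul_lt_mul'' (mul_lt_mul'' (h 0) (h 1) (norm_nonneg _) (norm_nonneg _)) (h 2)
    (by positivity) (norm_nonneg _)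

namespace Data

variable (D : Data)

theorem φ_L : ∃ c : ℂ, c ≠ 0 ∧ ∀ p : V, p 2 = 0 →
    eval p D.φ = c * ∏ i, (p 0 - D.t i * p 1) := by
  obtain ⟨g, hg1, hg2, hg3⟩ := exists_zp_poly D.φ_hom
  obtain ⟨c, hc⟩ : ∃ c, c = eval ![1, 0, 0] D.φ := ⟨_, rfl⟩
  have hc0 : c ≠ 0 := by
    intro h
    obtain ⟨i, a, ha⟩ := D.onL (hc.symm.trans h) (by simp)
    have h0 := congrFun ha 0
    have h1 := congrFun ha 1
    simp [zp] at h0 h1
    simp [← h1] at h0
  have hg : g = Polynomial.C c * Lagrange.nodal Finset.univ D.t := by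
    refine Polynomial.eq_of_degree_sub_lt_of_eval_index_eq Finset.univ D.t_inj.injOn ?_ ?_
    · rw [Finset.card_univ, Fintype.card_fin]
      exact datab_deg hg1 (datab_nodal c D.t).1 (by rw [hg2, (datab_nodal c D.t).2, hc])
    · intro i hi
      rw [hg3, D.φ_z, Polynomial.eval_mul, Lagrange.eval_nodal_at_node hi, mul_zero]
  refine ⟨c, hc0, fun p hp => ?_⟩
  by_cases h1 : p 1 = 0
  · have e : p = p 0 • ![1, 0, 0] := by
      ext i; fin_cases i <;> simp [h1, hp]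
    have e2 : eval p D.φ = p 0 ^ 3 * c := by
      conv_lhs => rw [e]
      rw [eval_smul_hom D.φ_hom, hc]
    rw [e2, h1, Fin.prod_univ_three]; ring
  · have e : p = p 1 • zp (p 0 / p 1) := by
      ext i; fin_cases i
      · simp [zp]; field_simp
      · simp [zp]
      · simp [zp, hp]
    have e2 : eval p D.φ = p 1 ^ 3 * (c * ∏ i, (p 0 / p 1 - D.t i)) := by
      conv_lhs => rw [e]
      rw [eval_smul_hom D.φ_hom, ← hg3, hg, Polynomial.eval_mul, Polynomial.eval_C,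
        Lagrange.eval_nodal]
    rw [e2, Fin.prod_univ_three, Fin.prod_univ_three]; field_simp

theorem datab_ne {r : Fin 3 → ℝ} (hr : r ≠ 0) (h2 : r 2 = 0) (i : Fin 3) :
    (r 0 : ℂ) - D.t i * r 1 ≠ 0 := by
  intro h
  have hi := congrArg Complex.im h
  have hp := D.t_pos i
  simp only [Complex.sub_im, Complex.ofReal_im, Complex.mul_im, mul_zero, Complex.ofReal_re,
    zero_add, zero_sub, Complex.zero_im, neg_eq_zero, mul_eq_zero] at hi
  have h1 : r 1 = 0 := hi.resolve_left hp.ne'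
  have h0 : r 0 = 0 := by simpa [h1] using h
  apply hr
  ext j; fin_cases j <;> simp [h0, h1, h2]

theorem φ_real_ne {r : Fin 3 → ℝ} (hr : r ≠ 0) (h2 : r 2 = 0) : eval (ofR r) D.φ ≠ 0 := by
  obtain ⟨c, hc, h⟩ := D.φ_L
  rw [h _ (by simp [h2])]
  exact mul_ne_zero hc (Finset.prod_ne_zero_iff.2 fun i _ => D.datab_ne hr h2 i)

theorem re3_of_norm_eq {p : V} (h2 : p 2 = 0) (h : ‖eval p D.φ‖ = ‖eval p D.ψ‖) : Re3 p := by
  obtain ⟨c, hc, hL⟩ := D.φ_L
  rw [eval_cj, Complex.norm_conj, hL _ h2, hL _ (by simp [h2]), norm_mul, norm_mul] at h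
  have h' := mul_left_cancel₀ (norm_ne_zero_iff.2 hc) h
  simp only [Pi.star_apply, Complex.star_def] at h'
  have hm : (p 0 * conj (p 1)).im = 0 := by
    rcases lt_trichotomy (p 0 * conj (p 1)).im 0 with hm | hm | hm
    · refine absurd h'.symm (datab_prod_lt fun i => datab_norm_lt ?_).ne
      have := datab_normSq (p 0) (p 1) (D.t i)
      nlinarith [mul_pos (D.t_pos i) (neg_pos.2 hm)]
    · exact hm
    · refine absurd h' (datab_prod_lt fun i => datab_norm_lt ?_).ne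
      have := datab_normSq (p 0) (p 1) (D.t i)
      nlinarith [mul_pos (D.t_pos i) hm]
  have hm' : (p 1 * conj (p 0)).im = 0 := by
    simp only [Complex.mul_im, Complex.conj_re, Complex.conj_im] at hm ⊢
    linarith
  have hs : ∀ z : ℂ, (z * conj z).im = 0 := fun z => by
    simp only [Complex.mul_im, Complex.conj_re, Complex.conj_im]; ring
  intro i j
  fin_cases i <;> fin_cases j
  all_goals first
    | exact hs _
    | exact hm
    | exact hm'
    | simp [h2]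

theorem datab_dv {c : ℂ} (hL : ∀ p : V, p 2 = 0 → eval p D.φ = c * ∏ i, (p 0 - D.t i * p 1))
    {p f : V} (h2 : p 2 = 0) (f2 : f 2 = 0) : dv D.φ p f = c *
      ((f 0 - D.t 0 * f 1) * (p 0 - D.t 1 * p 1) * (p 0 - D.t 2 * p 1) +
        (p 0 - D.t 0 * p 1) * (f 0 - D.t 1 * f 1) * (p 0 - D.t 2 * p 1) +
        (p 0 - D.t 0 * p 1) * (p 0 - D.t 1 * p 1) * (f 0 - D.t 2 * f 1)) := by
  have hg : HasDerivAt (fun τ : ℂ => p + τ • f) f 0 := by
    simpa using ((hasDerivAt_id (0 : ℂ)).smul_const f).const_add p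
  have h1 := hasDerivAt_eval D.φ hg
  have hl : ∀ i, HasDerivAt (fun τ : ℂ => p 0 + τ * f 0 - D.t i * (p 1 + τ * f 1))
      (f 0 - D.t i * f 1) 0 := fun i => by
    have := (((hasDerivAt_id (0 : ℂ)).mul_const (f 0)).const_add (p 0)).fun_sub
      ((((hasDerivAt_id (0 : ℂ)).mul_const (f 1)).const_add (p 1)).const_mul (D.t i))
    simp only [id, one_mul] at this
    exact this
  have h3 := (((hl 0).mul (hl 1)).mul (hl 2)).const_mul c
  have he : (fun τ : ℂ => eval (p + τ • f) D.φ) = fun τ : ℂ => c *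
      ((p 0 + τ * f 0 - D.t 0 * (p 1 + τ * f 1)) * (p 0 + τ * f 0 - D.t 1 * (p 1 + τ * f 1)) *
        (p 0 + τ * f 0 - D.t 2 * (p 1 + τ * f 1))) := by
    funext τ
    rw [hL _ (by simp [h2, f2]), Fin.prod_univ_three]
    simp only [Pi.add_apply, Pi.smul_apply, smul_eq_mul]
  rw [he] at h1
  have h4 := h1.unique h3
  simp only [zero_smul, add_zero, zero_mul, Pi.mul_apply] at h4
  rw [h4]; ring

theorem simple {r : Fin 3 → ℝ} {k : Fin 3} (h2 : r 2 = 0) (hk : r k ≠ 0) {f : V} (f2 : f 2 = 0)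
    (fk : f k = 0)
    (h : eval (ofR r) D.ψ * dv D.φ (ofR r) f - eval (ofR r) D.φ * dv D.ψ (ofR r) f = 0) :
    f = 0 := by
  obtain ⟨c, hc, hL⟩ := D.φ_L
  have hr : r ≠ 0 := fun h => hk (by simp [h])
  have r2 : ofR r 2 = 0 := by simp [h2]
  have f2' : star f 2 = 0 := by simp [f2]
  rw [eval_cj_ofR, dv_cj, star_ofR, D.datab_dv hL r2 f2, D.datab_dv hL r2 f2', hL _ r2,
    Fin.prod_univ_three] at h
  simp only [ofR_apply, Pi.star_apply, Complex.star_def, map_mul, map_add, map_sub,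
    Complex.conj_conj, Complex.conj_ofReal] at h
  obtain ⟨l, hl⟩ : ∃ l : Fin 3 → ℂ, ∀ i, l i = (r 0 : ℂ) - D.t i * r 1 := ⟨_, fun _ => rfl⟩
  have hl0 : ∀ i, l i ≠ 0 := fun i => by rw [hl]; exact D.datab_ne hr h2 i
  have hcl : ∀ i, conj (l i) = (r 0 : ℂ) - conj (D.t i) * r 1 := fun i => by
    rw [hl]; simp
  have hS : (c * conj c) * ((r 1 : ℂ) * f 0 - r 0 * f 1) *
      ((l 1 * conj (l 1)) * (l 2 * conj (l 2)) * (D.t 0 - conj (D.t 0)) +
        (l 0 * conj (l 0)) * (l 2 * conj (l 2)) * (D.t 1 - conj (D.t 1)) +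
        (l 0 * conj (l 0)) * (l 1 * conj (l 1)) * (D.t 2 - conj (D.t 2))) = 0 := by
    simp only [hcl]
    simp only [hl]
    linear_combination h
  have hpos : ((l 1 * conj (l 1)) * (l 2 * conj (l 2)) * (D.t 0 - conj (D.t 0)) +
        (l 0 * conj (l 0)) * (l 2 * conj (l 2)) * (D.t 1 - conj (D.t 1)) +
        (l 0 * conj (l 0)) * (l 1 * conj (l 1)) * (D.t 2 - conj (D.t 2))) ≠ 0 := by
    simp only [Complex.mul_conj, Complex.sub_conj]
    intro h0
    have h1 := congrArg Complex.im h0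
    simp only [Complex.add_im, Complex.mul_im, Complex.mul_re, Complex.ofReal_re,
      Complex.ofReal_im, Complex.I_re, Complex.I_im, Complex.zero_im, mul_zero, mul_one, sub_zero,
      add_zero, zero_mul] at h1
    have n0 := Complex.normSq_pos.2 (hl0 0)
    have n1 := Complex.normSq_pos.2 (hl0 1)
    have n2 := Complex.normSq_pos.2 (hl0 2)
    have t0 := D.t_pos 0
    have t1 := D.t_pos 1
    have t2 := D.t_pos 2
    have : 0 < Complex.normSq (l 1) * Complex.normSq (l 2) * (2 * (D.t 0).im) +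
        Complex.normSq (l 0) * Complex.normSq (l 2) * (2 * (D.t 1).im) +
        Complex.normSq (l 0) * Complex.normSq (l 1) * (2 * (D.t 2).im) := by positivity
    linarith
  have hcc : c * conj c ≠ 0 := mul_ne_zero hc (by simpa using hc)
  have hd : (r 1 : ℂ) * f 0 - r 0 * f 1 = 0 :=
    (mul_eq_zero.1 ((mul_eq_zero.1 hS).resolve_right hpos)).resolve_left hcc
  have hk' : (r k : ℂ) ≠ 0 := by exact_mod_cast hk
  have h01 : f 0 = 0 ∧ f 1 = 0 := by
    fin_cases k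
    · have f0 : f 0 = 0 := fk
      have hk0 : (r 0 : ℂ) ≠ 0 := hk'
      refine ⟨f0, ?_⟩
      rw [f0, mul_zero, zero_sub, neg_eq_zero] at hd
      exact (mul_eq_zero.1 hd).resolve_left hk0
    · have f1 : f 1 = 0 := fk
      have hk1 : (r 1 : ℂ) ≠ 0 := hk'
      refine ⟨?_, f1⟩
      rw [f1, mul_zero, sub_zero] at hd
      exact (mul_eq_zero.1 hd).resolve_left hk1
    · exact absurd h2 hk
  ext j; fin_cases j <;> simp [h01.1, h01.2, f2]

theorem restr {K : CP} {d : ℕ} (hK : K.IsHomogeneous d) : ∃ κ : Polynomial ℂ,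
    (∀ τ, κ.eval τ = eval (D.x τ) K) ∧ κ.natDegree ≤ 3 * d ∧ κ.coeff (3 * d) = eval (D.e 2) K := by
  obtain ⟨q, hq⟩ : ∃ q : Fin 3 → Polynomial ℂ, ∀ i, q i = Polynomial.C (D.e 0 i) * Polynomial.X +
      Polynomial.C (D.e 1 i) * Polynomial.X ^ 2 +
      Polynomial.C (D.e 2 i) * (Polynomial.X ^ 3 - 1) := ⟨_, fun _ => rfl⟩
  have q1 : ∀ i, (q i).natDegree ≤ 3 := fun i => by rw [hq]; compute_degree
  have q2 : ∀ i, (q i).coeff 3 = D.e 2 i := fun i => by
    rw [hq]; simp [Polynomial.coeff_X_pow, Polynomial.coeff_one]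
  have q3 : ∀ i τ, (q i).eval τ = D.x τ i := fun i τ => by
    rw [hq]; simp [xp]; ring
  have hm : ∀ m ∈ K.support, m 0 * 3 + m 1 * 3 + m 2 * 3 = 3 * d := fun m hm => by
    have := hK (mem_support_iff.1 hm)
    rw [← this, Finsupp.weight_apply, Finsupp.sum_fintype _ _ (by simp)]
    simp only [Fin.sum_univ_three, Pi.one_apply, smul_eq_mul, mul_one]
    ring
  have p1 : ∀ i n, (q i ^ n).natDegree ≤ n * 3 := fun i n =>
    Polynomial.natDegree_pow_le_of_le n (q1 i)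
  have p2 : ∀ i n, (q i ^ n).coeff (n * 3) = D.e 2 i ^ n := fun i n => by
    rw [Polynomial.coeff_pow_of_natDegree_le (q1 i), q2]
  refine ⟨∑ m ∈ K.support, Polynomial.C (coeff m K) * (q 0 ^ m 0 * q 1 ^ m 1 * q 2 ^ m 2),
    fun τ => ?_, ?_, ?_⟩
  · rw [eval_eq', Polynomial.eval_finsetSum]
    refine Finset.sum_congr rfl fun m _ => ?_
    simp only [Polynomial.eval_mul, Polynomial.eval_C, Polynomial.eval_pow, q3,
      Fin.prod_univ_three]
  · refine Polynomial.natDegree_sum_le_of_forall_le _ _ fun m h => ?_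
    refine (Polynomial.natDegree_C_mul_le _ _).trans ?_
    rw [← hm m h]
    exact Polynomial.natDegree_mul_le_of_le
      (Polynomial.natDegree_mul_le_of_le (p1 _ _) (p1 _ _)) (p1 _ _)
  · rw [eval_eq', Polynomial.finsetSum_coeff]
    refine Finset.sum_congr rfl fun m h => ?_
    rw [Polynomial.coeff_C_mul, ← hm m h, Polynomial.coeff_mul_add_eq_of_natDegree_le
      (Polynomial.natDegree_mul_le_of_le (p1 _ _) (p1 _ _)) (p1 _ _),
      Polynomial.coeff_mul_add_eq_of_natDegree_le (p1 _ _) (p1 _ _), p2, p2, p2,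
      Fin.prod_univ_three]

theorem exists_cb : ∃ ρ : Fin 9 → ℂ, (∀ j, ρ j ≠ 0) ∧
    ∀ K : CP, K.IsHomogeneous 3 → ∑ j, ρ j * eval (ofR (D.P j)) K = 0 := by
  refine ⟨fun j => D.u j ^ 3 / (D.θ j * ∏ k ∈ Finset.univ.erase j, (D.θ j - D.θ k)),
    fun j => div_ne_zero (pow_ne_zero _ (D.u_ne j)) (mul_ne_zero (D.θ_ne_zero j)
      (Finset.prod_ne_zero_iff.2 fun k hk => sub_ne_zero.2 fun h =>
        Finset.ne_of_mem_erase hk (D.θ_inj h).symm)), fun K hK => ?_⟩
  obtain ⟨κ, k1, k2, k3⟩ := D.restr hK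
  obtain ⟨h, hh⟩ : ∃ h, h = κ - Polynomial.C (eval (D.e 2) K) * Lagrange.nodal Finset.univ D.θ :=
    ⟨_, rfl⟩
  have hdeg : h.degree < (9 : ℕ) := by
    rw [hh]
    exact datab_deg k2 (datab_nodal _ D.θ).1 (by rw [(datab_nodal _ D.θ).2]; exact k3)
  have h0 : h.coeff 0 = 0 := by
    have hp : ∏ i, (0 - D.θ i) = -1 := by
      simp only [zero_sub]
      rw [Finset.prod_neg, D.prod_θ, Finset.card_univ, Fintype.card_fin]; norm_num
    rw [Polynomial.coeff_zero_eq_eval_zero, hh, Polynomial.eval_sub, Polynomial.eval_mul,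
      Polynomial.eval_C, Lagrange.eval_nodal, hp, k1, D.x_zero, eval_smul_hom hK]
    ring
  obtain ⟨q, hq⟩ := Polynomial.X_dvd_iff.2 h0
  have hq8 : q.coeff 8 = 0 := by
    have := (Polynomial.degree_lt_iff_coeff_zero _ _).1 hdeg 9 le_rfl
    rwa [hq, Polynomial.coeff_X_mul] at this
  have hqd : q.degree < (Finset.univ : Finset (Fin 9)).card := by
    rw [Finset.card_univ, Fintype.card_fin, Polynomial.degree_lt_iff_coeff_zero]
    intro m hm
    have := (Polynomial.degree_lt_iff_coeff_zero _ _).1 hdeg (m + 1) (by omega)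
    rwa [hq, Polynomial.coeff_X_mul] at this
  have hs := Lagrange.coeff_eq_sum D.θ_inj.injOn hqd
  rw [Finset.card_univ, Fintype.card_fin, hq8] at hs
  rw [hs]
  refine Finset.sum_congr rfl fun j hj => ?_
  have e1 : D.θ j * q.eval (D.θ j) = D.u j ^ 3 * eval (ofR (D.P j)) K := by
    have := congrArg (Polynomial.eval (D.θ j)) (hh.symm.trans hq)
    rw [Polynomial.eval_sub, Polynomial.eval_mul, Lagrange.eval_nodal_at_node hj, mul_zero,
      sub_zero, k1, Polynomial.eval_mul, Polynomial.eval_X] at this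
    rw [← this, Data.x, D.xθ, eval_smul_hom hK]
  rw [div_mul_eq_mul_div, ← e1, mul_div_mul_left _ _ (D.θ_ne_zero j)]

end Data

end Pool.Agent.MP_42957e_ag

end

section

set_option autoImplicit false

namespace Pool.Agent.MP_42957e_ag

open MvPolynomial Filter Topology Asymptotics
open scoped ComplexConjugate

namespace Fam

variable (A : Fam)

theorem DivA_lim {l : Filter (ℝ × V)} [l.NeBot] {p0 : V} (hs : Tendsto Prod.fst l (𝓝[>] 0))
    (hp : Tendsto Prod.snd l (𝓝 p0)) (h : ∀ᶠ x in l, eval x.2 (A.F x.1) = 0) :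
    p0 2 * eval p0 A.φ * eval p0 A.ψ = 0 := by
  have h1 : Tendsto (fun x : ℝ × V => x) l (𝓝 ((0 : ℝ), p0)) :=
    (hs.mono_right nhdsWithin_le_nhds).prodMk_nhds hp
  have h2 := (A.continuous_F.tendsto ((0 : ℝ), p0)).comp h1
  simp only [Function.comp_def] at h2
  have h3 : eval p0 (A.F 0) = 0 :=
    tendsto_nhds_unique h2 (tendsto_const_nhds.congr' (h.mono fun x hx => hx.symm))
  rw [eval_F] at h3
  simpa using h3

theorem DivA_notP {δ : ℝ} (hδ : ∀ j, δ * ‖ofR (A.P j)‖ < 1) {p0 : V} (h0 : p0 ≠ 0)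
    (h1 : eval p0 A.φ = 0) (h2 : eval p0 A.ψ = 0) (h3 : ‖p0 2‖ ≤ δ * ‖p0‖) : False := by
  obtain ⟨j, c, rfl⟩ := A.common h1 h2
  have hc : 0 < ‖c‖ := norm_pos_iff.2 fun hc => h0 (by simp [hc])
  have e1 : ‖(c • ofR (A.P j)) 2‖ = ‖c‖ := by simp [A.P2]
  rw [e1, norm_smul] at h3
  have := hδ j
  nlinarith

theorem DivA_small {l : Filter (ℝ × V)} [l.NeBot] {p0 : V} {δ : ℝ}
    (hp : Tendsto Prod.snd l (𝓝 p0)) (h : ∀ᶠ x in l, ‖x.2 2‖ ≤ δ * ‖x.2‖) :
    ‖p0 2‖ ≤ δ * ‖p0‖ :=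
  le_of_tendsto_of_tendsto (((continuous_apply 2).tendsto p0).comp hp).norm
    (hp.norm.const_mul δ) h

theorem DivA_key {ι : Type*} {l : Filter ι} {s : ι → ℝ} {p : ι → V} {r : Fin 3 → ℝ} {k : Fin 3}
    (hs : Tendsto s l (𝓝 0)) (hp : Tendsto p l (𝓝 (ofR r))) (h2 : r 2 = 0) (hk : r k ≠ 0)
    (hpk : ∀ᶠ i in l, p i k = r k) (hF : ∀ᶠ i in l, eval (p i) (A.F (s i)) = 0)
    (hn : ∀ᶠ i in l, ‖eval (p i) A.φ‖ = ‖eval (p i) A.ψ‖) :
    ∀ᶠ i in l, p i - star (p i) = 0 := by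
  have hr : r ≠ 0 := fun h => hk (by simp [h])
  have hφ : eval (ofR r) A.φ ≠ 0 := A.φ_real_ne hr h2
  have hψ : eval (ofR r) A.ψ ≠ 0 := by
    rw [eval_cj_ofR]; simpa using hφ
  have hp' : Tendsto (fun i => star (p i)) l (𝓝 (ofR r)) := by
    have := (continuous_star.tendsto (ofR r)).comp hp
    simp only [Function.comp_def, star_ofR] at this
    exact this
  have hsc : Tendsto (fun i => (s i : ℂ)) l (𝓝 0) := by
    have := (Complex.continuous_ofReal.tendsto 0).comp hs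
    simp only [Function.comp_def, Complex.ofReal_zero] at this
    exact this
  have hs1 : (fun i => (s i : ℂ)) =o[l] fun _ => (1 : ℝ) := (isLittleO_one_iff ℝ).2 hsc
  have hs2 : (fun i => (s i : ℂ) ^ 2) =o[l] fun _ => (1 : ℝ) :=
    (isLittleO_one_iff ℝ).2 (by simpa using hsc.pow 2)
  have small : ∀ {a b : ι → ℂ}, a =o[l] (fun _ => (1 : ℝ)) →
      b =O[l] (fun i => p i - star (p i)) → (fun i => a i * b i) =o[l] fun i => p i - star (p i) := by
    intro a b ha hb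
    have h1 := ha.norm_left.mul_isBigO hb.norm_norm
    simp only [one_mul, ← norm_mul] at h1
    exact h1.of_norm_norm
  refine eventually_eq_zero_of_inj
    (ContinuousLinearMap.proj (R := ℂ) (φ := fun _ : Fin 3 => ℂ) k)
    (dvL (X 2 * A.φ * A.ψ) (ofR r))
    (eval (ofR r) A.ψ • dvL A.φ (ofR r) - eval (ofR r) A.φ • dvL A.ψ (ofR r)) ?_ ?_ ?_ ?_
  · intro x e1 e2 e3
    have x2 : x 2 = 0 := by
      simp only [dvL_apply, dv_mul, dv_X, map_mul, eval_X, ofR_apply, h2, Complex.ofReal_zero,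
        zero_mul, add_zero, mul_eq_zero, hφ, hψ, or_false] at e2
      exact e2
    refine A.simple h2 hk x2 e1 ?_
    simpa only [sub_apply, smul_apply, dvL_apply,
      smul_eq_mul] using e3
  · refine (isLittleO_zero _ _).congr' ?_ EventuallyEq.rfl
    filter_upwards [hpk] with i hi
    simp [hi]
  · have e1 := diff_isLittleO hp hp' (X 2 * A.φ * A.ψ)
    have e2 := small hs1 (diff_isBigO hp hp' A.G)
    have e3 := small hs2 (diff_isBigO hp hp' (X 2 * A.R))
    refine ((e1.add e2).add e3).neg_left.congr' ?_ EventuallyEq.rfl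
    filter_upwards [hF] with i hi
    have hi' : eval (star (p i)) (A.F (s i)) = 0 := by rw [eval_star, cj_F, hi, map_zero]
    rw [eval_F] at hi hi'
    simp only [dvL_apply, map_mul, eval_X]
    linear_combination hi' - hi
  · have e1 := (diff_isLittleO hp hp' A.φ).const_mul_left (eval (ofR r) A.ψ)
    have e2 := (diff_isLittleO hp hp' A.ψ).const_mul_left (eval (ofR r) A.φ)
    have t1 : (fun i => eval (ofR r) A.ψ - eval (star (p i)) A.ψ) =o[l] fun _ => (1 : ℝ) := by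
      refine (isLittleO_one_iff ℝ).2 ?_
      have := (tendsto_eval hp' A.ψ).const_sub (eval (ofR r) A.ψ)
      rwa [sub_self] at this
    have t2 : (fun i => eval (ofR r) A.φ - eval (star (p i)) A.φ) =o[l] fun _ => (1 : ℝ) := by
      refine (isLittleO_one_iff ℝ).2 ?_
      have := (tendsto_eval hp' A.φ).const_sub (eval (ofR r) A.φ)
      rwa [sub_self] at this
    have e3 := small t1 (diff_isBigO hp hp' A.φ)
    have e4 := small t2 (diff_isBigO hp hp' A.ψ)
    refine (((e2.sub e1).add e3).sub e4).congr' ?_ EventuallyEq.rfl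
    filter_upwards [hn] with i hi
    have a1 : eval (star (p i)) A.φ = conj (eval (p i) A.ψ) := eval_star _ _
    have a2 : eval (star (p i)) A.ψ = conj (eval (p i) A.φ) := by rw [eval_star, cj_cj]
    have a3 : eval (p i) A.φ * eval (star (p i)) A.ψ = eval (star (p i)) A.φ * eval (p i) A.ψ := by
      rw [a1, a2, Complex.mul_conj, mul_comm, Complex.mul_conj, Complex.normSq_eq_norm_sq,
        Complex.normSq_eq_norm_sq, hi]
    simp only [sub_apply, smul_apply, dvL_apply,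
      smul_eq_mul]
    linear_combination (-1 : ℂ) * a3

theorem divA {δ : ℝ} (hδ : ∀ j, δ * ‖ofR (A.P j)‖ < 1) : ∀ᶠ s in 𝓝[>] (0 : ℝ), ∀ p : V, p ≠ 0 →
    eval p (A.F s) = 0 → ‖p 2‖ ≤ δ * ‖p‖ → ‖eval p A.φ‖ = ‖eval p A.ψ‖ → Re3 p := by
  have hsc : ∀ (s : ℝ) (p : V) (c : ℂ), c ≠ 0 → (eval p (A.F s) = 0 ∧ ‖p 2‖ ≤ δ * ‖p‖ ∧
      ‖eval p A.φ‖ = ‖eval p A.ψ‖ ∧ ¬ Re3 p) → (eval (c • p) (A.F s) = 0 ∧
      ‖(c • p) 2‖ ≤ δ * ‖c • p‖ ∧ ‖eval (c • p) A.φ‖ = ‖eval (c • p) A.ψ‖ ∧ ¬ Re3 (c • p)) := by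
    rintro s p c hc ⟨h1, h2, h3, h4⟩
    refine ⟨by rw [eval_smul_hom (A.F_hom s), h1, mul_zero], ?_, ?_, by rwa [re3_smul_iff hc]⟩
    · rw [Pi.smul_apply, norm_smul, norm_smul, mul_left_comm]
      exact mul_le_mul_of_nonneg_left h2 (norm_nonneg _)
    · rw [eval_smul_hom A.φ_hom, eval_smul_hom A.ψ_hom, norm_mul, norm_mul, h3]
  have := eventually_forall_of_local (fun s p => eval p (A.F s) = 0 ∧ ‖p 2‖ ≤ δ * ‖p‖ ∧
      ‖eval p A.φ‖ = ‖eval p A.ψ‖ ∧ ¬ Re3 p) hsc ?_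
  · filter_upwards [this] with s h p hp h1 h2 h3
    by_contra h4
    exact h p hp ⟨h1, h2, h3, h4⟩
  intro l _ p0 h0 hs hp hQ
  have l1 := A.DivA_lim hs hp (hQ.mono fun x hx => hx.1)
  have l2 := DivA_small hp (hQ.mono fun x hx => hx.2.1)
  have l3 : ‖eval p0 A.φ‖ = ‖eval p0 A.ψ‖ :=
    tendsto_nhds_unique_of_eventuallyEq (tendsto_eval hp A.φ).norm (tendsto_eval hp A.ψ).norm
      (hQ.mono fun x hx => hx.2.2.1)
  by_cases hφ : eval p0 A.φ = 0
  · exact A.DivA_notP hδ h0 hφ (by rw [← norm_eq_zero, ← l3, hφ, norm_zero]) l2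
  have hψ : eval p0 A.ψ ≠ 0 := fun h => hφ (by rw [← norm_eq_zero, l3, h, norm_zero])
  have z0 : p0 2 = 0 := by simpa [hφ, hψ] using l1
  obtain ⟨c, r, hc, rfl⟩ := (A.re3_of_norm_eq z0 l3).exists_ofR h0
  have r2 : r 2 = 0 := by simpa [hc] using z0
  obtain ⟨k, hk⟩ : ∃ k, r k ≠ 0 := by
    by_contra hn
    push Not at hn
    exact h0 (by ext i; simp [hn])
  have hk' : (r k : ℂ) ≠ 0 := by exact_mod_cast hk
  have hpk : Tendsto (fun x : ℝ × V => x.2 k) l (𝓝 (c * r k)) :=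
    ((continuous_apply k).tendsto _).comp hp
  have hne : ∀ᶠ x in l, x.2 k ≠ 0 := hpk.eventually_ne (mul_ne_zero hc hk')
  have hp' : Tendsto (fun x : ℝ × V => ((r k : ℂ) / x.2 k) • x.2) l (𝓝 (ofR r)) := by
    have h1 := ((tendsto_const_nhds (x := (r k : ℂ))).div hpk (mul_ne_zero hc hk')).smul hp
    have h2 : ((r k : ℂ) / (c * r k)) • c • ofR r = ofR r := by
      rw [smul_smul, show (r k : ℂ) / (c * r k) * c = 1 by field_simp, one_smul]
    rw [h2] at h1
    exact h1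
  have hQ' := (hQ.and hne).mono fun x hx => hsc x.1 x.2 _ (div_ne_zero hk' hx.2) hx.1
  have key := A.DivA_key (hs.mono_right nhdsWithin_le_nhds) hp' r2 hk
    (hne.mono fun x hx => by simp [hx]) (hQ'.mono fun x hx => hx.1)
    (hQ'.mono fun x hx => hx.2.2.1)
  obtain ⟨x, h1, h2⟩ := (key.and hQ').exists
  exact h2.2.2.2 (re3_of_star_eq (sub_eq_zero.1 h1).symm)

theorem divC {δ : ℝ} (h0 : 0 < δ) (hδ : ∀ j, δ * ‖ofR (A.P j)‖ < 1) :
    ∀ᶠ s in 𝓝[>] (0 : ℝ), ∀ p : V, p ≠ 0 → eval p (A.F s) = 0 → δ / 2 * ‖p‖ ≤ ‖p 2‖ →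
      ‖p 2‖ ≤ δ * ‖p‖ → ‖eval p A.φ‖ ≤ ‖eval p A.ψ‖ →
      ‖eval p (A.φt s)‖ < ‖eval p (A.ψt s)‖ := by
  have := eventually_forall_of_local (fun s p => eval p (A.F s) = 0 ∧ δ / 2 * ‖p‖ ≤ ‖p 2‖ ∧
      ‖p 2‖ ≤ δ * ‖p‖ ∧ ‖eval p A.φ‖ ≤ ‖eval p A.ψ‖ ∧
      ‖eval p (A.ψt s)‖ ≤ ‖eval p (A.φt s)‖) ?_ ?_
  · filter_upwards [this] with s h p hp h1 h2 h3 h4
    by_contra h5
    exact h p hp ⟨h1, h2, h3, h4, not_lt.1 h5⟩
  · rintro s p c hc ⟨h1, h2, h3, h4, h5⟩
    refine ⟨by rw [eval_smul_hom (A.F_hom s), h1, mul_zero], ?_, ?_, ?_, ?_⟩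
    · rw [Pi.smul_apply, norm_smul, norm_smul, mul_left_comm]
      exact mul_le_mul_of_nonneg_left h2 (norm_nonneg _)
    · rw [Pi.smul_apply, norm_smul, norm_smul, mul_left_comm]
      exact mul_le_mul_of_nonneg_left h3 (norm_nonneg _)
    · rw [eval_smul_hom A.φ_hom, eval_smul_hom A.ψ_hom, norm_mul, norm_mul]
      exact mul_le_mul_of_nonneg_left h4 (norm_nonneg _)
    · rw [eval_smul_hom (A.φt_hom s), eval_smul_hom (A.ψt_hom s), norm_mul, norm_mul]
      exact mul_le_mul_of_nonneg_left h5 (norm_nonneg _)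
  intro l _ p0 hp0 hs hp hQ
  have l1 := A.DivA_lim hs hp (hQ.mono fun x hx => hx.1)
  have l2 := DivA_small hp (hQ.mono fun x hx => hx.2.2.1)
  have hz : Tendsto (fun x : ℝ × V => x.2 2) l (𝓝 (p0 2)) :=
    ((continuous_apply 2).tendsto p0).comp hp
  have l3 : δ / 2 * ‖p0‖ ≤ ‖p0 2‖ :=
    le_of_tendsto_of_tendsto (hp.norm.const_mul (δ / 2)) hz.norm (hQ.mono fun x hx => hx.2.1)
  have l4 : ‖eval p0 A.φ‖ ≤ ‖eval p0 A.ψ‖ :=
    le_of_tendsto_of_tendsto (tendsto_eval hp A.φ).norm (tendsto_eval hp A.ψ).norm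
      (hQ.mono fun x hx => hx.2.2.2.1)
  have hsc : Tendsto (fun x : ℝ × V => (x.1 : ℂ)) l (𝓝 0) := by
    have := (Complex.continuous_ofReal.tendsto 0).comp (hs.mono_right nhdsWithin_le_nhds)
    simp only [Function.comp_def, Complex.ofReal_zero] at this
    exact this
  have l5 : ‖p0 2 * eval p0 A.ψ + 0 * eval p0 (cj A.W)‖ ≤ ‖p0 2 * eval p0 A.φ + 0 * eval p0 A.W‖ :=
    le_of_tendsto_of_tendsto
      ((hz.mul (tendsto_eval hp A.ψ)).add (hsc.mul (tendsto_eval hp (cj A.W)))).norm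
      ((hz.mul (tendsto_eval hp A.φ)).add (hsc.mul (tendsto_eval hp A.W))).norm
      (hQ.mono fun x hx => by
        have := hx.2.2.2.2
        rw [eval_ψt, eval_φt] at this
        exact this)
  have z0 : 0 < ‖p0 2‖ := lt_of_lt_of_le (mul_pos (half_pos h0) (norm_pos_iff.2 hp0)) l3
  simp only [zero_mul, add_zero, norm_mul] at l5
  have l6 : ‖eval p0 A.ψ‖ ≤ ‖eval p0 A.φ‖ := le_of_mul_le_mul_left l5 z0
  have hφ : eval p0 A.φ = 0 := by
    rcases mul_eq_zero.1 l1 with h | h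
    · exact (mul_eq_zero.1 h).resolve_left (norm_pos_iff.1 z0)
    · rw [h, norm_zero] at l4
      exact norm_le_zero_iff.1 l4
  rw [hφ, norm_zero] at l6
  exact A.DivA_notP hδ hp0 hφ (norm_le_zero_iff.1 l6) l2

end Fam

end Pool.Agent.MP_42957e_ag

end

section

set_option autoImplicit false

namespace Pool.Agent.MP_42957e_ag

open MvPolynomial Filter Topology Asymptotics
open scoped ComplexConjugate

theorem divB_alg {a b T : ℂ} {s m : ℝ} (hs : 0 < s) (hm : 0 < m) (h : a * b = (s : ℂ) ^ 2 * T)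
    (hn : ‖a‖ = ‖b‖) (hT : m ^ 2 ≤ T.re) : ‖a - conj b‖ ≤ m⁻¹ * (s * ‖T - conj T‖) := by
  have hb2 : ‖b‖ ^ 2 = s ^ 2 * ‖T‖ := by
    have := congrArg norm h
    rw [norm_mul, norm_mul, norm_pow, Complex.norm_real, Real.norm_of_nonneg hs.le, hn] at this
    rw [← this]; ring
  have hre : T.re ≤ ‖T‖ := Complex.re_le_norm T
  have hb : s * m ≤ ‖b‖ := by
    refine (pow_le_pow_iff_left₀ (by positivity) (norm_nonneg _) two_ne_zero).1 ?_
    rw [hb2, mul_pow]
    exact mul_le_mul_of_nonneg_left (hT.trans hre) (by positivity)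
  have e : (a - conj b) * b = (s : ℂ) ^ 2 * (T - (‖T‖ : ℂ)) := by
    have e2 : ((‖b‖ : ℂ)) ^ 2 = (s : ℂ) ^ 2 * (‖T‖ : ℂ) := by exact_mod_cast hb2
    rw [sub_mul, Complex.conj_mul', h, e2]; ring
  have h3 : ‖T - (‖T‖ : ℂ)‖ ≤ ‖T - conj T‖ := by
    have h0 : 0 ≤ T.re := le_trans (by positivity) hT
    have h1 := Complex.norm_le_abs_re_add_abs_im T
    have h2 := Complex.norm_le_abs_re_add_abs_im (T - (‖T‖ : ℂ))
    rw [abs_of_nonneg h0] at h1
    simp only [Complex.sub_re, Complex.ofReal_re, Complex.sub_im, Complex.ofReal_im,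
      sub_zero] at h2
    rw [abs_of_nonpos (sub_nonpos.2 hre)] at h2
    rw [Complex.sub_conj, norm_mul, Complex.norm_I, Complex.norm_real, Real.norm_eq_abs, abs_mul,
      abs_two]
    linarith
  have h4 : ‖a - conj b‖ * ‖b‖ = s ^ 2 * ‖T - (‖T‖ : ℂ)‖ := by
    rw [← norm_mul, e, norm_mul, norm_pow, Complex.norm_real, Real.norm_of_nonneg hs.le]
  rw [← div_eq_inv_mul, le_div_iff₀ hm]
  refine le_of_mul_le_mul_left ?_ hs
  calc s * (‖a - conj b‖ * m) = ‖a - conj b‖ * (s * m) := by ring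
    _ ≤ ‖a - conj b‖ * ‖b‖ := mul_le_mul_of_nonneg_left hb (norm_nonneg _)
    _ ≤ s ^ 2 * ‖T - conj T‖ := by rw [h4]; exact mul_le_mul_of_nonneg_left h3 (by positivity)
    _ = _ := by ring

theorem divB_small {ι : Type*} {l : Filter ι} {s : ι → ℝ} {v : ι → V} {g : ι → ℂ}
    (hs : Tendsto s l (𝓝 0)) (hg : g =O[l] v) : (fun i => (s i : ℂ) * g i) =o[l] v := by
  have h1 : Tendsto (fun i => (s i : ℂ)) l (𝓝 0) := by
    have := (Complex.continuous_ofReal.tendsto 0).comp hs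
    simp only [Function.comp_def, Complex.ofReal_zero] at this
    exact this
  have h2 := ((isLittleO_one_iff ℝ).2 h1).norm_left.mul_isBigO hg.norm_norm
  simp only [one_mul, ← norm_mul] at h2
  exact h2.of_norm_norm

theorem divB_dv {ι : Type*} {l : Filter ι} {s : ι → ℝ} {q q' : ι → V} {p0 : V}
    (hs : Tendsto s l (𝓝 0)) (hq : Tendsto q l (𝓝 p0)) (hq' : Tendsto q' l (𝓝 p0)) (K W : CP)
    {g : ι → ℂ} (hg : g =o[l] fun i => q i - q' i)
    (he : ∀ᶠ i in l, g i = (eval (q i) K + s i * eval (q i) W) -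
      (eval (q' i) K + s i * eval (q' i) W)) :
    (fun i => dvL K p0 (q i - q' i)) =o[l] fun i => q i - q' i := by
  have h1 := (hg.sub (divB_small hs (diff_isBigO hq hq' W))).sub (diff_isLittleO hq hq' K)
  refine h1.congr' ?_ EventuallyEq.rfl
  filter_upwards [he] with i hi
  rw [hi, dvL_apply]; ring

namespace Fam

variable (A : Fam)

theorem divB_core {ι : Type*} {l : Filter ι} {s : ι → ℝ} {q : ι → V} (j : Fin 9)
    (hs : Tendsto s l (𝓝[>] 0)) (hq : Tendsto q l (𝓝 (ofR (A.P j))))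
    (h : ∀ᶠ i in l, q i 2 = 1 ∧ eval (q i) (A.F (s i)) = 0 ∧
      ‖eval (q i) (A.φt (s i))‖ = ‖eval (q i) (A.ψt (s i))‖) : ∀ᶠ i in l, Re3 (q i) := by
  obtain ⟨hs0, hs1⟩ := tendsto_nhdsWithin_iff.1 hs
  have hq' : Tendsto (fun i => star (q i)) l (𝓝 (ofR (A.P j))) := by
    have := hq.star
    rwa [star_ofR] at this
  have hT := tendsto_eval hq A.T
  rw [A.T_P] at hT
  have hre : ∀ᶠ i in l, A.η / 2 ≤ (eval (q i) A.T).re := by
    have := (Complex.continuous_re.tendsto _).comp hT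
    simp only [Function.comp_def, Complex.ofReal_re] at this
    exact this.eventually_const_le (half_lt_self A.η_pos)
  have hTd := divB_small hs0 (diff_isBigO hq hq' A.T)
  have hm : 0 < √(A.η / 2) := Real.sqrt_pos.2 (half_pos A.η_pos)
  have key : ∀ a b : ι → ℂ, (∀ᶠ i in l, a i * b i = (s i : ℂ) ^ 2 * eval (q i) A.T ∧
      ‖a i‖ = ‖b i‖) → (fun i => a i - conj (b i)) =o[l] fun i => q i - star (q i) := by
    intro a b hab
    refine IsBigO.trans_isLittleO (IsBigO.of_bound (√(A.η / 2))⁻¹ ?_) hTd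
    filter_upwards [hab, hre, hs1] with i h1 h2 h3
    have h4 := divB_alg h3 hm h1.1 h1.2 (by rwa [Real.sq_sqrt (half_pos A.η_pos).le])
    rwa [norm_mul, Complex.norm_real, Real.norm_of_nonneg (le_of_lt h3), eval_star, A.cj_T]
  have hab : ∀ᶠ i in l, eval (q i) (A.φt (s i)) * eval (q i) (A.ψt (s i)) =
      (s i : ℂ) ^ 2 * eval (q i) A.T := by
    filter_upwards [h] with i hi
    have := A.mul_eval_F (s i) (q i)
    rw [hi.2.1, mul_zero] at this
    exact sub_eq_zero.1 this.symm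
  have k1 := key (fun i => eval (q i) (A.φt (s i))) (fun i => eval (q i) (A.ψt (s i)))
    (by filter_upwards [hab, h] with i h1 h2 using ⟨h1, h2.2.2⟩)
  have k2 := key (fun i => eval (q i) (A.ψt (s i))) (fun i => eval (q i) (A.φt (s i)))
    (by filter_upwards [hab, h] with i h1 h2 using ⟨by rw [mul_comm, h1], h2.2.2.symm⟩)
  have d1 := divB_dv hs0 hq hq' A.φ A.W k1 (by
    filter_upwards [h] with i hi
    rw [← A.cj_φt, ← eval_star, A.eval_φt, A.eval_φt, Pi.star_apply, hi.1, star_one, one_mul,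
      one_mul])
  have d2 := divB_dv hs0 hq hq' A.ψ (cj A.W) k2 (by
    filter_upwards [h] with i hi
    rw [← A.cj_ψt, ← eval_star, A.eval_ψt, A.eval_ψt, Pi.star_apply, hi.1, star_one, one_mul,
      one_mul])
  have d3 : (fun i => ContinuousLinearMap.proj (R := ℂ) (φ := fun _ : Fin 3 => ℂ) 2
      (q i - star (q i))) =o[l] fun i => q i - star (q i) := by
    refine (isLittleO_zero _ _).congr' ?_ EventuallyEq.rfl
    filter_upwards [h] with i hi
    simp [hi.1]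
  have := eventually_eq_zero_of_inj _ _ _ (fun x h0 h1 h2 => A.inj_P j x h0
    (by rwa [dvL_apply] at h1) (by rwa [dvL_apply] at h2)) d3 d1 d2
  filter_upwards [this] with i hi
  exact re3_of_star_eq (sub_eq_zero.1 hi).symm

theorem divB {δ : ℝ} (h0 : 0 < δ) : ∀ᶠ s in 𝓝[>] (0 : ℝ), ∀ p : V, p ≠ 0 →
    eval p (A.F s) = 0 → δ / 2 * ‖p‖ ≤ ‖p 2‖ → ‖eval p (A.φt s)‖ = ‖eval p (A.ψt s)‖ →
    Re3 p := by
  have hsc : ∀ (s : ℝ) (p : V) (c : ℂ), c ≠ 0 → (eval p (A.F s) = 0 ∧ δ / 2 * ‖p‖ ≤ ‖p 2‖ ∧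
      ‖eval p (A.φt s)‖ = ‖eval p (A.ψt s)‖ ∧ ¬ Re3 p) → (eval (c • p) (A.F s) = 0 ∧
      δ / 2 * ‖c • p‖ ≤ ‖(c • p) 2‖ ∧
      ‖eval (c • p) (A.φt s)‖ = ‖eval (c • p) (A.ψt s)‖ ∧ ¬ Re3 (c • p)) := by
    rintro s p c hc ⟨h1, h2, h3, h4⟩
    refine ⟨by rw [eval_smul_hom (A.F_hom s), h1, mul_zero], ?_, ?_, by rwa [re3_smul_iff hc]⟩
    · rw [Pi.smul_apply, norm_smul, norm_smul, mul_left_comm]
      exact mul_le_mul_of_nonneg_left h2 (norm_nonneg _)
    · rw [eval_smul_hom (A.φt_hom s), eval_smul_hom (A.ψt_hom s), norm_mul, norm_mul, h3]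
  have := eventually_forall_of_local (fun s p => eval p (A.F s) = 0 ∧ δ / 2 * ‖p‖ ≤ ‖p 2‖ ∧
      ‖eval p (A.φt s)‖ = ‖eval p (A.ψt s)‖ ∧ ¬ Re3 p) hsc ?_
  · filter_upwards [this] with s hs p hp h1 h2 h3
    by_contra h4
    exact hs p hp ⟨h1, h2, h3, h4⟩
  intro l _ p0 hp0 hs hp hQ
  have hs0 : Tendsto Prod.fst l (𝓝 0) := (tendsto_nhdsWithin_iff.1 hs).1
  have hl : Tendsto id l (𝓝 ((0 : ℝ), p0)) := hs0.prodMk_nhds hp
  have lim : ∀ f : ℝ × V → ℝ, Continuous f → (∀ᶠ x in l, 0 ≤ f x) → 0 ≤ f (0, p0) :=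
    fun f hf h => ge_of_tendsto ((hf.tendsto _).comp hl) h
  have hz : p0 2 ≠ 0 := by
    have := lim (fun x => ‖x.2 2‖ - δ / 2 * ‖x.2‖) (by fun_prop)
      (hQ.mono fun x hx => sub_nonneg.2 hx.2.1)
    have h1 : 0 < δ / 2 * ‖p0‖ := mul_pos (half_pos h0) (norm_pos_iff.2 hp0)
    rw [← norm_pos_iff]
    linarith
  have hF : eval p0 A.φ * eval p0 A.ψ = 0 := by
    have := lim (fun x => - ‖eval x.2 (A.F x.1)‖) A.continuous_F.norm.neg
      (hQ.mono fun x hx => by simp [hx.1])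
    simp only [eval_F, Complex.ofReal_zero, zero_mul, add_zero, ne_eq, OfNat.ofNat_ne_zero,
      not_false_eq_true, zero_pow, Left.nonneg_neg_iff, norm_le_zero_iff, mul_assoc] at this
    exact (mul_eq_zero.1 this).resolve_left hz
  have hc : Continuous fun x : ℝ × V => ‖eval x.2 (A.φt x.1)‖ - ‖eval x.2 (A.ψt x.1)‖ := by
    simp only [eval_φt, eval_ψt]; fun_prop
  have hN : ‖eval p0 A.φ‖ = ‖eval p0 A.ψ‖ := by
    have h1 := lim _ hc (hQ.mono fun x hx => (sub_eq_zero.2 hx.2.2.1).ge)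
    have h2 := lim _ hc.neg (hQ.mono fun x hx => by simp [hx.2.2.1])
    simp only [Pi.neg_apply, eval_φt, eval_ψt, Complex.ofReal_zero, zero_mul, add_zero,
      norm_mul] at h1 h2
    exact mul_left_cancel₀ (norm_ne_zero_iff.2 hz) (by linarith)
  have h12 : eval p0 A.φ = 0 ∧ eval p0 A.ψ = 0 := by
    rcases mul_eq_zero.1 hF with h | h
    · exact ⟨h, by rwa [h, norm_zero, eq_comm, norm_eq_zero] at hN⟩
    · exact ⟨by rwa [h, norm_zero, norm_eq_zero] at hN, h⟩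
  obtain ⟨j, c, hj⟩ := A.common h12.1 h12.2
  have hc2 : p0 2 = c := by rw [hj]; simp [A.P2]
  have hp2 : Tendsto (fun x : ℝ × V => x.2 2) l (𝓝 (p0 2)) :=
    ((continuous_apply 2).tendsto p0).comp hp
  have hq : Tendsto (fun x : ℝ × V => (x.2 2)⁻¹ • x.2) l (𝓝 (ofR (A.P j))) := by
    have := (hp2.inv₀ hz).smul hp
    rwa [hc2, hj, smul_smul, inv_mul_cancel₀ (hc2 ▸ hz), one_smul] at this
  have hQ' := (hQ.and (hp2.eventually_ne hz)).mono fun x hx =>
    And.intro hx.2 (hsc _ _ _ (inv_ne_zero hx.2) hx.1)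
  have := A.divB_core j hs hq (hQ'.mono fun x hx =>
    ⟨by simp [hx.1], hx.2.1, hx.2.2.2.1⟩)
  obtain ⟨x, h1, h2⟩ := (this.and hQ').exists
  exact h2.2.2.2.2 h1

theorem div : ∀ᶠ s in 𝓝[>] (0 : ℝ), ∃ U : Set V, IsOpen U ∧
    (∀ c : ℂ, c ≠ 0 → ∀ p ∈ U, c • p ∈ U) ∧
    (∀ p ∈ U, p ≠ 0 → eval p (A.F s) = 0 → star p ∉ U) ∧
    ∀ p : V, p ≠ 0 → eval p (A.F s) = 0 → ¬ Re3 p → p ∈ U ∨ star p ∈ U := by
  obtain ⟨δ, hδ, h0⟩ : ∃ δ : ℝ, (∀ j, δ * ‖ofR (A.P j)‖ < 1) ∧ 0 < δ := by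
    have h1 : ∀ᶠ δ in 𝓝 (0 : ℝ), ∀ j, δ * ‖ofR (A.P j)‖ < 1 := eventually_all.2 fun j =>
      ContinuousAt.eventually_lt (by fun_prop) continuousAt_const (by simp)
    exact ((h1.filter_mono (nhdsWithin_le_nhds (s := Set.Ioi 0))).and self_mem_nhdsWithin).exists
  filter_upwards [A.divA hδ, A.divC h0 hδ, A.divB h0] with s hA hC hB
  have n1 : ∀ p : V, ‖star p 2‖ = ‖p 2‖ := fun p => by rw [Pi.star_apply, norm_star]
  have n2 : ∀ p : V, ‖eval (star p) A.φ‖ = ‖eval p A.ψ‖ := fun p => by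
    rw [eval_star, Complex.norm_conj]
  have n3 : ∀ p : V, ‖eval (star p) A.ψ‖ = ‖eval p A.φ‖ := fun p => by
    rw [eval_star, Complex.norm_conj, cj_cj]
  have n4 : ∀ p : V, ‖eval (star p) (A.φt s)‖ = ‖eval p (A.ψt s)‖ := fun p => by
    rw [eval_star, Complex.norm_conj, A.cj_φt]
  have n5 : ∀ p : V, ‖eval (star p) (A.ψt s)‖ = ‖eval p (A.φt s)‖ := fun p => by
    rw [eval_star, Complex.norm_conj, A.cj_ψt]
  refine ⟨{p | (‖p 2‖ < δ * ‖p‖ ∧ ‖eval p A.φ‖ < ‖eval p A.ψ‖) ∨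
    (δ / 2 * ‖p‖ < ‖p 2‖ ∧ ‖eval p (A.φt s)‖ < ‖eval p (A.ψt s)‖)}, ?_, ?_, ?_, ?_⟩
  · simp only [Set.ofPred_or, Set.ofPred_and]
    refine IsOpen.union (IsOpen.inter ?_ ?_) (IsOpen.inter ?_ ?_) <;>
      exact isOpen_lt (by fun_prop) (by fun_prop)
  · intro c hc p hp
    have c1 : 0 < ‖c‖ := norm_pos_iff.2 hc
    have c2 : ∀ n : ℕ, 0 < ‖c ^ n‖ := fun n => norm_pos_iff.2 (pow_ne_zero n hc)
    simp only [Set.mem_ofPred_eq, Pi.smul_apply, norm_smul, eval_smul_hom A.φ_hom,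
      eval_smul_hom A.ψ_hom, eval_smul_hom (A.φt_hom s), eval_smul_hom (A.ψt_hom s), norm_mul,
      mul_left_comm _ ‖c‖, mul_lt_mul_iff_right₀ c1, mul_lt_mul_iff_right₀ (c2 _)]
    exact hp
  · intro p hp hp0 hF hp'
    simp only [Set.mem_ofPred_eq, n1, n2, n3, n4, n5, norm_star] at hp hp'
    rcases hp with hp | hp <;> rcases hp' with hp' | hp'
    · exact lt_asymm hp.2 hp'.2
    · exact lt_asymm (hC p hp0 hF hp'.1.le hp.1.le hp.2.le) hp'.2
    · have := hC (star p) (star_ne_zero.2 hp0) (by rw [eval_star, A.cj_F, hF, map_zero])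
        (by rw [n1, norm_star]; exact hp.1.le) (by rw [n1, norm_star]; exact hp'.1.le)
        (by rw [n2, n3]; exact hp'.2.le)
      rw [n4, n5] at this
      exact lt_asymm this hp.2
    · exact lt_asymm hp.2 hp'.2
  · intro p hp0 hF hR
    simp only [Set.mem_ofPred_eq, n1, n2, n3, n4, n5, norm_star]
    rcases lt_or_ge ‖p 2‖ (δ * ‖p‖) with h | h
    · rcases lt_trichotomy ‖eval p A.φ‖ ‖eval p A.ψ‖ with h' | h' | h'
      · exact Or.inl (Or.inl ⟨h, h'⟩)
      · exact absurd (hA p hp0 hF h.le h') hR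
      · exact Or.inr (Or.inl ⟨h, h'⟩)
    · have h1 : δ / 2 * ‖p‖ < ‖p 2‖ := by
        have := mul_pos h0 (norm_pos_iff.2 hp0)
        linarith
      rcases lt_trichotomy ‖eval p (A.φt s)‖ ‖eval p (A.ψt s)‖ with h' | h' | h'
      · exact Or.inl (Or.inr ⟨h1, h'⟩)
      · exact absurd (hB p hp0 hF h1.le h') hR
      · exact Or.inr (Or.inr ⟨h1, h'⟩)

end Fam

end Pool.Agent.MP_42957e_ag

end

section

set_option autoImplicit false

namespace Pool.Agent.MP_42957e_ag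

open MvPolynomial Filter Topology Asymptotics
open scoped ComplexConjugate

theorem exFam_prod_le {t0 t1 : ℂ} {B : ℝ} (hB : 0 ≤ B) (S : Multiset ℂ)
    (h : ∀ r ∈ S, ‖t1 - r‖ ≤ B * ‖t0 - r‖) :
    ‖(S.map fun r => t1 - r).prod‖ ≤ B ^ S.card * ‖(S.map fun r => t0 - r).prod‖ := by
  induction S using Multiset.induction_on with
  | empty => simp
  | cons a S ih =>
    simp only [Multiset.map_cons, Multiset.prod_cons, norm_mul, Multiset.card_cons, pow_succ]
    have h1 := h a (Multiset.mem_cons_self _ _)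
    have h2 := ih fun r hr => h r (Multiset.mem_cons_of_mem hr)
    calc _ ≤ (B * ‖t0 - a‖) * (B ^ S.card * ‖(S.map fun r => t0 - r).prod‖) :=
          mul_le_mul h1 h2 (norm_nonneg _) (by positivity)
      _ = _ := by ring

theorem exFam_poly_le {t0 t1 : ℂ} (h0 : 0 < t0.im) (p : Polynomial ℂ)
    (hp : ∀ r, p.eval r = 0 → r.im = 0) (hd : p.natDegree ≤ 19) :
    ‖p.eval t1‖ ≤ (1 + ‖t1 - t0‖ / t0.im) ^ 19 * ‖p.eval t0‖ := by
  set B := 1 + ‖t1 - t0‖ / t0.im with hB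
  have hB1 : 1 ≤ B := by rw [hB]; exact le_add_of_nonneg_right (by positivity)
  have hc : p.roots.card = p.natDegree := IsAlgClosed.card_roots_eq_natDegree
  have he : ∀ t, p.eval t = p.leadingCoeff * (p.roots.map fun r => t - r).prod := by
    intro t
    conv_lhs => rw [← Polynomial.C_leadingCoeff_mul_prod_multiset_X_sub_C hc]
    simp [Polynomial.eval_multiset_prod]
  have h1 := exFam_prod_le (t0 := t0) (t1 := t1) (zero_le_one.trans hB1) p.roots (by
    intro r hr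
    have h2 : r.im = 0 := hp r (Polynomial.isRoot_of_mem_roots hr)
    have h3 : t0.im ≤ ‖t0 - r‖ := by
      have := Complex.im_le_norm (t0 - r)
      simpa [h2] using this
    have h4 : ‖t1 - r‖ ≤ ‖t1 - t0‖ + ‖t0 - r‖ := norm_sub_le_norm_sub_add_norm_sub _ _ _
    have h5 : ‖t1 - t0‖ ≤ ‖t1 - t0‖ / t0.im * ‖t0 - r‖ := by
      calc ‖t1 - t0‖ = ‖t1 - t0‖ / t0.im * t0.im := by field_simp
        _ ≤ _ := mul_le_mul_of_nonneg_left h3 (by positivity)
    rw [hB]; linarith)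
  rw [he, he, norm_mul, norm_mul]
  have h6 : B ^ p.roots.card ≤ B ^ 19 := pow_le_pow_right₀ hB1 (hc ▸ hd)
  calc _ ≤ ‖p.leadingCoeff‖ * (B ^ 19 * ‖(p.roots.map fun r => t0 - r).prod‖) :=
        mul_le_mul_of_nonneg_left
          (h1.trans (mul_le_mul_of_nonneg_right h6 (norm_nonneg _))) (norm_nonneg _)
    _ = _ := by ring

theorem exFam_mu {A1 B1 A2 B2 : ℂ} (h1 : B1 ≠ 0) (h2 : B2 ≠ 0) {M : ℝ} (hM : 0 ≤ M) :
    ∃ μ : ℂ, M ≤ ‖A1 + μ * B1‖ ∧ A2 + μ * B2 ≠ 0 := by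
  by_cases h : A2 + ((M - A1) / B1) * B2 = 0
  · refine ⟨(((M + 1 : ℝ) : ℂ) - A1) / B1, ?_, fun h' => ?_⟩
    · rw [div_mul_cancel₀ _ h1, add_sub_cancel, Complex.norm_real,
        Real.norm_of_nonneg (by linarith)]
      linarith
    · have : B1⁻¹ * B2 = 0 := by
        push_cast at h'
        linear_combination h' - h
      exact mul_ne_zero (inv_ne_zero h1) h2 this
  · refine ⟨_, ?_, h⟩
    rw [div_mul_cancel₀ _ h1, add_sub_cancel, Complex.norm_real, Real.norm_of_nonneg hM]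

/-- the line through the points with parameters `r1`, `r2` -/
noncomputable def Data.exLine (D : Data) (r1 r2 : ℂ) : CP :=
  lf (D.a 2) - C (r1 + r2 + (r1 * r2)⁻¹) * lf (D.a 1) +
    C (r1 * r2 + (r1 + r2) * (r1 * r2)⁻¹) * lf (D.a 0)

theorem Data.exLine_hom (D : Data) (r1 r2 : ℂ) : (D.exLine r1 r2).IsHomogeneous 1 :=
  ((lf_hom _).sub ((lf_hom _).C_mul _)).add ((lf_hom _).C_mul _)

theorem Data.exLine_P (D : Data) {r1 r2 : ℂ} (h1 : r1 ≠ 0) (h2 : r2 ≠ 0) (j : Fin 9) :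
    D.u j * eval (ofR (D.P j)) (D.exLine r1 r2) =
      (D.θ j - r1) * (D.θ j - r2) * (D.θ j - (r1 * r2)⁻¹) := by
  have h := eval_smul_hom (D.exLine_hom r1 r2) (D.u j) (ofR (D.P j))
  rw [← D.xθ, pow_one] at h
  rw [← h]
  have hX := D.x_X (D.θ j)
  have hY := D.x_Y (D.θ j)
  have hZ := D.x_Z (D.θ j)
  simp only [Data.x] at hX hY hZ
  simp only [Data.exLine, map_add, map_sub, map_mul, eval_C, hX, hY, hZ]
  field_simp
  ring

theorem Data.exLine_left (D : Data) (i j : Fin 9) :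
    eval (ofR (D.P i)) (D.exLine (D.θ i) (D.θ j)) = 0 := by
  have h := D.exLine_P (D.θ_ne_zero i) (D.θ_ne_zero j) i
  rw [sub_self, zero_mul, zero_mul] at h
  exact (mul_eq_zero.1 h).resolve_left (D.u_ne i)

theorem Data.exLine_right (D : Data) (i j : Fin 9) :
    eval (ofR (D.P j)) (D.exLine (D.θ i) (D.θ j)) = 0 := by
  have h := D.exLine_P (D.θ_ne_zero i) (D.θ_ne_zero j) j
  rw [sub_self, mul_zero, zero_mul] at h
  exact (mul_eq_zero.1 h).resolve_left (D.u_ne j)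

theorem Data.exLine_ne (D : Data) {i j k : Fin 9} (hi : k ≠ i) (hj : k ≠ j) :
    eval (ofR (D.P k)) (D.exLine (D.θ i) (D.θ j)) ≠ 0 := by
  intro h0
  have h := D.exLine_P (D.θ_ne_zero i) (D.θ_ne_zero j) k
  rw [h0, mul_zero] at h
  have h1 : D.θ k - D.θ i ≠ 0 := sub_ne_zero.2 fun e => hi (D.θ_inj e)
  have h2 : D.θ k - D.θ j ≠ 0 := sub_ne_zero.2 fun e => hj (D.θ_inj e)
  have h3 : D.θ k = (D.θ i * D.θ j)⁻¹ :=
    sub_eq_zero.1 ((mul_eq_zero.1 h.symm).resolve_left (mul_ne_zero h1 h2))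
  have h4 : D.θ k * (D.θ i * D.θ j) = 1 := by
    rw [h3]; exact inv_mul_cancel₀ (mul_ne_zero (D.θ_ne_zero i) (D.θ_ne_zero j))
  have h5 := D.gen {D.θ k, D.θ i, D.θ j, D.θ k, D.θ i, D.θ j} (by
    intro r hr
    simp only [Multiset.insert_eq_cons, Multiset.mem_cons, Multiset.mem_singleton] at hr
    rcases hr with h | h | h | h | h | h <;> exact Or.inl ⟨_, h⟩) (by simp) (by
    simp only [Multiset.insert_eq_cons, Multiset.prod_cons, Multiset.prod_singleton]
    linear_combination (D.θ k * (D.θ i * D.θ j) + 1) * h4) 0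
  simp only [Multiset.insert_eq_cons, Multiset.mem_cons, Multiset.mem_singleton] at h5
  rcases h5 with h | h | h | h | h | h <;> exact D.θ_ne_γ _ _ h.symm

theorem Data.exists_fam (D : Data) : Nonempty Fam := by
  let Wa : CP := D.exLine (D.θ 0) (D.θ 1) * D.exLine (D.θ 2) (D.θ 3) *
    D.exLine (D.θ 4) (D.θ 5) * D.exLine (D.θ 6) (D.θ 7)
  have hWa : Wa.IsHomogeneous 4 :=
    (((D.exLine_hom _ _).mul (D.exLine_hom _ _)).mul (D.exLine_hom _ _)).mul (D.exLine_hom _ _)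
  have hWa0 : ∀ j, j ≠ 8 → eval (ofR (D.P j)) Wa = 0 := by
    intro j hj
    simp only [Wa, map_mul]
    fin_cases j
    · exact mul_eq_zero_of_left (mul_eq_zero_of_left
        (mul_eq_zero_of_left (D.exLine_left 0 1) _) _) _
    · exact mul_eq_zero_of_left (mul_eq_zero_of_left
        (mul_eq_zero_of_left (D.exLine_right 0 1) _) _) _
    · exact mul_eq_zero_of_left (mul_eq_zero_of_left
        (mul_eq_zero_of_right _ (D.exLine_left 2 3)) _) _
    · exact mul_eq_zero_of_left (mul_eq_zero_of_left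
        (mul_eq_zero_of_right _ (D.exLine_right 2 3)) _) _
    · exact mul_eq_zero_of_left (mul_eq_zero_of_right _ (D.exLine_left 4 5)) _
    · exact mul_eq_zero_of_left (mul_eq_zero_of_right _ (D.exLine_right 4 5)) _
    · exact mul_eq_zero_of_right _ (D.exLine_left 6 7)
    · exact mul_eq_zero_of_right _ (D.exLine_right 6 7)
    · exact absurd rfl hj
  have hWa8 : eval (ofR (D.P 8)) Wa ≠ 0 := by
    simp only [Wa, map_mul]
    exact mul_ne_zero (mul_ne_zero (mul_ne_zero (D.exLine_ne (by decide) (by decide))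
      (D.exLine_ne (by decide) (by decide))) (D.exLine_ne (by decide) (by decide)))
      (D.exLine_ne (by decide) (by decide))
  set ψ0 := eval (zp (D.t 0)) D.ψ with hψ0
  set ψ1 := eval (zp (D.t 1)) D.ψ with hψ1
  set B : ℝ := (1 + ‖D.t 1 - D.t 0‖ / (D.t 0).im) ^ 19 with hB
  have hB0 : 0 ≤ B := by have := D.t_pos 0; rw [hB]; positivity
  have hψ0n : 0 < ‖ψ0‖ := norm_pos_iff.2 (D.ψ_z 0)
  have hψ1n : 0 < ‖ψ1‖ := norm_pos_iff.2 (D.ψ_z 1)
  set y : ℝ := ‖ψ0‖ / ‖ψ1‖ with hy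
  have hy0 : 0 < y := by positivity
  set M : ℝ := 1 + B * (y ^ 2 + y ^ 3) with hM
  have hM1 : 1 ≤ M := le_add_of_nonneg_right (by positivity)
  let k1 : ℂ := (1 - eval (zp (D.t 0)) Wa) / ψ0
  have ht : ∀ i, i ≠ 0 → eval (zp (D.t i)) D.ψ * (D.t i - D.t 0) ≠ 0 := fun i hi =>
    mul_ne_zero (D.ψ_z i) (sub_ne_zero.2 fun e => hi (D.t_inj e))
  obtain ⟨μ, hμ1, hμ2⟩ := exFam_mu (A1 := eval (zp (D.t 1)) Wa + eval (zp (D.t 1)) D.ψ * k1)
    (A2 := eval (zp (D.t 2)) Wa + eval (zp (D.t 2)) D.ψ * k1) (ht 1 (by decide)) (ht 2 (by decide))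
    (zero_le_one.trans hM1)
  let k2 : ℂ := ((1 - eval (D.e 2) Wa) / eval (D.e 2) D.ψ -
    (μ * (D.e 2 0 - D.t 0 * D.e 2 1) + k1 * D.e 2 1)) / D.e 2 2
  let W : CP := Wa + D.ψ * (C μ * (X 0 - C (D.t 0) * X 1) + C k1 * X 1 + C k2 * X 2)
  have hW : W.IsHomogeneous 4 :=
    hWa.add (D.ψ_hom.mul (((((isHomogeneous_X ℂ 0).sub ((isHomogeneous_X ℂ 1).C_mul _)).C_mul _).add
      ((isHomogeneous_X ℂ 1).C_mul _)).add ((isHomogeneous_X ℂ 2).C_mul _)))
  have hWP : ∀ j, eval (ofR (D.P j)) W = eval (ofR (D.P j)) Wa := by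
    intro j
    simp only [W, map_add, map_mul, D.ψ_P, zero_mul, add_zero]
  have hWz : ∀ t, eval (zp t) W = eval (zp t) Wa + eval (zp t) D.ψ * k1 +
      μ * (eval (zp t) D.ψ * (t - D.t 0)) := by
    intro t
    simp only [W, map_add, map_mul, map_sub, eval_C, eval_X]
    simp [zp]
    ring
  have hW0 : eval (zp (D.t 0)) W = 1 := by
    rw [hWz, sub_self, ← hψ0]
    have : ψ0 ≠ 0 := D.ψ_z 0
    have h2 : ψ0 * k1 = 1 - eval (zp (D.t 0)) Wa := mul_div_cancel₀ _ this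
    rw [h2]
    ring
  have hW1 : M ≤ ‖eval (zp (D.t 1)) W‖ := by rw [hWz]; exact hμ1
  have hW2 : eval (zp (D.t 2)) W ≠ 0 := by rw [hWz]; exact hμ2
  have hWe : eval (D.e 2) W = 1 := by
    have h1 : eval (D.e 2) D.ψ ≠ 0 := D.ψe
    have h2 := D.ze
    simp only [W, map_add, map_mul, map_sub, eval_C, eval_X, k2]
    field_simp
    ring
  obtain ⟨ρ, hρ, hcb⟩ := D.exists_cb
  set c : ℝ := ‖ρ 8‖ * ‖eval (ofR (D.P 8)) W‖ with hc
  have hc0 : 0 < c := mul_pos (norm_pos_iff.2 (hρ 8)) (norm_pos_iff.2 (by rw [hWP]; exact hWa8))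
  set s : ℝ := ∑ j, ‖ρ j‖ with hs
  have hs0 : 0 ≤ s := Finset.sum_nonneg fun _ _ => norm_nonneg _
  refine ⟨{ D with
    W := W
    W_hom := hW
    WP := fun j hj => by rw [hWP]; exact hWa0 j hj
    Wz := ?_
    We := by rw [hWe]; exact one_ne_zero
    η := (c / (s + 1)) ^ 2
    η_pos := by positivity
    ρ := ρ
    cb := hcb
    η_lt := ?_
    rat := ?_ }⟩
  · intro i
    fin_cases i
    · exact fun h => one_ne_zero (hW0.symm.trans h)
    · exact norm_pos_iff.1 (lt_of_lt_of_le (zero_lt_one.trans_le hM1) hW1)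
    · exact hW2
  · rw [Real.sqrt_sq (by positivity), ← hs, ← hc, div_mul_eq_mul_div, div_lt_iff₀ (by positivity)]
    nlinarith
  · intro p hp hd w hw1 hw2 κ hκ h
    have h1 := exFam_poly_le (t1 := D.t 1) (D.t_pos 0) p hp hd
    have h2 : p.eval (D.t 0) = κ * ψ0 ^ (w + 1) := by rw [h 0, hW0, one_pow, mul_one]
    have h3 : p.eval (D.t 1) = κ * eval (zp (D.t 1)) W ^ w * ψ1 ^ (w + 1) := h 1
    rw [h2, h3, ← hB] at h1
    simp only [norm_mul, norm_pow] at h1
    have hκ0 : 0 < ‖κ‖ := norm_pos_iff.2 hκ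
    have h4 : M ≤ ‖eval (zp (D.t 1)) W‖ ^ w :=
      hW1.trans (le_self_pow₀ (hM1.trans hW1) (by omega))
    have h5 : ‖ψ0‖ = y * ‖ψ1‖ := by rw [hy]; field_simp
    rw [h5, mul_pow] at h1
    have h6 : ‖κ‖ * ‖ψ1‖ ^ (w + 1) * M ≤ ‖κ‖ * ‖ψ1‖ ^ (w + 1) * (B * y ^ (w + 1)) := by
      calc _ ≤ ‖κ‖ * ‖ψ1‖ ^ (w + 1) * ‖eval (zp (D.t 1)) W‖ ^ w :=
            mul_le_mul_of_nonneg_left h4 (by positivity)
        _ = ‖κ‖ * ‖eval (zp (D.t 1)) W‖ ^ w * ‖ψ1‖ ^ (w + 1) := by ring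
        _ ≤ _ := h1
        _ = _ := by ring
    have h7 : M ≤ B * y ^ (w + 1) := le_of_mul_le_mul_left h6 (by positivity)
    have h8 : 0 ≤ B * y ^ 2 := by positivity
    have h9 : 0 ≤ B * y ^ 3 := by positivity
    interval_cases w
    · norm_num at h7; linarith
    · norm_num at h7; linarith

end Pool.Agent.MP_42957e_ag

end
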