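import Pool.Agent.Mg.F42957e.Gb5e2d5
import Pool.Agent.Mg.F42957e.G0ef202
import Pool.Agent.Mg.F42957e.Gf0853e

section

set_option autoImplicit false

namespace Pool.Agent.MP_42957e_ag

open MvPolynomial Filter Topology Asymptotics
open scoped ComplexConjugate

/-- `p` is a singular point of the member `s` of the family -/
def NSQ (A : Fam) (s : ℝ) (p : V) : Prop := eval p (A.F s) = 0 ∧ ∀ e, dv (A.F s) p e = 0

theorem NSQ.smul {A : Fam} {s : ℝ} {p : V} (h : NSQ A s p) (c : ℂ) : NSQ A s (c • p) :=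
  ⟨by rw [eval_smul_hom (A.F_hom s), h.1, mul_zero],
    fun e => by rw [dv_smul_hom (A.F_hom s), h.2, mul_zero]⟩

theorem NSQ.star {A : Fam} {s : ℝ} {p : V} (h : NSQ A s p) : NSQ A s (star p) := by
  refine ⟨by rw [eval_star, A.cj_F, h.1, map_zero], fun e => ?_⟩
  rw [← A.cj_F, dv_cj, star_star, h.2, map_zero]

theorem NS_dvF (A : Fam) (s : ℝ) (p e : V) : dv (A.F s) p e =
    e 2 * eval p A.φ * eval p A.ψ + p 2 * dv A.φ p e * eval p A.ψ +
      p 2 * eval p A.φ * dv A.ψ p e + s * dv A.G p e +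
      (s : ℂ) ^ 2 * (e 2 * eval p A.R + p 2 * dv A.R p e) := by
  simp only [Fam.F, dv_add, dv_mul, dv_X, dv_C, map_mul, eval_X, eval_C]
  ring

theorem NS_dvφt (A : Fam) (s : ℝ) (p e : V) : dv (A.φt s) p e =
    e 2 * eval p A.φ + p 2 * dv A.φ p e + s * dv A.W p e := by
  simp only [Fam.φt, dv_add, dv_mul, dv_X, dv_C, eval_X, eval_C]
  ring

theorem NS_dvψt (A : Fam) (s : ℝ) (p e : V) : dv (A.ψt s) p e =
    e 2 * eval p A.ψ + p 2 * dv A.ψ p e + s * dv (cj A.W) p e := by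
  simp only [Fam.ψt, dv_add, dv_mul, dv_X, dv_C, eval_X, eval_C]
  ring

theorem NS_dvXF (A : Fam) {s : ℝ} {p : V} (h : NSQ A s p) (e : V) :
    dv (A.φt s) p e * eval p (A.ψt s) + eval p (A.φt s) * dv (A.ψt s) p e =
      (s : ℂ) ^ 2 * dv A.T p e := by
  have h1 := congrArg (fun q => dv q p e) (A.X_mul_F s)
  simp only [dv_mul, dv_sub, dv_X, dv_C, eval_X, eval_C, h.1, h.2] at h1
  linear_combination -h1

section Local

variable {ι : Type*} {l : Filter ι} {s : ι → ℝ} {p : ι → V}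

theorem NS_s (hs : Tendsto s l (𝓝[>] 0)) : Tendsto (fun i => (s i : ℂ)) l (𝓝 0) := by
  have := (Complex.continuous_ofReal.tendsto 0).comp (tendsto_nhds_of_tendsto_nhdsWithin hs)
  simp only [Function.comp_def, Complex.ofReal_zero] at this
  exact this

theorem NS_s_ne (hs : Tendsto s l (𝓝[>] 0)) : ∀ᶠ i in l, (s i : ℂ) ≠ 0 := by
  filter_upwards [hs.eventually self_mem_nhdsWithin] with i hi
  have : 0 < s i := hi
  exact_mod_cast this.ne'

theorem NS_co {p0 : V} (hp : Tendsto p l (𝓝 p0)) (k : Fin 3) :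
    Tendsto (fun i => p i k) l (𝓝 (p0 k)) :=
  tendsto_pi_nhds.1 hp k

theorem NS_P (A : Fam) [l.NeBot] (j : Fin 9) (hs : Tendsto s l (𝓝[>] 0))
    (hp : Tendsto p l (𝓝 (ofR (A.P j)))) (hQ : ∀ᶠ i in l, NSQ A (s i) (p i)) : False := by
  have hs0 := NS_s hs
  have h2 : ofR (A.P j) 2 = 1 := by simp [A.P2]
  have hinj : ∀ x : V, (ContinuousLinearMap.proj (R := ℂ) (φ := fun _ : Fin 3 => ℂ) 2) x = 0 →
      dvL A.φ (ofR (A.P j)) x = 0 → dvL A.ψ (ofR (A.P j)) x = 0 → x = 0 :=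
    fun x h0 h1 h2 => A.inj_P j x h0 (by simpa using h1) (by simpa using h2)
  obtain ⟨f, hf0, hf1, hf2⟩ := exists_dual _ _ _ hinj 0 1 0
  obtain ⟨g, hg0, hg1, hg2⟩ := exists_dual _ _ _ hinj 0 0 1
  simp only [ContinuousLinearMap.proj_apply, dvL_apply] at hf0 hf1 hf2 hg0 hg1 hg2
  have tφ : ∀ e : V, e 2 = 0 → Tendsto (fun i => dv (A.φt (s i)) (p i) e) l
      (𝓝 (dv A.φ (ofR (A.P j)) e)) := fun e he => by
    have := (((tendsto_eval hp A.φ).const_mul (e 2)).add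
      ((NS_co hp 2).mul (tendsto_dv hp A.φ e))).add (hs0.mul (tendsto_dv hp A.W e))
    simp only [he, h2, zero_mul, one_mul, zero_add, add_zero] at this
    refine this.congr fun i => ?_
    rw [NS_dvφt, he]; ring
  have tψ : ∀ e : V, e 2 = 0 → Tendsto (fun i => dv (A.ψt (s i)) (p i) e) l
      (𝓝 (dv A.ψ (ofR (A.P j)) e)) := fun e he => by
    have := (((tendsto_eval hp A.ψ).const_mul (e 2)).add
      ((NS_co hp 2).mul (tendsto_dv hp A.ψ e))).add (hs0.mul (tendsto_dv hp (cj A.W) e))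
    simp only [he, h2, zero_mul, one_mul, zero_add, add_zero] at this
    refine this.congr fun i => ?_
    rw [NS_dvψt, he]; ring
  have key : ∀ e : V, ∀ᶠ i in l,
      dv (A.ψt (s i)) (p i) e * (eval (p i) (A.φt (s i)) / (s i : ℂ) ^ 2) +
      dv (A.φt (s i)) (p i) e * (eval (p i) (A.ψt (s i)) / (s i : ℂ) ^ 2) =
        dv A.T (p i) e := fun e => by
    filter_upwards [hQ, NS_s_ne hs] with i hi hn
    have := NS_dvXF A hi e
    field_simp
    linear_combination this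
  obtain ⟨a0, b0, ha, hb⟩ := tendsto_solve (tψ f hf0) (tφ f hf0) (tψ g hg0) (tφ g hg0)
    (tendsto_dv hp A.T f) (tendsto_dv hp A.T g) (by rw [hf1, hf2, hg1, hg2]; norm_num)
    (key f) (key g)
  have h3 := ((hs0.pow 2).mul ha).mul hb
  have h4 : Tendsto (fun i => eval (p i) A.T) l (𝓝 (0 ^ 2 * a0 * b0)) := by
    refine h3.congr' ?_
    filter_upwards [hQ, NS_s_ne hs] with i hi hn
    have := A.mul_eval_F (s i) (p i)
    rw [hi.1] at this
    field_simp
    linear_combination -this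
  have h5 := tendsto_nhds_unique h4 (tendsto_eval hp A.T)
  rw [A.T_P] at h5
  have h6 : (A.η : ℂ) = 0 := by rw [← h5]; ring
  exact A.η_pos.ne' (by exact_mod_cast h6)

/-- the right hand side of the linear systems -/
theorem NS_rhs (A : Fam) {p0 : V} (hs : Tendsto s l (𝓝[>] 0)) (hp : Tendsto p l (𝓝 p0)) (e : V) :
    Tendsto (fun i => -dv A.G (p i) e -
      (s i : ℂ) * (e 2 * eval (p i) A.R + p i 2 * dv A.R (p i) e)) l
      (𝓝 (-dv A.G p0 e - 0 * (e 2 * eval p0 A.R + p0 2 * dv A.R p0 e))) :=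
  (tendsto_dv hp A.G e).neg.sub ((NS_s hs).mul (((tendsto_eval hp A.R).const_mul (e 2)).add
    ((NS_co hp 2).mul (tendsto_dv hp A.R e))))

/-- if `z φ / s` tends to zero then `G` vanishes in the limit -/
theorem NS_G (A : Fam) [l.NeBot] {p0 : V} (hs : Tendsto s l (𝓝[>] 0)) (hp : Tendsto p l (𝓝 p0))
    (hQ : ∀ᶠ i in l, NSQ A (s i) (p i))
    (h : Tendsto (fun i => p i 2 * eval (p i) A.φ / (s i : ℂ)) l (𝓝 0)) : eval p0 A.G = 0 := by
  have h3 := (h.mul (tendsto_eval hp A.ψ)).neg.sub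
    ((NS_s hs).mul ((NS_co hp 2).mul (tendsto_eval hp A.R)))
  have h4 : Tendsto (fun i => eval (p i) A.G) l
      (𝓝 (-(0 * eval p0 A.ψ) - 0 * (p0 2 * eval p0 A.R))) := by
    refine h3.congr' ?_
    filter_upwards [hQ, NS_s_ne hs] with i hi hn
    have := A.eval_F (s i) (p i)
    rw [hi.1] at this
    field_simp
    linear_combination this
  rw [← tendsto_nhds_unique h4 (tendsto_eval hp A.G)]
  ring

theorem NS_z (A : Fam) [l.NeBot] (j : Fin 3) (hs : Tendsto s l (𝓝[>] 0))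
    (hp : Tendsto p l (𝓝 (zp (A.t j)))) (hQ : ∀ᶠ i in l, NSQ A (s i) (p i)) : False := by
  have hs0 := NS_s hs
  obtain ⟨f, g, hf0, hf1, hg0, hg1⟩ := A.dual_z j
  have tα : ∀ e : V, Tendsto (fun i => dv A.φ (p i) e * eval (p i) A.ψ +
      eval (p i) A.φ * dv A.ψ (p i) e) l _ := fun e =>
    ((tendsto_dv hp A.φ e).mul (tendsto_eval hp A.ψ)).add
      ((tendsto_eval hp A.φ).mul (tendsto_dv hp A.ψ e))
  have tβ : ∀ e : V, Tendsto (fun i => e 2 * eval (p i) A.ψ) l _ := fun e =>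
    (tendsto_eval hp A.ψ).const_mul (e 2)
  have key : ∀ e : V, ∀ᶠ i in l,
      (dv A.φ (p i) e * eval (p i) A.ψ + eval (p i) A.φ * dv A.ψ (p i) e) * (p i 2 / (s i : ℂ)) +
      (e 2 * eval (p i) A.ψ) * (eval (p i) A.φ / (s i : ℂ)) =
      -dv A.G (p i) e - (s i : ℂ) * (e 2 * eval (p i) A.R + p i 2 * dv A.R (p i) e) := fun e => by
    filter_upwards [hQ, NS_s_ne hs] with i hi hn
    have := NS_dvF A (s i) (p i) e
    rw [hi.2] at this
    field_simp
    linear_combination -this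
  obtain ⟨a0, b0, ha, -⟩ := tendsto_solve (tα f) (tβ f) (tα g) (tβ g)
    (NS_rhs A hs hp f) (NS_rhs A hs hp g)
    (by
      rw [hf0, hf1, hg0, hg1, A.φ_z j]
      have := A.ψ_z j
      simpa using this)
    (key f) (key g)
  have h3 := ha.mul (tendsto_eval hp A.φ)
  rw [A.φ_z j, mul_zero] at h3
  have h4 := NS_G A hs hp hQ (h3.congr fun i => by ring)
  rw [A.eval_G, A.φ_z j, zero_mul, zero_add] at h4
  exact mul_ne_zero (A.ψ_z j) (A.Wz j) h4

theorem NS_evφ (A : Fam) (q : V) : eval q A.φ =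
    eval q (lf (A.a 0)) * eval q (lf (A.a 1)) * eval q (lf (A.a 2)) +
      eval q (lf (A.a 0)) ^ 3 - eval q (lf (A.a 1)) ^ 3 := by
  simp only [Data.φ, cub, map_sub, map_add, map_mul, map_pow]

theorem NS_dv0 (A : Fam) (q : V) : dv A.φ q (A.e 0) =
    eval q (lf (A.a 1)) * eval q (lf (A.a 2)) + 3 * eval q (lf (A.a 0)) ^ 2 := by
  simp only [Data.φ, cub, dv_sub, dv_add, dv_mul, dv_pow, dv_lf, A.dual, map_mul]
  simp

theorem NS_dv1 (A : Fam) (q : V) : dv A.φ q (A.e 1) =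
    eval q (lf (A.a 0)) * eval q (lf (A.a 2)) - 3 * eval q (lf (A.a 1)) ^ 2 := by
  simp only [Data.φ, cub, dv_sub, dv_add, dv_mul, dv_pow, dv_lf, A.dual, map_mul]
  simp

theorem NS_e (A : Fam) [l.NeBot] (hs : Tendsto s l (𝓝[>] 0))
    (hp : Tendsto p l (𝓝 (A.e 2))) (hQ : ∀ᶠ i in l, NSQ A (s i) (p i)) : False := by
  have hX : Tendsto (fun i => eval (p i) (lf (A.a 0))) l (𝓝 0) := by
    have := tendsto_eval hp (lf (A.a 0))
    rwa [A.dual, if_neg (by decide)] at this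
  have hY : Tendsto (fun i => eval (p i) (lf (A.a 1))) l (𝓝 0) := by
    have := tendsto_eval hp (lf (A.a 1))
    rwa [A.dual, if_neg (by decide)] at this
  have hZ : Tendsto (fun i => eval (p i) (lf (A.a 2))) l (𝓝 1) := by
    have := tendsto_eval hp (lf (A.a 2))
    rwa [A.dual, if_pos rfl] at this
  have hκ : ∀ e : V, Tendsto (fun i => e 2 * eval (p i) A.ψ + p i 2 * dv A.ψ (p i) e) l _ :=
    fun e => ((tendsto_eval hp A.ψ).const_mul (e 2)).add ((NS_co hp 2).mul (tendsto_dv hp A.ψ e))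
  have hw := (NS_co hp 2).mul (tendsto_eval hp A.ψ)
  have hu := (hY.mul hZ).add (hX.pow 2)
  have hα := (hu.mul (hκ (A.e 0))).add ((hX.const_mul 3).mul hw)
  have hβ := ((hY.pow 2).mul (hκ (A.e 0))).neg.add (hZ.mul hw)
  have hγ := (hu.mul (hκ (A.e 1))).add (hZ.mul hw)
  have hδ := ((hY.pow 2).mul (hκ (A.e 1))).neg.sub ((hY.const_mul 3).mul hw)
  obtain ⟨a0, b0, ha, hb⟩ := tendsto_solve (a := fun i => eval (p i) (lf (A.a 0)) / (s i : ℂ))
    (b := fun i => eval (p i) (lf (A.a 1)) / (s i : ℂ)) hα hβ hγ hδ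
    (NS_rhs A hs hp (A.e 0)) (NS_rhs A hs hp (A.e 1))
    (by
      have := mul_ne_zero A.ze A.ψe
      simpa using this)
    (by
      filter_upwards [hQ, NS_s_ne hs] with i hi hn
      have := NS_dvF A (s i) (p i) (A.e 0)
      rw [hi.2, NS_dv0, NS_evφ] at this
      field_simp
      linear_combination -this)
    (by
      filter_upwards [hQ, NS_s_ne hs] with i hi hn
      have := NS_dvF A (s i) (p i) (A.e 1)
      rw [hi.2, NS_dv1, NS_evφ] at this
      field_simp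
      linear_combination -this)
  have h3 := (NS_co hp 2).mul ((ha.mul hu).sub (hb.mul (hY.pow 2)))
  have h4 := NS_G A hs hp hQ (by
    convert h3 using 2
    · rw [NS_evφ]; ring
    · ring)
  rw [A.eval_G, A.φ_e, zero_mul, zero_add] at h4
  exact mul_ne_zero A.ψe A.We h4

theorem NS_resc {A : Fam} {p0 q : V} {c : ℂ} (h0 : p0 ≠ 0) (hc : p0 = c • q)
    (hp : Tendsto p l (𝓝 p0)) (hQ : ∀ᶠ i in l, NSQ A (s i) (p i)) :
    Tendsto (fun i => c⁻¹ • p i) l (𝓝 q) ∧ ∀ᶠ i in l, NSQ A (s i) (c⁻¹ • p i) := by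
  have hc0 : c ≠ 0 := by rintro rfl; exact h0 (by simpa using hc)
  refine ⟨?_, hQ.mono fun i hi => hi.smul _⟩
  have := hp.const_smul c⁻¹
  rwa [hc, smul_smul, inv_mul_cancel₀ hc0, one_smul] at this

theorem NS_lim (A : Fam) [l.NeBot] {p0 : V} (hs : Tendsto s l (𝓝[>] 0))
    (hp : Tendsto p l (𝓝 p0)) (hQ : ∀ᶠ i in l, NSQ A (s i) (p i)) (e : V) :
    e 2 * eval p0 A.φ * eval p0 A.ψ + p0 2 * dv A.φ p0 e * eval p0 A.ψ +
      p0 2 * eval p0 A.φ * dv A.ψ p0 e = 0 := by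
  have h1 := ((((tendsto_eval hp A.φ).const_mul (e 2)).mul (tendsto_eval hp A.ψ)).add
    (((NS_co hp 2).mul (tendsto_dv hp A.φ e)).mul (tendsto_eval hp A.ψ))).add
    (((NS_co hp 2).mul (tendsto_eval hp A.φ)).mul (tendsto_dv hp A.ψ e))
  have h2 := (NS_s hs).mul (NS_rhs A hs hp e)
  rw [zero_mul] at h2
  refine tendsto_nhds_unique h1 (h2.congr' ?_)
  filter_upwards [hQ] with i hi
  have := NS_dvF A (s i) (p i) e
  rw [hi.2] at this
  linear_combination this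

theorem NS_phi (A : Fam) [l.NeBot] {p0 : V} (h0 : p0 ≠ 0) (hφ : eval p0 A.φ = 0)
    (hs : Tendsto s l (𝓝[>] 0)) (hp : Tendsto p l (𝓝 p0))
    (hQ : ∀ᶠ i in l, NSQ A (s i) (p i)) : False := by
  by_cases hψ : eval p0 A.ψ = 0
  · obtain ⟨j, c, hc⟩ := A.common hφ hψ
    obtain ⟨h1, h2⟩ := NS_resc h0 hc hp hQ
    exact NS_P A j hs h1 h2
  by_cases hz : p0 2 = 0
  · obtain ⟨j, c, hc⟩ := A.onL hφ hz
    obtain ⟨h1, h2⟩ := NS_resc h0 hc hp hQ
    exact NS_z A j hs h1 h2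
  obtain ⟨c, hc⟩ := A.sing_φ (p := p0) fun e => by
    have := NS_lim A hs hp hQ e
    rw [hφ] at this
    have h1 : p0 2 * dv A.φ p0 e * eval p0 A.ψ = 0 := by linear_combination this
    simpa [hz, hψ] using h1
  obtain ⟨h1, h2⟩ := NS_resc h0 hc hp hQ
  exact NS_e A hs h1 h2

theorem NS_local (A : Fam) [l.NeBot] {p0 : V} (h0 : p0 ≠ 0)
    (hs : Tendsto s l (𝓝[>] 0)) (hp : Tendsto p l (𝓝 p0))
    (hQ : ∀ᶠ i in l, NSQ A (s i) (p i)) : False := by
  by_cases hφ : eval p0 A.φ = 0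
  · exact NS_phi A h0 hφ hs hp hQ
  by_cases hψ : eval p0 A.ψ = 0
  · refine NS_phi A (p := fun i => star (p i)) (p0 := star p0) (star_ne_zero.2 h0) ?_ hs hp.star
      (hQ.mono fun i hi => hi.star)
    rw [eval_star]
    exact (map_eq_zero _).2 hψ
  have h1 := NS_lim A hs hp hQ p0
  rw [euler A.φ_hom, euler A.ψ_hom] at h1
  have h2 : p0 2 * (eval p0 A.φ * eval p0 A.ψ) = 0 := by
    push_cast at h1
    linear_combination h1 / 7
  have hz : p0 2 = 0 := by simpa [hφ, hψ] using h2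
  have h3 := NS_lim A hs hp hQ (Pi.single 2 1)
  simp [hz, hφ, hψ] at h3

end Local

theorem Fam.ns (A : Fam) : ∀ᶠ s in 𝓝[>] (0 : ℝ), NSg (A.F s) := by
  have := eventually_forall_of_local (NSQ A) (fun s p c _ h => h.smul c)
    fun l _ p0 h0 hs hp hQ => NS_local A h0 hs hp hQ
  filter_upwards [this] with s hs p hp hF
  by_contra hn
  push Not at hn
  exact hs p hp ⟨hF, hn⟩

end Pool.Agent.MP_42957e_ag

end

section

set_option autoImplicit false

namespace Pool.Agent.MP_42957e_ag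

open MvPolynomial Filter Topology Asymptotics
open scoped ComplexConjugate

theorem oval_real (A : Fam) (s : ℝ) (N : Fin 3 → ℝ) (h : (eval (ofR N) (A.F s)).re = 0) :
    eval (ofR N) (A.F s) = 0 := by
  have h1 := eval_cj_ofR (A.F s) N
  rw [A.cj_F] at h1
  exact Complex.ext h (Complex.conj_eq_iff_im.1 h1.symm)

theorem oval_dir (A : Fam) (j : Fin 9) : ∃ f : Fin 3 → ℝ, f 2 = 0 ∧
    dv A.φ (ofR (A.P j)) (ofR f) = -eval (ofR (A.P j)) A.W := by
  obtain ⟨f, h0, h1, h2⟩ := exists_dual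
    (ContinuousLinearMap.proj (R := ℂ) (φ := fun _ : Fin 3 => ℂ) 2) (dvL A.φ (ofR (A.P j)))
    (dvL A.ψ (ofR (A.P j)))
    (fun x e0 e1 e2 => A.inj_P j x e0 (by rwa [dvL_apply] at e1) (by rwa [dvL_apply] at e2))
    0 (-eval (ofR (A.P j)) A.W) (conj (-eval (ofR (A.P j)) A.W))
  rw [dvL_apply] at h1 h2
  have h0' : f 2 = 0 := h0
  have h3 : dv A.φ (ofR (A.P j)) (star f) = -eval (ofR (A.P j)) A.W := by
    rw [dv_cj, star_ofR] at h2
    exact (starRingEnd ℂ).injective h2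
  have h4 : dv A.ψ (ofR (A.P j)) (star f) = conj (-eval (ofR (A.P j)) A.W) := by
    rw [dv_cj, star_ofR, star_star, h1]
  have h5 : star f - f = 0 := A.inj_P j _ (by simp [h0'])
    (by rw [dv_sub_right, h1, h3, sub_self]) (by rw [dv_sub_right, h2, h4, sub_self])
  have h6 : ofR (fun i => (f i).re) = f := funext fun i =>
    Complex.conj_eq_iff_re.1 (congrFun (sub_eq_zero.1 h5) i)
  exact ⟨fun i => (f i).re, by simp [h0'], by rw [h6, h1]⟩

theorem oval_neg (A : Fam) (j : Fin 9) {ρ : ℝ} (hρ : 0 < ρ) : ∀ᶠ s in 𝓝[>] (0 : ℝ),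
    ∃ N : Fin 3 → ℝ, N 2 = 1 ∧ dist N (A.P j) ≤ ρ ∧ (eval (ofR N) (A.F s)).re < 0 := by
  obtain ⟨f, h0, h1⟩ := oval_dir A j
  have hq : Tendsto (fun s : ℝ => A.P j + s • f) (𝓝[>] 0) (𝓝 (A.P j)) := by
    refine Tendsto.mono_left (Continuous.tendsto' (by fun_prop) _ _ (by simp)) nhdsWithin_le_nhds
  have hq' : Tendsto (fun s : ℝ => ofR (A.P j + s • f)) (𝓝[>] 0) (𝓝 (ofR (A.P j))) :=
    (continuous_ofR.tendsto _).comp hq
  have e1 : ∀ s : ℝ, ofR (A.P j + s • f) = ofR (A.P j) + (s : ℂ) • ofR f := fun s => by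
    funext i
    simp
  have e2 : ∀ s : ℝ, (A.P j + s • f) 2 = 1 := fun s => by simp [h0, A.P2]
  have hd : HasDerivAt (fun t : ℂ => ofR (A.P j) + t • ofR f) (ofR f) 0 := by
    simpa using ((hasDerivAt_id (0 : ℂ)).smul_const (ofR f)).const_add (ofR (A.P j))
  have hs : Tendsto (fun s : ℝ => (s : ℂ)) (𝓝[>] 0) (𝓝[≠] 0) :=
    tendsto_nhdsWithin_iff.2 ⟨(Complex.continuous_ofReal.tendsto' 0 0 rfl).mono_left
      nhdsWithin_le_nhds, eventually_mem_nhdsWithin.mono fun s hs =>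
        Complex.ofReal_ne_zero.2 (ne_of_gt hs)⟩
  have h2 := (hasDerivAt_iff_tendsto_slope_zero.1 (hasDerivAt_eval A.φ hd)).comp hs
  simp only [Function.comp_def, zero_smul, add_zero, zero_add, A.φ_P, sub_zero, h1, ← e1,
    smul_eq_mul] at h2
  have h3 := h2.add (tendsto_eval hq' A.W)
  rw [neg_add_cancel] at h3
  have h4 := (Complex.continuous_re.tendsto _).comp ((h3.mul
    ((Complex.continuous_conj.tendsto _).comp h3)).sub (tendsto_eval hq' A.T))
  rw [zero_mul, zero_sub, A.T_P, Complex.neg_re, Complex.ofReal_re] at h4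
  filter_upwards [h4.eventually (gt_mem_nhds (neg_lt_zero.2 A.η_pos)), self_mem_nhdsWithin,
    hq.eventually (Metric.closedBall_mem_nhds _ hρ)] with s h5 h6 h7
  refine ⟨_, e2 s, h7, ?_⟩
  have h8 : (s : ℂ) ≠ 0 := Complex.ofReal_ne_zero.2 (ne_of_gt h6)
  obtain ⟨N, hN⟩ : ∃ N, N = A.P j + s • f := ⟨_, rfl⟩
  have hN2 : ofR N 2 = 1 := by rw [ofR_apply, hN, e2, Complex.ofReal_one]
  simp only [Function.comp_def, ← hN] at h5 ⊢
  have h9 := A.mul_eval_F s (ofR N)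
  rw [A.eval_φt, A.eval_ψt, hN2, eval_cj_ofR, eval_cj_ofR] at h9
  have h10 : eval (ofR N) (A.F s) = ((s ^ 2 : ℝ) : ℂ) *
      (((s : ℂ)⁻¹ * eval (ofR N) A.φ + eval (ofR N) A.W) *
        conj ((s : ℂ)⁻¹ * eval (ofR N) A.φ + eval (ofR N) A.W) - eval (ofR N) A.T) := by
    rw [map_add, map_mul, map_inv₀, Complex.conj_ofReal, ← one_mul (eval (ofR N) (A.F s)), h9]
    push_cast
    field_simp
  rw [h10, Complex.re_ofReal_mul]
  exact mul_neg_of_pos_of_neg (pow_pos h6 2) h5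

theorem Fam.oval (A : Fam) (j : Fin 9) : ∃ ρ : ℝ, 0 < ρ ∧
    (∀ N : Fin 3 → ℝ, N 2 = 1 → dist N (A.P j) ≤ ρ → eval (ofR N) A.φ = 0 → N = A.P j) ∧
    ∀ᶠ s in 𝓝[>] (0 : ℝ),
      (∀ N : Fin 3 → ℝ, N 2 = 1 → dist N (A.P j) = ρ → eval (ofR N) (A.F s) ≠ 0) ∧
      ∃ N : Fin 3 → ℝ, N 2 = 1 ∧ dist N (A.P j) ≤ ρ ∧ eval (ofR N) (A.F s) = 0 := by
  have h0 : ∀ᶠ ρ in 𝓝[>] (0 : ℝ), ∀ k, A.P k ≠ A.P j → ρ < dist (A.P k) (A.P j) := by
    refine eventually_all.2 fun k => ?_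
    by_cases h : A.P k = A.P j
    · exact Eventually.of_forall fun _ h' => absurd h h'
    · exact ((eventually_lt_nhds (dist_pos.2 h)).filter_mono nhdsWithin_le_nhds).mono
        fun _ h1 _ => h1
  obtain ⟨ρ, h1, hρ⟩ := (h0.and self_mem_nhdsWithin).exists
  have hρ' : 0 < ρ := hρ
  have h2 : ∀ N : Fin 3 → ℝ, N 2 = 1 → dist N (A.P j) ≤ ρ → eval (ofR N) A.φ = 0 →
      N = A.P j := fun N hN hd h => by
    obtain ⟨k, c, hc⟩ := A.common h (by rw [eval_cj_ofR, h, map_zero])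
    have hc1 : c = 1 := by simpa [hN, A.P2] using (congrFun hc 2).symm
    have e : N = A.P k := funext fun i => by simpa [hc1] using congrFun hc i
    by_contra hne
    rw [e] at hne hd
    exact (h1 k hne).not_ge hd
  have hc : Continuous fun x : ℝ × (Fin 3 → ℝ) => (eval (ofR x.2) (A.F x.1)).re := by
    have := Complex.continuous_re.comp (A.continuous_F.comp
      (continuous_fst.prodMk (continuous_ofR.comp continuous_snd)))
    simp only [Function.comp_def] at this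
    exact this
  have h3 : ∀ᶠ s in 𝓝 (0 : ℝ), ∀ N ∈ Metric.sphere (A.P j) ρ ∩ {N | N 2 = 1},
      0 < (eval (ofR N) (A.F s)).re := by
    refine ((isCompact_sphere _ _).inter_right (isClosed_eq (continuous_apply 2)
      continuous_const)).eventually_forall_of_forall_eventually fun N hN => ?_
    refine (hc.tendsto (0, N)).eventually (lt_mem_nhds ?_)
    have hN2 : N 2 = 1 := hN.2
    have hne : eval (ofR N) A.φ ≠ 0 := fun h => by
      have := hN.1
      rw [h2 N hN2 (Metric.mem_sphere.1 hN.1).le h, Metric.mem_sphere, dist_self] at this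
      exact hρ'.ne this
    change 0 < (eval (ofR N) (A.F 0)).re
    rw [A.eval_F, eval_cj_ofR, ofR_apply, hN2, Complex.ofReal_one, one_mul, Complex.mul_conj,
      Complex.ofReal_zero, zero_mul, add_zero, zero_pow two_ne_zero, zero_mul, add_zero,
      Complex.ofReal_re]
    exact Complex.normSq_pos.2 hne
  refine ⟨ρ, hρ', h2, ?_⟩
  filter_upwards [nhdsWithin_le_nhds h3, oval_neg A j hρ'] with s h4 ⟨N, hN, hd, h5⟩
  refine ⟨fun M hM hM' h => ?_, ?_⟩
  · have := h4 M ⟨hM', hM⟩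
    rw [h, Complex.zero_re] at this
    exact lt_irrefl _ this
  have hC : Convex ℝ (Metric.closedBall (A.P j) ρ ∩ {N | N 2 = 1}) :=
    (convex_closedBall _ _).inter fun x hx y hy a b _ _ hab => by
      have hx' : x 2 = 1 := hx
      have hy' : y 2 = 1 := hy
      simp [hx', hy', hab]
  have hM : A.P j + Pi.single 0 ρ ∈ Metric.sphere (A.P j) ρ ∩ {N : Fin 3 → ℝ | N 2 = 1} :=
    ⟨by simp [Pi.norm_single, hρ'.le], by simp [A.P2]⟩
  obtain ⟨M, hM1, hM2⟩ := hC.isPreconnected.intermediate_value ⟨hd, hN⟩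
    ⟨Metric.sphere_subset_closedBall hM.1, hM.2⟩
    (hc.comp (continuous_const.prodMk continuous_id : Continuous fun M => (s, M))).continuousOn
    ⟨h5.le, (h4 _ hM).le⟩
  exact ⟨M, hM1.2, hM1.1, oval_real A s M hM2⟩

end Pool.Agent.MP_42957e_ag

end

section

set_option autoImplicit false

namespace Pool.Agent.MP_42957e_ag

open MvPolynomial Filter Topology Asymptotics
open scoped ComplexConjugate

theorem lim_row (D : Data) {d : ℕ} {c : Arr} {a : Fin 6} (h : Supp d a c)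
    (hγ : ∀ i, eval (D.x (D.γ i)) (frm d a c) = 0) (b : Fin 6) : c a b = 0 := by
  refine row_eq_zero D.t_inj D.t_pos (fun i => ?_) b
  have h1 := hγ i
  rw [Data.x, D.xγ, eval_smul_hom (frm_hom h), eval_frm_zp h] at h1
  exact (mul_eq_zero.1 h1).resolve_left (pow_ne_zero _ (D.v_ne i))

theorem lim_shift {d w : ℕ} {c : Arr} (h : Supp d w c) (p : V) :
    eval p (frm d 0 c) = p 2 ^ w * eval p (frm d w c) := by
  rw [frm_shift h, map_mul, map_pow, eval_X]

theorem lim_z (D : Data) {τ : ℂ} (h : ∀ i, τ ≠ D.γ i) : D.x τ 2 ≠ 0 := by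
  rw [Data.x, D.zx]
  exact mul_ne_zero D.ze (Finset.prod_ne_zero_iff.2 fun i _ => sub_ne_zero.2 (h i))

theorem Data.inj_frm (D : Data) {d : ℕ} {c : Arr} (h : Supp d 0 c)
    (h0 : ∀ τ, eval (D.x τ) (frm d 0 c) = 0) : c = 0 := by
  by_contra hc
  obtain ⟨a, b, ha, hb⟩ := exists_min_row h hc
  obtain ⟨κ, hκ, -, -⟩ := D.restr (frm_hom ha)
  have hz : κ = 0 := by
    refine Polynomial.eq_zero_of_infinite_isRoot κ
      ((Set.finite_range D.γ).infinite_compl.mono fun τ hτ => ?_)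
    have h1 := h0 τ
    rw [lim_shift ha, ← hκ] at h1
    exact (mul_eq_zero.1 h1).resolve_left
      (pow_ne_zero _ (lim_z D fun i hi => hτ ⟨i, hi.symm⟩))
  exact hb (lim_row D ha (fun i => by rw [← hκ, hz, Polynomial.eval_zero]) b)

theorem Seq.supp0 {A : Fam} {ι : Type} {𝒰 : Ultrafilter ι} (S : Seq A ι 𝒰) :
    Supp S.d 0 S.c0 := by
  exact (isClosed_supp S.d 0).mem_of_tendsto S.hc (Eventually.of_forall S.supp)

theorem lim_line {p : V} (hp : p ≠ 0) (y : V) :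
    ∀ᶠ q in 𝓝 p, ∀ c : ℂ, q = c • y → ∃ u : ℂ, q = u • p := by
  by_cases h : p ∈ Submodule.span ℂ {y}
  · obtain ⟨c', rfl⟩ := Submodule.mem_span_singleton.1 h
    have hc : c' ≠ 0 := left_ne_zero_of_smul hp
    exact Eventually.of_forall fun q c hq =>
      ⟨c / c', by rw [hq, smul_smul, div_mul_cancel₀ _ hc]⟩
  · filter_upwards [(Submodule.span ℂ {y}).closed_of_finiteDimensional.isOpen_compl.mem_nhds h]
      with q hq c hc
    exact absurd (Submodule.mem_span_singleton.2 ⟨c, hc.symm⟩) hq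

theorem lim_roots {A : Fam} {ι : Type} {𝒰 : Ultrafilter ι} (S : Seq A ι 𝒰) {w : ℕ}
    (hw : Supp S.d w S.c0) {κ : Polynomial ℂ} (h0 : κ ≠ 0)
    (hκ : ∀ τ, κ.eval τ = eval (A.x τ) (frm S.d w S.c0)) {τ : ℂ} (hτ : κ.eval τ = 0) :
    (∃ j, τ = A.θ j) ∨ ∃ i, τ = A.γ i := by
  by_contra hn
  push Not at hn
  have hψ : eval (A.x τ) A.ψ ≠ 0 := by
    rw [Data.x, Data.ψ, A.ψx]
    exact mul_ne_zero A.ψe (Finset.prod_ne_zero_iff.2 fun j _ => sub_ne_zero.2 (hn.1 j))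
  have hz : A.x τ 2 ≠ 0 := lim_z A.toData hn.2
  have hF0 : ∀ q : V, eval q (A.F 0) = q 2 * eval q A.φ * eval q A.ψ := fun q => by
    simp [A.eval_F]
  have hFc : Continuous fun x : (ℝ × Arr) × V => eval x.2 (A.F x.1.1) := by
    have := A.continuous_F.comp
      (f := fun x : (ℝ × Arr) × V => (x.1.1, x.2)) (continuous_fst.fst.prodMk continuous_snd)
    simp only [Function.comp_def] at this
    exact this
  have hKc : Continuous fun x : (ℝ × Arr) × V => eval x.2 (frm S.d 0 x.1.2) := by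
    have := (continuous_frm S.d 0).comp
      (f := fun x : (ℝ × Arr) × V => (x.1.2, x.2)) (continuous_fst.snd.prodMk continuous_snd)
    simp only [Function.comp_def] at this
    exact this
  refine persist3 (Θ := ℝ × Arr) (l := 𝒰) (F := fun σ => A.F σ.1) (K := fun σ => frm S.d 0 σ.2)
    (σ := fun i => (S.s i, S.c i)) (σ0 := (0, S.c0)) (p := A.x τ) (fun σ => A.F_hom σ.1) hFc hKc
    ((S.hs.mono_right nhdsWithin_le_nhds).prodMk_nhds S.hc) S.ns S.tot
    (A.not_re3 (A.φ_x τ) hψ) ?_ ?_ ?_ ?_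
  · rw [hF0, A.φ_x, mul_zero, zero_mul]
  · rw [lim_shift hw, ← hκ, hτ, mul_zero]
  · obtain ⟨q, hq⟩ := A.exists_ne
    exact ⟨q, by rwa [hF0]⟩
  · have e1 : ∀ᶠ q in 𝓝 (A.x τ), q 2 ≠ 0 := ((continuous_apply 2).tendsto _).eventually_ne hz
    have e2 : ∀ᶠ q in 𝓝 (A.x τ), eval q A.ψ ≠ 0 :=
      ((continuous_evalV A.ψ).tendsto _).eventually_ne hψ
    have e3 := (eventually_all_finset κ.roots.toFinset).2
      fun τ' _ => lim_line (A.x_ne_zero τ) (A.x τ')
    filter_upwards [e1, e2, e3] with q h1 h2 h3 hF hK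
    rw [hF0] at hF
    obtain ⟨c, τ', hq⟩ := A.onto
      ((mul_eq_zero.1 ((mul_eq_zero.1 hF).resolve_right h2)).resolve_left h1)
    by_cases hc : c = 0
    · exact ⟨0, by rw [hq, hc, zero_smul, zero_smul]⟩
    refine h3 τ' ?_ c hq
    rw [lim_shift hw] at hK
    have h4 := (mul_eq_zero.1 hK).resolve_left (pow_ne_zero _ h1)
    rw [hq, eval_smul_hom (frm_hom hw), ← hκ] at h4
    exact Multiset.mem_toFinset.2 ((Polynomial.mem_roots h0).2
      ((mul_eq_zero.1 h4).resolve_left (pow_ne_zero _ hc)))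

theorem lim_theta {A : Fam} {ι : Type} {𝒰 : Ultrafilter ι} (S : Seq A ι 𝒰) {w : ℕ}
    (hw : Supp S.d w S.c0) (j : Fin 9) : eval (A.x (A.θ j)) (frm S.d w S.c0) = 0 := by
  have h1 := ((continuous_frm S.d 0).tendsto (S.c0, ofR (A.P j))).comp
    (S.hc.prodMk_nhds ((continuous_ofR.tendsto _).comp (S.hN j)))
  simp only [Function.comp_def] at h1
  have h2 : eval (ofR (A.P j)) (frm S.d 0 S.c0) = 0 :=
    tendsto_nhds_unique h1 (tendsto_const_nhds.congr' ((S.N2 j).mono fun i hi => hi.2.2.symm))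
  rw [lim_shift hw, ofR_apply, A.P2, Complex.ofReal_one, one_pow, one_mul] at h2
  rw [Data.x, A.xθ, eval_smul_hom (frm_hom hw), h2, mul_zero]

theorem Seq.lim {A : Fam} {ι : Type} {𝒰 : Ultrafilter ι} (S : Seq A ι 𝒰) :
    ∃ (w : ℕ) (κ : ℂ), w ≤ 2 ∧ S.d = w + 3 ∧ Supp S.d w S.c0 ∧ κ ≠ 0 ∧
      ∀ τ, eval (A.x τ) (frm S.d w S.c0) = κ * eval (A.x τ) A.ψ := by
  obtain ⟨w, b, hw, hb⟩ := exists_min_row S.supp0 S.c0_ne
  obtain ⟨κ, hκ, hdeg, hco⟩ := A.restr (frm_hom hw)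
  have hγ : ¬ ∀ i, κ.eval (A.γ i) = 0 := fun h =>
    hb (lim_row A.toData hw (fun i => by rw [← hκ, h]) b)
  have h0 : κ ≠ 0 := fun h => hγ fun i => by rw [h, Polynomial.eval_zero]
  have hr := fun τ => lim_roots S hw h0 hκ (τ := τ)
  set L := eval (A.e 2) (frm S.d w S.c0)
  have e0 : κ.eval 0 = (-1) ^ (S.d - w) * L := by
    rw [hκ, A.x_zero, eval_smul_hom (frm_hom hw)]
  have hL : L ≠ 0 := fun h => by
    rcases hr 0 (by rw [e0, h, mul_zero]) with ⟨j, hj⟩ | ⟨i, hi⟩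
    · exact A.θ_ne_zero j hj.symm
    · exact A.γ_ne_zero i hi.symm
  have hnd : κ.natDegree = 3 * (S.d - w) :=
    Polynomial.natDegree_eq_of_le_of_coeff_ne_zero hdeg (hco ▸ hL)
  have hcard : κ.roots.card = κ.natDegree := IsAlgClosed.card_roots_eq_natDegree
  have hev : ∀ τ, κ.eval τ = L * (κ.roots.map fun a => τ - a).prod := fun τ => by
    conv_lhs => rw [← Polynomial.C_leadingCoeff_mul_prod_multiset_X_sub_C hcard]
    rw [Polynomial.eval_mul, Polynomial.eval_C, Polynomial.leadingCoeff, hnd, hco,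
      Polynomial.eval_multiset_prod, Multiset.map_map]
    simp
  have hprod : κ.roots.prod = 1 := by
    have h1 := hev 0
    simp only [zero_sub] at h1
    rw [Multiset.prod_map_neg, hcard, hnd, e0, pow_mul, show (-1 : ℂ) ^ 3 = -1 by norm_num] at h1
    have h2 : ((-1 : ℂ) ^ (S.d - w) * L) * (κ.roots.prod - 1) = 0 := by
      linear_combination -h1
    exact sub_eq_zero.1 ((mul_eq_zero.1 h2).resolve_left
      (mul_ne_zero (pow_ne_zero _ (by norm_num)) hL))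
  obtain ⟨S', hS'⟩ := Multiset.le_iff_exists_add.1
    ((Multiset.le_iff_subset (t := κ.roots) (Finset.univ.nodup.map A.θ_inj)).2 fun τ hτ => by
      obtain ⟨j, -, rfl⟩ := Multiset.mem_map.1 hτ
      exact (Polynomial.mem_roots h0).2 ((hκ _).trans (lim_theta S hw j)))
  have hroot : ∀ r ∈ S', κ.eval r = 0 := fun r h =>
    (Polynomial.mem_roots h0).1 (hS' ▸ Multiset.mem_add.2 (Or.inr h))
  have hc : 9 + S'.card = 3 * (S.d - w) := by
    rw [← hnd, ← hcard, hS']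
    simp
  have hp : S'.prod = 1 := by
    rw [hS', Multiset.prod_add, ← Finset.prod_eq_multiset_prod, A.prod_θ, one_mul] at hprod
    exact hprod
  have hd := S.hd
  have h5 : S'.card ≠ 6 := fun h =>
    hγ fun i => hroot _ (A.gen S' (fun r h' => hr r (hroot r h')) h hp i)
  have h4 : S'.card ≠ 3 := fun h => hγ fun i => hroot _ (by
    simpa using A.gen (S' + S') (fun r h' => hr r (hroot r (by simpa using h')))
      (by rw [Multiset.card_add, h]) (by rw [Multiset.prod_add, hp, one_mul]) i)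
  have h3 : S' = 0 := Multiset.card_eq_zero.1 (by omega)
  refine ⟨w, L / eval (A.e 2) A.ψ, by omega, by omega, hw, div_ne_zero hL A.ψe, fun τ => ?_⟩
  rw [← hκ, hev, hS', h3, add_zero, Multiset.map_map, ← Finset.prod_eq_multiset_prod, Data.x,
    Data.ψ, A.ψx, ← mul_assoc, div_mul_cancel₀ _ A.ψe]
  rfl

end Pool.Agent.MP_42957e_ag

end

section

set_option autoImplicit false

namespace Pool.Agent.MP_42957e_ag

open MvPolynomial Filter Topology Asymptotics
open scoped ComplexConjugate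

theorem CB_form {A : Fam} {c : Arr} (hc : Supp 3 0 c) {κ : ℂ}
    (hκ : ∀ τ, eval (A.x τ) (frm 3 0 c) = κ * eval (A.x τ) A.ψ) :
    frm 3 0 c = C κ * A.ψ + C (conj κ) * A.φ := by
  obtain ⟨c1, h1, h2⟩ := exists_frm (Q := C κ * A.ψ + C (conj κ) * A.φ)
    ((A.ψ_hom.C_mul _).add (A.φ_hom.C_mul _)) (by norm_num) (by simp [add_comm])
  have h3 := A.inj_frm (hc.sub h1) fun τ => by
    rw [frm_sub, h2, map_sub, hκ]
    simp [A.φ_x τ]
  rw [← h2, sub_eq_zero.1 h3]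

theorem CB_local {A : Fam} {ι : Type} {𝒰 : Ultrafilter ι} (S : Seq A ι 𝒰) (j : Fin 9) :
    ∃ ε : ℂ, ‖ε‖ = √A.η ∧ Tendsto (fun i => eval (ofR (S.N j i)) A.φ / (S.s i : ℂ)) 𝒰
      (𝓝 (ε - eval (ofR (A.P j)) A.W)) := by
  have hp : Tendsto (fun i => ofR (S.N j i)) 𝒰 (𝓝 (ofR (A.P j))) :=
    (continuous_ofR.tendsto _).comp (S.hN j)
  have hs : ∀ᶠ i in 𝒰, (S.s i : ℂ) ≠ 0 :=
    (S.hs.eventually self_mem_nhdsWithin).mono fun i hi => Complex.ofReal_ne_zero.2 (ne_of_gt hi)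
  set u : ι → ℂ := fun i => eval (ofR (S.N j i)) (A.φt (S.s i)) / (S.s i : ℂ) with hu
  have h1 : Tendsto (fun i => u i * conj (u i)) 𝒰 (𝓝 (A.η : ℂ)) := by
    rw [← A.T_P j]
    refine (tendsto_eval hp A.T).congr' ?_
    filter_upwards [hs, S.N2 j] with i h1 h2
    have h3 := A.mul_eval_F (S.s i) (ofR (S.N j i))
    rw [h2.2.1, mul_zero, ← A.cj_φt, eval_cj_ofR] at h3
    simp only [hu, map_div₀, Complex.conj_ofReal]
    field_simp
    linear_combination h3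
  have h2 : ∀ᶠ i in 𝒰, u i ∈ Metric.closedBall (0 : ℂ) (‖(A.η : ℂ)‖ + 2) := by
    filter_upwards [h1.norm.eventually (gt_mem_nhds (lt_add_one _))] with i hi
    rw [norm_mul, Complex.norm_conj] at hi
    rw [mem_closedBall_zero_iff]
    nlinarith [norm_nonneg (u i), norm_nonneg (A.η : ℂ), sq_nonneg (‖u i‖ - 1)]
  obtain ⟨ε, -, h3⟩ := (isCompact_closedBall (0 : ℂ) _).ultrafilter_le_nhds (𝒰.map u)
    (le_principal_iff.2 h2)
  have h4 : Tendsto u 𝒰 (𝓝 ε) := h3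
  have h5 : ε * conj ε = A.η :=
    tendsto_nhds_unique (h4.mul ((Complex.continuous_conj.tendsto _).comp h4)) h1
  refine ⟨ε, ?_, (h4.sub (tendsto_eval hp A.W)).congr' ?_⟩
  · rw [Complex.mul_conj, Complex.ofReal_inj, Complex.normSq_eq_norm_sq] at h5
    rw [← h5, Real.sqrt_sq (norm_nonneg _)]
  · filter_upwards [hs, S.N2 j] with i h1 h2
    simp only [hu, A.eval_φt, ofR_apply, h2.1, Complex.ofReal_one]
    field_simp
    ring

theorem CB_isBigO {A : Fam} {ι : Type} {𝒰 : Ultrafilter ι} (S : Seq A ι 𝒰) (j : Fin 9) :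
    (fun i => ofR (S.N j i) - ofR (A.P j)) =O[𝒰] fun i => (S.s i : ℂ) := by
  have hp : Tendsto (fun i => ofR (S.N j i)) 𝒰 (𝓝 (ofR (A.P j))) :=
    (continuous_ofR.tendsto _).comp (S.hN j)
  have hs : ∀ᶠ i in 𝒰, (S.s i : ℂ) ≠ 0 :=
    (S.hs.eventually self_mem_nhdsWithin).mono fun i hi => Complex.ofReal_ne_zero.2 (ne_of_gt hi)
  obtain ⟨ε, -, h⟩ := CB_local S j
  have h1 : (fun i => eval (ofR (S.N j i)) A.φ) =O[𝒰] fun i => (S.s i : ℂ) :=
    isBigO_of_div_tendsto_nhds (hs.mono fun i hi h => absurd h hi) _ h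
  have h2 : (fun i => eval (ofR (S.N j i)) A.ψ) =O[𝒰] fun i => (S.s i : ℂ) := by
    refine IsBigO.of_norm_left ?_
    simp only [eval_cj_ofR, Complex.norm_conj]
    exact h1.norm_left
  refine isBigO_of_inj (a := fun _ => 0) (ContinuousLinearMap.proj 2) (dvL A.φ (ofR (A.P j)))
    (dvL A.ψ (ofR (A.P j))) (fun x a b c => A.inj_P j x a (by rwa [dvL_apply] at b)
      (by rwa [dvL_apply] at c)) (isBigO_zero _ _) h1 h2 ?_ ?_ ?_
  · refine (isLittleO_zero _ _).congr' ?_ EventuallyEq.rfl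
    filter_upwards [S.N2 j] with i hi
    simp [hi.1, A.P2]
  · have := diff_isLittleO hp tendsto_const_nhds A.φ
    simp only [A.φ_P j, sub_zero] at this
    simpa only [dvL_apply] using this
  · have := diff_isLittleO hp tendsto_const_nhds A.ψ
    simp only [A.ψ_P j, sub_zero] at this
    simpa only [dvL_apply] using this

theorem Seq.cb {A : Fam} {ι : Type} {𝒰 : Ultrafilter ι} (S : Seq A ι 𝒰) (hd : S.d = 3)
    {κ : ℂ} (h0 : κ ≠ 0) (hκ : ∀ τ, eval (A.x τ) (frm S.d 0 S.c0) = κ * eval (A.x τ) A.ψ) :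
    False := by
  have hs0 := S.supp0
  have hs1 := S.supp
  have him := S.im
  have hN2 := S.N2
  rw [hd] at hs0 hs1 him hN2 hκ
  have hK := CB_form hs0 hκ
  have hr : conj κ * eval (ofR (A.P 8)) A.W = κ * conj (eval (ofR (A.P 8)) A.W) := by
    have h1 : eval (A.e 2) (frm 3 0 S.c0) * conj (eval (A.e 2) A.ψ * eval (ofR (A.P 8)) A.W) =
        (Complex.normSq (eval (A.e 2) A.ψ) : ℂ) * (κ * conj (eval (ofR (A.P 8)) A.W)) := by
      rw [hK, ← Complex.mul_conj]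
      simp only [map_add, map_mul, eval_C, A.φ_e]
      ring
    rw [h1, Complex.im_ofReal_mul] at him
    have h2 := Complex.conj_eq_iff_im.2
      ((mul_eq_zero.1 him).resolve_left (Complex.normSq_pos.2 A.ψe).ne')
    rwa [map_mul, Complex.conj_conj] at h2
  choose ε hε hb using CB_local S
  have hc : Tendsto (fun i => S.c i - S.c0) 𝒰 (𝓝 0) := by
    simpa using S.hc.sub_const S.c0
  have h1 : ∀ j, Tendsto (fun i => (eval (ofR (S.N j i)) (frm 3 0 (S.c i - S.c0)) -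
      eval (ofR (A.P j)) (frm 3 0 (S.c i - S.c0))) / (S.s i : ℂ)) 𝒰 (𝓝 0) := fun j =>
    ((frm_diff_isLittleO ((continuous_ofR.tendsto _).comp (S.hN j)) tendsto_const_nhds hc 3
      0).trans_isBigO (CB_isBigO S j)).tendsto_div_nhds_zero
  have h2 := tendsto_finsetSum Finset.univ fun j _ => (h1 j).const_mul (A.ρ j)
  have h3 := (tendsto_finsetSum Finset.univ fun j _ =>
    (((((Complex.continuous_conj.tendsto _).comp (hb j)).const_mul κ).add
      ((hb j).const_mul (conj κ))).const_mul (A.ρ j))).neg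
  have h4 := tendsto_nhds_unique_of_eventuallyEq h2 h3 (by
    filter_upwards [eventually_all.2 hN2] with i hi
    have e1 := A.cb _ (frm_hom ((hs1 i).sub hs0))
    simp only [← mul_div_assoc, mul_sub, sub_div, Finset.sum_sub_distrib, ← Finset.sum_div, e1,
      zero_div, sub_zero]
    rw [Finset.sum_div, ← Finset.sum_neg_distrib]
    refine Finset.sum_congr rfl fun j _ => ?_
    rw [frm_sub, map_sub, (hi j).2.2, hK]
    simp only [Function.comp_apply, map_add, map_mul, eval_C, eval_cj_ofR, map_div₀,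
      Complex.conj_ofReal]
    ring)
  have h5 : ∑ j, A.ρ j * (κ * conj (ε j) + conj κ * ε j) =
      2 * (A.ρ 8 * (conj κ * eval (ofR (A.P 8)) A.W)) := by
    have e1 : ∑ j, A.ρ j * (κ * conj (eval (ofR (A.P j)) A.W) + conj κ * eval (ofR (A.P j)) A.W) =
        2 * (A.ρ 8 * (conj κ * eval (ofR (A.P 8)) A.W)) := by
      rw [Finset.sum_eq_single 8 (fun j _ hj => by simp [A.WP j hj]) (by simp), ← hr]
      ring
    simp only [mul_zero, Finset.sum_const_zero, zero_eq_neg] at h4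
    rw [← e1, ← sub_eq_zero, ← Finset.sum_sub_distrib, ← h4]
    refine Finset.sum_congr rfl fun j _ => ?_
    rw [map_sub]
    ring
  have h6 : ‖∑ j, A.ρ j * (κ * conj (ε j) + conj κ * ε j)‖ ≤ ∑ j, ‖A.ρ j‖ * (2 * ‖κ‖ * √A.η) := by
    refine norm_sum_le_of_le _ fun j _ => ?_
    rw [norm_mul]
    refine mul_le_mul_of_nonneg_left ((norm_add_le _ _).trans (le_of_eq ?_)) (norm_nonneg _)
    simp only [norm_mul, Complex.norm_conj, hε]
    ring
  rw [h5, ← Finset.sum_mul] at h6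
  simp only [norm_mul, Complex.norm_conj, Complex.norm_ofNat] at h6
  nlinarith [mul_lt_mul_of_pos_left A.η_lt (norm_pos_iff.2 h0)]

end Pool.Agent.MP_42957e_ag

end

section

set_option autoImplicit false

namespace Pool.Agent.MP_42957e_ag

open MvPolynomial Filter Topology Asymptotics
open scoped ComplexConjugate

theorem resc_iso {p : Polynomial ℂ} (hp : p ≠ 0) (x0 : ℂ) :
    ∀ᶠ x in 𝓝 x0, p.eval x = 0 → x = x0 := by
  have hf : ({x | p.IsRoot x} \ {x0}).Finite := (Polynomial.finite_setOfPred_isRoot hp).sdiff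
  filter_upwards [hf.isClosed.isOpen_compl.mem_nhds (show x0 ∈ _ by simp)] with x hx h
  by_contra hne
  exact hx ⟨h, hne⟩

theorem resc_root {p : Polynomial ℂ} {a b : ℕ} (hab : a ≠ b) (ha : p.coeff a ≠ 0)
    (hb : p.coeff b ≠ 0) : ∃ z, z ≠ 0 ∧ p.eval z = 0 := by
  by_contra hn
  push Not at hn
  have h1 : p.roots = Multiset.replicate p.roots.card 0 :=
    Multiset.eq_replicate_card.2 fun z hz => by
      by_contra hz0
      exact hn z hz0 (Polynomial.mem_roots'.1 hz).2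
  have h2 := (IsAlgClosed.splits p).eq_prod_roots
  rw [h1, Multiset.map_replicate, Multiset.prod_replicate, map_zero, sub_zero] at h2
  rw [h2, Polynomial.coeff_C_mul_X_pow] at ha hb
  split_ifs at ha hb with e1 e2
  · exact hab (e1.trans e2.symm)
  all_goals simp at ha hb

theorem resc_A {Φ g p : Polynomial ℂ} {τ : ℂ} {k : ℂ × ℂ → ℂ} {w : ℕ} (hp : p ≠ 0)
    (hk : ∀ q : ℂ × ℂ, q.1 * Φ.eval q.2 + τ * g.eval q.2 = 0 → Φ.eval q.2 ^ w * k q = p.eval q.2)
    {x : ℂ} (hx : p.eval x = 0) (hΦ : Φ.eval x ≠ 0) :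
    ∃ q0 : ℂ × ℂ, q0.2 = x ∧ q0.1 * Φ.eval q0.2 + τ * g.eval q0.2 = 0 ∧ k q0 = 0 ∧
      ∀ᶠ q in 𝓝[≠] q0, q.1 * Φ.eval q.2 + τ * g.eval q.2 = 0 → k q ≠ 0 := by
  have h0 : -τ * g.eval x / Φ.eval x * Φ.eval x + τ * g.eval x = 0 := by
    field_simp
    ring
  refine ⟨(-τ * g.eval x / Φ.eval x, x), rfl, h0, ?_, ?_⟩
  · have := hk (_, x) h0
    rw [hx] at this
    exact (mul_eq_zero.1 this).resolve_left (pow_ne_zero _ hΦ)
  · have h1 := (continuous_snd.tendsto (-τ * g.eval x / Φ.eval x, x)).eventually (resc_iso hp x)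
    filter_upwards [nhdsWithin_le_nhds h1, self_mem_nhdsWithin] with q hq hne hf hkq
    have h2 := hk q hf
    rw [hkq, mul_zero] at h2
    have h3 := hq h2.symm
    refine hne (Prod.ext ?_ h3)
    rw [h3] at hf
    show q.1 = _
    rw [eq_div_iff hΦ]
    linear_combination hf

theorem resc_B {Φ p : Polynomial ℂ} {k : ℂ × ℂ → ℂ} (hΦ : Φ ≠ 0) (hp : p ≠ 0) {t z : ℂ}
    (hk : ∀ ζ, k (ζ, t) = p.eval ζ) (hz : z ≠ 0) :
    ∀ᶠ q in 𝓝[≠] (z, t), q.1 * Φ.eval q.2 = 0 → k q ≠ 0 := by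
  have h1 := (continuous_snd.tendsto (z, t)).eventually (resc_iso hΦ t)
  have h2 := (continuous_fst.tendsto (z, t)).eventually (resc_iso hp z)
  have h3 := (continuous_fst.tendsto (z, t)).eventually_ne hz
  filter_upwards [nhdsWithin_le_nhds h1, nhdsWithin_le_nhds h2, nhdsWithin_le_nhds h3,
    self_mem_nhdsWithin] with q a b c hne hf hkq
  have e := a ((mul_eq_zero.1 hf).resolve_left c)
  refine hne (Prod.ext (b ?_) e)
  rw [← hk, ← e]
  exact hkq

theorem resc_delta {ι : Type} {l : Filter ι} {s : ι → ℝ} {m : Fin 6 → ι → ℝ} {w : ℕ}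
    (h1 : 1 ≤ w) (h2 : w ≤ 2) (hs : Tendsto s l (𝓝 0)) (hm0 : ∀ a i, 0 ≤ m a i)
    (hm : ∀ a : Fin 6, (a : ℕ) < w → Tendsto (m a) l (𝓝 0)) :
    ∃ δ : ι → ℝ, Tendsto δ l (𝓝 0) ∧ (∀ i, s i ≤ δ i) ∧
      (∀ i (a : Fin 6), (a : ℕ) < w → m a i ≤ δ i ^ (w - a)) ∧
      ∀ i, s i = δ i ∨ ∃ a : Fin 6, (a : ℕ) < w ∧ m a i = δ i ^ (w - a) := by
  obtain rfl | rfl : w = 1 ∨ w = 2 := by omega
  · refine ⟨fun i => max (s i) (m 0 i), by simpa using hs.max (hm 0 (by simp)),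
      fun i => le_max_left _ _, fun i a ha => ?_, fun i => ?_⟩
    · obtain rfl : a = 0 := Fin.ext (by simpa using ha)
      simp
    · rcases max_cases (s i) (m 0 i) with h | h
      · exact Or.inl h.1.symm
      · exact Or.inr ⟨0, by simp, by simp [h.1]⟩
  · refine ⟨fun i => max (s i) (max (m 1 i) √(m 0 i)),
      by simpa using hs.max ((hm 1 (by simp)).max (hm 0 (by simp)).sqrt),
      fun i => le_max_left _ _, fun i a ha => ?_, fun i => ?_⟩
    · obtain rfl | rfl : a = 0 ∨ a = 1 := by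
        rcases a with ⟨a, _⟩
        simp only [Fin.ext_iff] at ha ⊢
        simp only [Fin.val_zero, Fin.val_one]
        omega
      · exact (Real.sqrt_le_left ((Real.sqrt_nonneg _).trans
          ((le_max_right _ _).trans (le_max_right _ _)))).1
          ((le_max_right _ _).trans (le_max_right _ _))
      · simp
    · rcases max_cases (s i) (max (m 1 i) √(m 0 i)) with h | h
      · exact Or.inl h.1.symm
      · rcases max_cases (m 1 i) √(m 0 i) with h' | h'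
        · refine Or.inr ⟨1, by simp, ?_⟩
          show m 1 i = (max _ _) ^ 1
          rw [h.1, h'.1, pow_one]
        · refine Or.inr ⟨0, by simp, ?_⟩
          show m 0 i = (max _ _) ^ 2
          rw [h.1, h'.1, Real.sq_sqrt (hm0 _ _)]

theorem resc_lim {ι : Type} {𝒰 : Ultrafilter ι} {E : Type} [NormedAddCommGroup E]
    [ProperSpace E] {f : ι → E} (h : ∀ᶠ i in 𝒰, ‖f i‖ ≤ 1) : ∃ x, Tendsto f 𝒰 (𝓝 x) := by
  obtain ⟨x, -, hx⟩ := (isCompact_closedBall (0 : E) 1).ultrafilter_le_nhds' (𝒰.map f)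
    (Ultrafilter.mem_map.2 (h.mono fun i hi => by simpa using hi))
  exact ⟨x, hx⟩

/-- chart point -/
noncomputable def rescPt (δ : ℝ) (q : ℂ × ℂ) : V :=
  ch ![0, 1, 0] ((δ : ℂ) • ![0, 0, 1]) ![1, 0, 0] q

theorem resc_pt0 (δ : ℝ) (q : ℂ × ℂ) : rescPt δ q 0 = q.2 := by simp [rescPt, ch]
theorem resc_pt1 (δ : ℝ) (q : ℂ × ℂ) : rescPt δ q 1 = 1 := by simp [rescPt, ch]
theorem resc_pt2 (δ : ℝ) (q : ℂ × ℂ) : rescPt δ q 2 = δ * q.1 := by simp [rescPt, ch, mul_comm]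

theorem resc_pt_zero (q : ℂ × ℂ) : rescPt 0 q = zp q.2 := by
  ext i
  fin_cases i <;> simp [rescPt, ch, zp]

noncomputable def rescF (A : Fam) (σ : ℝ × ℝ × ℝ × Arr) (q : ℂ × ℂ) : ℂ :=
  q.1 * eval (rescPt σ.1 q) (A.φ * A.ψ) + σ.2.1 * eval (rescPt σ.1 q) A.G +
    (σ.2.2.1 : ℂ) ^ 2 * (q.1 * eval (rescPt σ.1 q) A.R)

noncomputable def rescK (σ : ℝ × ℝ × ℝ × Arr) (q : ℂ × ℂ) : ℂ :=
  ∑ a : Fin 6, q.1 ^ (a : ℕ) * (rowP σ.2.2.2 a).eval q.2

theorem resc_persist {A : Fam} {ι : Type} {𝒰 : Ultrafilter ι} (S : Seq A ι 𝒰) {w : ℕ}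
    {δ : ι → ℝ} (hδ : Tendsto δ 𝒰 (𝓝 0)) (hsδ : ∀ i, S.s i ≤ δ i) {τ0 : ℝ}
    (hτ : Tendsto (fun i => S.s i / δ i) 𝒰 (𝓝 τ0)) {r0 : Arr}
    (hr : Tendsto (fun i (a : Fin 6) => (δ i ^ (a : ℕ) / δ i ^ w) • S.c i a) 𝒰 (𝓝 r0))
    (hne : ∃ q, rescF A (0, τ0, 0, r0) q ≠ 0) {q0 : ℂ × ℂ} (him : q0.2.im ≠ 0)
    (hf : rescF A (0, τ0, 0, r0) q0 = 0) (hk : rescK (0, τ0, 0, r0) q0 = 0)
    (hiso : ∀ᶠ q in 𝓝[≠] q0, rescF A (0, τ0, 0, r0) q = 0 → rescK (0, τ0, 0, r0) q ≠ 0) :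
    False := by
  have hpos : ∀ᶠ i in 𝒰, 0 < δ i :=
    (S.hs.eventually self_mem_nhdsWithin).mono fun i hi => lt_of_lt_of_le hi (hsδ i)
  have hs0 : Tendsto S.s 𝒰 (𝓝 0) := S.hs.mono_right nhdsWithin_le_nhds
  have hc : ∀ K : CP, Continuous fun x : (ℝ × ℝ × ℝ × Arr) × (ℂ × ℂ) =>
      eval (rescPt x.1.1 x.2) K := fun K =>
    (continuous_evalV K).comp (by unfold rescPt ch; fun_prop)
  have hd : ∀ (K : CP) (t : ℝ), ContDiff ℂ 1 fun q => eval (rescPt t q) K := fun K t =>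
    contDiff_ch K _ _ _
  have hfd : ∀ σ, ContDiff ℂ 1 (rescF A σ) := fun σ =>
    ((contDiff_fst.mul (hd _ _)).add (contDiff_const.mul (hd _ _))).add
      (contDiff_const.mul (contDiff_fst.mul (hd _ _)))
  have hF : ∀ i r, 0 < δ i → ∀ q, eval (rescPt (δ i) q) (A.F (S.s i)) =
      δ i * rescF A (δ i, S.s i / δ i, S.s i, r) q := fun i r hi q => by
    have : (δ i : ℂ) ≠ 0 := by exact_mod_cast hi.ne'
    simp only [Fam.eval_F, rescF, resc_pt2, map_mul]
    push_cast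
    field_simp
  have hne0 : ∀ t q, rescPt t q ≠ 0 := fun t q h => by
    have := resc_pt1 t q
    rw [h] at this
    simp at this
  have key := persist (l := (𝒰 : Filter ι)) (f := rescF A) (k := rescK)
    (((continuous_snd.fst.mul (hc _)).add ((by fun_prop : Continuous _).mul (hc _))).add
      ((by fun_prop : Continuous _).mul (continuous_snd.fst.mul (hc _))))
    (by simp only [rescK, eval_rowP]; fun_prop) hfd
    (fun σ => by unfold rescK; simp only [eval_rowP]; fun_prop)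
    (hδ.prodMk_nhds (hτ.prodMk_nhds (hs0.prodMk_nhds hr))) ?_ hf hk hne hiso
    (U := {q | q.2.im ≠ 0})
    ((isOpen_ne_fun (by fun_prop) continuous_const).mem_nhds him)
  · obtain ⟨i, ⟨q, hq, e1, e2⟩, hi, ht⟩ := (key.and (hpos.and S.tot)).exists
    have h3 := ht _ (hne0 (δ i) q) (by rw [hF i _ hi, e1, mul_zero]) (by
      have hδ0 : (δ i : ℂ) ≠ 0 := by exact_mod_cast hi.ne'
      have e3 := congrArg ((δ i : ℂ) ^ w * ·) e2
      simp only [rescK, mul_zero, Finset.mul_sum, eval_rowP] at e3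
      rw [eval_frm_chart _ _ (resc_pt1 _ _), ← e3]
      simp only [eval_rowP, Finset.mul_sum, resc_pt0, resc_pt2]
      refine Finset.sum_congr rfl fun a _ => Finset.sum_congr rfl fun b _ => ?_
      simp only [Pi.smul_apply, smul_eq_mul]
      push_cast
      field_simp
      ring) 0 1
    rw [resc_pt0, resc_pt1, map_one, mul_one] at h3
    exact hq h3
  · filter_upwards [hpos, S.ns] with i hi hns q hq h0
    have hδ0 : (δ i : ℂ) ≠ 0 := by exact_mod_cast hi.ne'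
    refine chart_ns (A.F_hom (S.s i)) hns (hne0 (δ i) q) (fun v => ?_)
      ((hF i _ hi q).trans (by rw [hq, mul_zero])) ?_
    · refine ⟨v 1, (v 2 - v 1 * (δ i * q.1)) / δ i, v 0 - v 1 * q.2, ?_⟩
      ext j
      fin_cases j <;> simp [ch]
      field_simp
      ring
    · have e := funext (hF i (fun a : Fin 6 => (δ i ^ (a : ℕ) / δ i ^ w) • S.c i a) hi)
      unfold rescPt at e
      rw [e, fderiv_const_mul ((hfd _).differentiable one_ne_zero q), h0]
      ext <;> simp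

theorem resc_star (x : ℂ) : star (zp x) = zp (conj x) := by
  ext i
  fin_cases i <;> simp [zp]

theorem resc_onL (D : Data) {x : ℂ} (h : eval (zp x) D.φ = 0) : ∃ i, x = D.t i := by
  obtain ⟨i, c, hc⟩ := D.onL h rfl
  have h1 : (1 : ℂ) = c := by simpa [zp] using congrFun hc 1
  exact ⟨i, by simpa [zp, ← h1] using congrFun hc 0⟩

theorem Seq.resc {A : Fam} {ι : Type} {𝒰 : Ultrafilter ι} (S : Seq A ι 𝒰) {w : ℕ} (h1 : 1 ≤ w)
    (h2 : w ≤ 2) (hd : S.d = w + 3) (hs : Supp S.d w S.c0) {κ : ℂ} (h0 : κ ≠ 0)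
    (hκ : ∀ τ, eval (A.x τ) (frm S.d w S.c0) = κ * eval (A.x τ) A.ψ) : False := by
  obtain ⟨w, rfl⟩ : ∃ a : Fin 6, (a : ℕ) = w := ⟨⟨w, by omega⟩, rfl⟩
  have hrow : ∀ a, Tendsto (fun i => S.c i a) 𝒰 (𝓝 (S.c0 a)) := tendsto_pi_nhds.1 S.hc
  obtain ⟨δ, hδ, hsδ, hle, heq⟩ := resc_delta (l := (𝒰 : Filter ι)) (s := S.s)
    (m := fun a i => ‖S.c i a‖) h1 h2 (S.hs.mono_right nhdsWithin_le_nhds)
    (fun _ _ => norm_nonneg _) fun a ha => by
      have : S.c0 a = 0 := funext fun b => by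
        by_contra hb
        have := (hs a b hb).1
        omega
      simpa [this] using (hrow a).norm
  have hs0 : ∀ᶠ i in 𝒰, 0 < S.s i := S.hs.eventually self_mem_nhdsWithin
  have hpos : ∀ᶠ i in 𝒰, 0 < δ i := hs0.mono fun i hi => lt_of_lt_of_le hi (hsδ i)
  obtain ⟨τ0, hτ⟩ := resc_lim (𝒰 := 𝒰) (f := fun i => S.s i / δ i) (by
    filter_upwards [hs0, hpos] with i a b
    rw [Real.norm_eq_abs, abs_of_pos (div_pos a b)]
    exact (div_le_one b).2 (hsδ i))
  have hnorm : ∀ i (a : Fin 6), 0 < δ i → (a : ℕ) < w →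
      ‖(δ i ^ (a : ℕ) / δ i ^ (w : ℕ)) • S.c i a‖ = ‖S.c i a‖ / δ i ^ ((w : ℕ) - a) := by
    intro i a hi ha
    rw [norm_smul, Real.norm_eq_abs, abs_of_pos (by positivity), pow_sub₀ _ hi.ne' ha.le]
    field_simp
  have hex : ∀ a : Fin 6, ∃ ρ, Tendsto (fun i => (δ i ^ (a : ℕ) / δ i ^ (w : ℕ)) • S.c i a) 𝒰
      (𝓝 ρ) ∧ (a = w → ρ = S.c0 a) ∧ ((w : ℕ) < a → ρ = 0) := by
    intro a
    rcases lt_trichotomy (a : ℕ) w with h | h | h
    · obtain ⟨ρ, hρ⟩ := resc_lim (𝒰 := 𝒰)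
        (f := fun i => (δ i ^ (a : ℕ) / δ i ^ (w : ℕ)) • S.c i a) (hpos.mono fun i hi => by
          rw [hnorm i a hi h]
          exact (div_le_one (by positivity)).2 (hle i a h))
      exact ⟨ρ, hρ, fun e => by omega, fun e => by omega⟩
    · refine ⟨S.c0 a, (hrow a).congr' (hpos.mono fun i hi => ?_), fun _ => rfl, fun e => by omega⟩
      simp only [h]
      rw [div_self (by positivity), one_smul]
    · refine ⟨0, ?_, fun e => by omega, fun _ => rfl⟩
      have := (hδ.pow ((a : ℕ) - w)).smul (hrow a)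
      rw [zero_pow (by omega), zero_smul] at this
      refine this.congr' (hpos.mono fun i hi => ?_)
      simp only
      rw [pow_sub₀ _ hi.ne' h.le, div_eq_mul_inv]
  choose r0 hr hrw hr0 using hex
  have hcase : τ0 ≠ 0 ∨ ∃ a : Fin 6, (a : ℕ) < w ∧ r0 a ≠ 0 := by
    rcases Ultrafilter.eventually_or.1 (Eventually.of_forall (f := (𝒰 : Filter ι)) heq) with h | h
    · have : Tendsto (fun i => S.s i / δ i) 𝒰 (𝓝 1) :=
        tendsto_const_nhds.congr' ((h.and hpos).mono fun i hi => by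
          simp only [hi.1]
          rw [div_self hi.2.ne'])
      exact Or.inl (by rw [tendsto_nhds_unique hτ this]; exact one_ne_zero)
    · obtain ⟨a, ha⟩ := Ultrafilter.eventually_exists_iff.1 h
      have hlt := ha.exists.choose_spec.1
      have : Tendsto (fun i => ‖(δ i ^ (a : ℕ) / δ i ^ (w : ℕ)) • S.c i a‖) 𝒰 (𝓝 1) :=
        tendsto_const_nhds.congr' ((ha.and hpos).mono fun i hi => by
          have := hi.2
          simp only
          rw [hnorm i a hi.2 hlt, hi.1.2, div_self (by positivity)])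
      refine Or.inr ⟨a, hlt, fun e => ?_⟩
      have := tendsto_nhds_unique (hr a).norm this
      rw [e, norm_zero] at this
      exact zero_ne_one this
  obtain ⟨Φ, dΦ, -, hΦ⟩ := exists_zp_poly (A.φ_hom.mul A.ψ_hom)
  obtain ⟨g, dg, -, hg⟩ := exists_zp_poly A.G_hom
  have hf : ∀ q, rescF A (0, τ0, 0, r0) q = q.1 * Φ.eval q.2 + τ0 * g.eval q.2 := fun q => by
    simp [rescF, resc_pt_zero, hΦ, hg]
  have hroot : ∀ x, Φ.eval x = 0 → ∃ i, x = A.t i ∨ x = conj (A.t i) := fun x hx => by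
    rw [hΦ, map_mul, mul_eq_zero] at hx
    rcases hx with hx | hx
    · obtain ⟨i, hi⟩ := resc_onL A.toData hx
      exact ⟨i, Or.inl hi⟩
    · rw [eval_cj, map_eq_zero, resc_star] at hx
      obtain ⟨i, hi⟩ := resc_onL A.toData hx
      exact ⟨i, Or.inr (by rw [← hi, Complex.conj_conj])⟩
  have hΦ0 : Φ.eval 0 ≠ 0 := fun h => by
    obtain ⟨i, hi | hi⟩ := hroot 0 h
    · have := A.t_pos i
      rw [← hi] at this
      simp at this
    · have := A.t_pos i
      rw [(map_eq_zero _).1 hi.symm] at this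
      simp at this
  have H : ∀ q0 : ℂ × ℂ, q0.2.im ≠ 0 → q0.1 * Φ.eval q0.2 + τ0 * g.eval q0.2 = 0 →
      rescK (0, τ0, 0, r0) q0 = 0 → (∀ᶠ q in 𝓝[≠] q0, q.1 * Φ.eval q.2 + τ0 * g.eval q.2 = 0 →
        rescK (0, τ0, 0, r0) q ≠ 0) → False := fun q0 a b c d =>
    resc_persist S hδ hsδ hτ (tendsto_pi_nhds.2 hr)
      ⟨((1 - τ0 * g.eval 0) / Φ.eval 0, 0), by
        rw [hf, div_mul_cancel₀ _ hΦ0, sub_add_cancel]; exact one_ne_zero⟩
      a (by rw [hf]; exact b) c (by simp only [hf]; exact d)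
  have hR0 : ∀ a : Fin 6, (w : ℕ) < a → rowP r0 a = 0 := fun a ha => by simp [rowP, hr0 a ha]
  have hΦt : ∀ i, Φ.eval (A.t i) = 0 := fun i => by rw [hΦ, map_mul, A.φ_z, zero_mul]
  have hgt : ∀ i, g.eval (A.t i) = eval (zp (A.t i)) A.ψ * eval (zp (A.t i)) A.W := fun i => by
    rw [hg, A.eval_G, A.φ_z, zero_mul, zero_add]
  have hRt : ∀ i, (rowP r0 w).eval (A.t i) = κ * eval (zp (A.t i)) A.ψ := fun i => by
    have e := hκ (A.γ i)
    have e1 : rowP r0 w = rowP S.c0 w := by simp only [rowP, hrw w rfl]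
    rw [Data.x, A.xγ, eval_smul_hom (frm_hom hs), eval_smul_hom A.ψ_hom, eval_frm_zp hs,
      show S.d - w = 3 by omega, mul_left_comm] at e
    rw [e1]
    exact mul_left_cancel₀ (pow_ne_zero 3 (A.v_ne i)) e
  by_cases hτ0 : τ0 = 0
  · obtain ⟨a, ha, hra⟩ := hcase.resolve_left (not_not.2 hτ0)
    obtain ⟨i, hi⟩ : ∃ i, (rowP r0 a).eval (A.t i) ≠ 0 := by
      by_contra hn
      push Not at hn
      exact hra (funext (row_eq_zero A.t_inj A.t_pos hn))
    set p : Polynomial ℂ :=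
      ∑ b : Fin 6, Polynomial.C ((rowP r0 b).eval (A.t i)) * Polynomial.X ^ (b : ℕ) with hp
    have hco : ∀ b : Fin 6, p.coeff b = (rowP r0 b).eval (A.t i) := fun b => by
      simp [hp, Polynomial.coeff_X_pow, Fin.val_inj]
    have hev : ∀ ζ, rescK (0, τ0, 0, r0) (ζ, A.t i) = p.eval ζ := fun ζ => by
      rw [hp, Polynomial.eval_finsetSum, rescK]
      refine Finset.sum_congr rfl fun a _ => ?_
      rw [Polynomial.eval_mul, Polynomial.eval_C, Polynomial.eval_pow, Polynomial.eval_X, mul_comm]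
    obtain ⟨z, hz, hpz⟩ := resc_root (p := p) ha.ne (by rw [hco]; exact hi)
      (by rw [hco, hRt]; exact mul_ne_zero h0 (A.ψ_z i))
    refine H (z, A.t i) (A.t_pos i).ne' (by simp [hΦt, hτ0]) ((hev z).trans hpz) ?_
    have := resc_B (Φ := Φ) (fun e => hΦ0 (by simp [e]))
      (fun e => hi (by rw [← hco, e, Polynomial.coeff_zero])) hev hz
    simpa [hτ0] using this
  · have hτ1 : (τ0 : ℂ) ≠ 0 := by exact_mod_cast hτ0
    set p : Polynomial ℂ :=
      ∑ a : Fin 6, (Polynomial.C (-τ0 : ℂ) * g) ^ (a : ℕ) * Φ ^ ((w : ℕ) - a) * rowP r0 a with hp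
    have hpz : ∀ x, Φ.eval x = 0 →
        p.eval x = (-τ0 * g.eval x) ^ (w : ℕ) * (rowP r0 w).eval x := fun x hx => by
      rw [hp, Polynomial.eval_finsetSum, Finset.sum_eq_single w]
      · simp
      · intro a _ ha
        rcases lt_or_gt_of_ne (Fin.val_injective.ne ha) with h | h
        · simp [hx, Nat.sub_ne_zero_of_lt h]
        · simp [hR0 a h]
      · simp
    have hpt : ∀ i, (-τ0 * g.eval (A.t i)) ^ (w : ℕ) * (rowP r0 w).eval (A.t i) ≠ 0 := fun i => by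
      rw [hgt, hRt]
      exact mul_ne_zero (pow_ne_zero _ (mul_ne_zero (neg_ne_zero.2 hτ1)
        (mul_ne_zero (A.ψ_z i) (A.Wz i)))) (mul_ne_zero h0 (A.ψ_z i))
    refine A.rat p (fun x hx => ?_) ?_ w h1 h2 ((-τ0) ^ (w : ℕ) * κ)
      (mul_ne_zero (pow_ne_zero _ (neg_ne_zero.2 hτ1)) h0) fun i => ?_
    · by_contra him
      have hx0 : Φ.eval x ≠ 0 := fun e => by
        rw [hpz x e] at hx
        obtain ⟨i, rfl | rfl⟩ := hroot x e
        · exact hpt i hx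
        · refine hpt i ((map_eq_zero (starRingEnd ℂ)).1 (Eq.trans ?_ hx))
          rw [hg, hg, ← resc_star, eval_star, A.cj_G]
          simp [eval_rowP]
      obtain ⟨q0, rfl, b, c, d⟩ := resc_A (Φ := Φ) (g := g) (τ := τ0) (w := w)
        (k := rescK (0, τ0, 0, r0)) (p := p)
        (fun e => hpt 0 (by rw [← hpz _ (hΦt 0), e, Polynomial.eval_zero])) (fun q hq => by
          rw [hp, Polynomial.eval_finsetSum, rescK, Finset.mul_sum]
          refine Finset.sum_congr rfl fun a _ => ?_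
          rcases le_or_gt (a : ℕ) w with h | h
          · have e : -(τ0 : ℂ) * g.eval q.2 = q.1 * Φ.eval q.2 := by linear_combination -hq
            obtain ⟨n, hn⟩ := Nat.exists_eq_add_of_le h
            simp only [Polynomial.eval_mul, Polynomial.eval_pow, Polynomial.eval_C, e, hn,
              Nat.add_sub_cancel_left]
            ring
          · simp [hR0 a h]) hx hx0
      exact H q0 him b c d
    · refine Polynomial.natDegree_sum_le_of_forall_le _ _ fun a _ => ?_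
      rcases le_or_gt (a : ℕ) w with h | h
      · have e1 := Polynomial.natDegree_pow_le_of_le (a : ℕ)
          ((Polynomial.natDegree_C_mul_le (-τ0 : ℂ) g).trans dg)
        have e2 := Polynomial.natDegree_pow_le_of_le ((w : ℕ) - a) dΦ
        refine (Polynomial.natDegree_mul_le_of_le (Polynomial.natDegree_mul_le_of_le e1 e2)
          (natDegree_rowP r0 a)).trans ?_
        omega
      · simp [hR0 a h]
    · rw [hpz _ (hΦt i), hgt, hRt]
      ring

end Pool.Agent.MP_42957e_ag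

end

section

set_option autoImplicit false

namespace Pool.Agent.MP_42957e_ag

open MvPolynomial Filter Topology Asymptotics
open scoped ComplexConjugate

theorem Seq.false {A : Fam} {ι : Type} {𝒰 : Ultrafilter ι} (S : Seq A ι 𝒰) : False := by
  obtain ⟨w, κ, h2, hd, hs, h0, hκ⟩ := S.lim
  rcases Nat.eq_zero_or_pos w with rfl | hw
  · exact S.cb (by simpa using hd) h0 hκ
  · exact S.resc hw h2 hd hs h0 hκ

theorem re3_zero : Re3 0 := fun i j => by simp

namespace Fam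

variable (A : Fam)

theorem exists_nonreal : ∀ᶠ s in 𝓝[>] (0 : ℝ), ∃ p, ¬ Re3 p ∧ eval p (A.F s) = 0 := by
  refine nhdsWithin_le_nhds (exists_zero_near (f := fun s p => eval p (A.F s)) A.continuous_F
    (fun _ => differentiable_evalV _) (q0 := A.e 2) ?_ ?_
    (isClosed_re3.isOpen_compl.mem_nhds (A.not_re3 A.φ_e A.ψe)))
  · simp [eval_F, A.φ_e]
  · simpa [eval_F] using A.exists_ne

/-- a normalised member of a total pencil -/
def Pk (d : ℕ) (ρ : Fin 9 → ℝ) (x : ℝ × Arr × (Fin 9 → Fin 3 → ℝ)) : Prop :=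
  ‖x.2.1‖ = 1 ∧ Supp d 0 x.2.1 ∧ NSg (A.F x.1) ∧ Tot (A.F x.1) (frm d 0 x.2.1) ∧
  (eval (A.e 2) (frm d 0 x.2.1) * conj (eval (A.e 2) A.ψ * eval (ofR (A.P 8)) A.W)).im = 0 ∧
  ∀ j, x.2.2 j 2 = 1 ∧ dist (x.2.2 j) (A.P j) ≤ ρ j ∧ eval (ofR (x.2.2 j)) (A.F x.1) = 0 ∧
    eval (ofR (x.2.2 j)) (frm d 0 x.2.1) = 0

theorem exists_pk {d : ℕ} (hd : d ≤ 5) {ρ : Fin 9 → ℝ} {s : ℝ} (hns : NSg (A.F s))
    (hp : ∃ p, ¬ Re3 p ∧ eval p (A.F s) = 0)
    (hov : ∀ j, (∀ N : Fin 3 → ℝ, N 2 = 1 → dist N (A.P j) = ρ j → eval (ofR N) (A.F s) ≠ 0) ∧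
      ∃ N : Fin 3 → ℝ, N 2 = 1 ∧ dist N (A.P j) ≤ ρ j ∧ eval (ofR N) (A.F s) = 0)
    {G H : CP} (hG : G.IsHomogeneous d) (hH : H.IsHomogeneous d) (rG : cj G = G) (rH : cj H = H)
    (ht : ∀ a b : ℝ, (a, b) ≠ (0, 0) → Tot (A.F s) (C (a : ℂ) * G + C (b : ℂ) * H)) :
    ∃ c N, A.Pk d ρ (s, c, N) := by
  set β := conj (eval (A.e 2) A.ψ * eval (ofR (A.P 8)) A.W)
  obtain ⟨a, b, hab, him⟩ : ∃ a b : ℝ, (a, b) ≠ (0, 0) ∧
      a * (eval (A.e 2) G * β).im + b * (eval (A.e 2) H * β).im = 0 := by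
    by_cases h : (eval (A.e 2) G * β).im = 0
    · exact ⟨1, 0, by simp, by rw [h]; ring⟩
    · exact ⟨(eval (A.e 2) H * β).im, -(eval (A.e 2) G * β).im,
        fun h' => h (neg_eq_zero.1 (Prod.ext_iff.1 h').2), by ring⟩
  obtain ⟨c, hc, ec⟩ := exists_frm ((hG.C_mul (a : ℂ)).add (hH.C_mul (b : ℂ))) hd (by simp [rG, rH])
  have hc0 : c ≠ 0 := by
    rintro rfl
    obtain ⟨p, h1, h2⟩ := hp
    refine h1 (ht a b hab p (fun h => h1 (h ▸ re3_zero)) h2 ?_)
    rw [← ec]; simp [frm]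
  have hn : ‖c‖⁻¹ ≠ 0 := by simpa using hc0
  set r := ‖c‖⁻¹
  have e1 : frm d 0 (r • c) = C ((r * a : ℝ) : ℂ) * G + C ((r * b : ℝ) : ℂ) * H := by
    rw [frm_smul, ec]; simp only [Complex.ofReal_mul, map_mul]; ring
  have hab' : (r * a, r * b) ≠ (0, 0) := by simpa [hn] using hab
  have key : ∀ j, ∃ N : Fin 3 → ℝ, N 2 = 1 ∧ dist N (A.P j) ≤ ρ j ∧ eval (ofR N) (A.F s) = 0 ∧
      eval (ofR N) (frm d 0 (r • c)) = 0 := fun j => by
    refine meet (K1 := C ((-(r * b) : ℝ) : ℂ) * G + C ((r * a : ℝ) : ℂ) * H) (A.F_hom s) hns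
      (cj_frm _ _ _) (by simp only [cj_add, cj_mul, cj_C, rG, rH, Complex.conj_ofReal])
      (fun μ => ?_) (hov j).1 (hov j).2
    have := ht (-(r * b) - μ * (r * a)) (r * a - μ * (r * b)) fun h => by
      obtain ⟨h1, h2⟩ := Prod.ext_iff.1 h
      simp only at h1 h2
      have ha : r * a = 0 := by
        have : (1 + μ ^ 2) * (r * a) = 0 := by linear_combination h2 - μ * h1
        exact (mul_eq_zero.1 this).resolve_left (by positivity)
      exact hab' (Prod.ext ha (by rw [ha] at h1; simpa using h1))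
    convert this using 1
    rw [e1]; simp only [Complex.ofReal_sub, Complex.ofReal_mul, Complex.ofReal_neg, map_sub,
      map_mul, map_neg]; ring
  choose N hN using key
  refine ⟨r • c, N, ?_, hc.smul r, hns, e1 ▸ ht _ _ hab', ?_, hN⟩
  · simp only [norm_smul, r, norm_inv, norm_norm]
    exact inv_mul_cancel₀ (by simpa using hc0)
  · change (eval (A.e 2) (frm d 0 (r • c)) * β).im = 0
    rw [e1]
    simp only [map_add, map_mul, eval_C, add_mul, mul_assoc, Complex.add_im, Complex.im_ofReal_mul]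
    linear_combination r * him

theorem no_pencil {d : ℕ} (hd : d ≤ 5) : ∀ᶠ s in 𝓝[>] (0 : ℝ), ∀ G H : CP, G.IsHomogeneous d →
    H.IsHomogeneous d → cj G = G → cj H = H →
    ¬ ∀ a b : ℝ, (a, b) ≠ (0, 0) → Tot (A.F s) (C (a : ℂ) * G + C (b : ℂ) * H) := by
  choose ρ hρ0 hρ1 hρ2 using A.oval
  by_contra hcon
  have hfr : ∃ᶠ s in 𝓝[>] (0 : ℝ), ∃ c N, A.Pk d ρ (s, c, N) := by
    refine ((not_eventually.1 hcon).and_eventually
      (A.ns.and (A.exists_nonreal.and (eventually_all.2 hρ2)))).mono ?_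
    rintro s ⟨h, h1, h2, h3⟩
    push Not at h
    obtain ⟨G, H, hG, hH, rG, rH, ht⟩ := h
    exact A.exists_pk hd h1 h2 h3 hG hH rG rH ht
  have hne : (comap (fun x : {x // A.Pk d ρ x} => x.1.1) (𝓝[>] (0 : ℝ))).NeBot := by
    refine comap_neBot fun U hU => ?_
    obtain ⟨s, ⟨c, N, h⟩, hs⟩ := (hfr.and_eventually hU).exists
    exact ⟨⟨_, h⟩, hs⟩
  set 𝒰 := Ultrafilter.of (comap (fun x : {x // A.Pk d ρ x} => x.1.1) (𝓝[>] (0 : ℝ)))
  have hs : Tendsto (fun x : {x // A.Pk d ρ x} => x.1.1) 𝒰 (𝓝[>] 0) :=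
    tendsto_comap.mono_left (Ultrafilter.of_le _)
  obtain ⟨c0, hc0, hc⟩ := (isCompact_sphere (0 : Arr) 1).ultrafilter_le_nhds
    (𝒰.map fun x => x.1.2.1) (by
      rw [le_principal_iff, Ultrafilter.coe_map, mem_map]
      exact univ_mem' fun x => by simpa using x.2.1)
  have hc' : Tendsto (fun x : {x // A.Pk d ρ x} => x.1.2.1) 𝒰 (𝓝 c0) := hc
  refine Seq.false (A := A) (𝒰 := 𝒰)
    { d := d, hd := hd, s := _, c := _, c0 := c0, hs := hs, hc := hc', c0_ne := ?_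
      supp := fun x => x.2.2.1, ns := .of_forall fun x => x.2.2.2.1
      tot := .of_forall fun x => x.2.2.2.2.1, N := fun j x => x.1.2.2 j, hN := fun j => ?_
      N2 := fun j => .of_forall fun x => ⟨(x.2.2.2.2.2.2 j).1, (x.2.2.2.2.2.2 j).2.2⟩, im := ?_ }
  · rintro rfl; simp at hc0
  · obtain ⟨N0, h0, hN⟩ := (isCompact_closedBall (A.P j) (ρ j)).ultrafilter_le_nhds
      (𝒰.map fun x => x.1.2.2 j) (by
        rw [le_principal_iff, Ultrafilter.coe_map, mem_map]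
        exact univ_mem' fun x => (x.2.2.2.2.2.2 j).2.1)
    have hN' : Tendsto (fun x : {x // A.Pk d ρ x} => x.1.2.2 j) 𝒰 (𝓝 N0) := hN
    have h2 : N0 2 = 1 := tendsto_nhds_unique (((continuous_apply 2).tendsto _).comp hN')
      (tendsto_const_nhds.congr fun x => (x.2.2.2.2.2.2 j).1.symm)
    have h3 : eval (ofR N0) (A.F 0) = 0 := tendsto_nhds_unique
      ((A.continuous_F.tendsto (0, ofR N0)).comp ((hs.mono_right nhdsWithin_le_nhds).prodMk_nhds
        ((continuous_ofR.tendsto _).comp hN')))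
      (tendsto_const_nhds.congr fun x => (x.2.2.2.2.2.2 j).2.2.1.symm)
    rw [hρ1 j N0 h2 h0 (by simpa [eval_F, h2, eval_cj_ofR] using h3)] at hN'
    exact hN'
  · exact tendsto_nhds_unique ((Complex.continuous_im.tendsto _).comp
      ((((continuous_frm d 0).tendsto (c0, A.e 2)).comp
        (hc'.prodMk_nhds tendsto_const_nhds)).mul_const _))
      (tendsto_const_nhds.congr fun x => x.2.2.2.2.2.1.symm)

end Fam

theorem exists_real {Q : CP} (h : cj Q = Q) :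
    ∃ F : MvPolynomial (Fin 3) ℝ, map (algebraMap ℝ ℂ) F = Q := by
  refine ⟨∑ m ∈ Q.support, monomial m (coeff m Q).re, ?_⟩
  conv_rhs => rw [Q.as_sum]
  rw [map_sum]
  refine Finset.sum_congr rfl fun m _ => ?_
  have := congrArg (coeff m) h
  rw [cj, coeff_map] at this
  rw [map_monomial]
  exact congrArg _ (Complex.conj_eq_iff_re.1 this)

theorem aeval_eq (F : MvPolynomial (Fin 3) ℝ) (p : V) :
    aeval p F = eval p (map (algebraMap ℝ ℂ) F) := by
  rw [aeval_def, eval_map]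

theorem cj_map (F : MvPolynomial (Fin 3) ℝ) :
    cj (map (algebraMap ℝ ℂ) F) = map (algebraMap ℝ ℂ) F := by
  ext m; simp [cj, coeff_map]

theorem mem_rpts {x : CP2} : x ∈ rpts ↔ Re3 x.rep := by
  constructor
  · rintro ⟨v, h, rfl⟩
    obtain ⟨a, ha⟩ := Projectivization.exists_smul_eq_mk_rep ℂ _ h
    rw [← ha]
    exact (re3_ofR v).smul a
  · intro h
    obtain ⟨c, v, hc, e⟩ := h.exists_ofR x.rep_nonzero
    have hv : ofR v ≠ 0 := fun h0 => x.rep_nonzero (by rw [e, h0, smul_zero])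
    refine ⟨v, hv, ?_⟩
    conv_lhs => rw [← x.mk_rep]
    exact (Projectivization.mk_eq_mk_iff' ℂ _ _ _ _).2 ⟨c, e.symm⟩

theorem isOpen_rep {U : Set V} (hU : IsOpen U) (hs : ∀ c : ℂ, c ≠ 0 → ∀ p ∈ U, c • p ∈ U) :
    IsOpen[projTop] {x : CP2 | x.rep ∈ U} := by
  rw [isOpen_coinduced]
  convert hU.preimage (continuous_subtype_val (p := fun v : V => v ≠ 0)) using 1
  ext v
  obtain ⟨a, ha⟩ := Projectivization.exists_smul_eq_mk_rep ℂ v.1 v.2
  simp only [Set.mem_preimage, Set.mem_ofPred_eq, ← ha]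
  exact ⟨fun h => by simpa [Units.smul_def] using hs (a : ℂ)⁻¹ (by simp) _ h,
    fun h => hs a a.ne_zero _ h⟩

theorem main : ∃ F : MvPolynomial (Fin 3) ℝ, F.IsHomogeneous 7 ∧ Nonsingular F ∧ Dividing F ∧
    ∀ d ≤ 5, ∀ G H : MvPolynomial (Fin 3) ℝ, G.IsHomogeneous d → H.IsHomogeneous d →
      ¬ IsTotal F G H := by
  obtain ⟨D⟩ := exists_data
  obtain ⟨A⟩ := D.exists_fam
  obtain ⟨s, hns, ⟨U, hU, hs, hdis, hcov⟩, ⟨p, hp, hp0⟩, hpen⟩ := (A.ns.and (A.div.and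
    (A.exists_nonreal.and (((Set.finite_Iic 5).eventually_all).2
      fun d hd => A.no_pencil hd)))).exists
  obtain ⟨F, hF⟩ := exists_real (A.cj_F s)
  have hmk : ∀ (K : MvPolynomial (Fin 3) ℝ) {n : ℕ}, K.IsHomogeneous n → ∀ (q : V) (h : q ≠ 0),
      aeval q K = 0 → Projectivization.mk ℂ q h ∈ cpts K := fun K n hK q h h0 => by
    obtain ⟨a, ha⟩ := Projectivization.exists_smul_eq_mk_rep ℂ q h
    change aeval _ K = 0
    rw [← ha, aeval_eq, Units.smul_def, eval_smul_hom (hK.map _), ← aeval_eq, h0, mul_zero]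
  have hre : ∀ (q : V) (h : q ≠ 0), Projectivization.mk ℂ q h ∈ rpts ↔ Re3 q := fun q h => by
    obtain ⟨a, ha⟩ := Projectivization.exists_smul_eq_mk_rep ℂ q h
    rw [mem_rpts, ← ha, Units.smul_def, re3_smul_iff a.ne_zero]
  have h7 : F.IsHomogeneous 7 :=
    IsHomogeneous.of_map (algebraMap ℝ ℂ).injective (hF ▸ A.F_hom s)
  refine ⟨F, h7, fun v hv h0 => ?_, fun hpre => ?_, fun d hd G H hG hH ht => ?_⟩
  · obtain ⟨e, he⟩ := hns v hv (by rwa [aeval_eq, hF] at h0)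
    obtain ⟨i, -, hi⟩ := Finset.exists_ne_zero_of_sum_ne_zero he
    exact ⟨i, by rw [aeval_eq, ← pderiv_map, hF]; exact left_ne_zero_of_mul hi⟩
  · have hs' : ∀ c : ℂ, c ≠ 0 → ∀ p ∈ star ⁻¹' U, c • p ∈ star ⁻¹' U := fun c hc p hp => by
      simpa using hs (conj c) (by simpa using hc) _ hp
    have hne : ∀ q : V, q ∈ U → ¬ Re3 q → eval q (A.F s) = 0 →
        ((cpts F \ rpts) ∩ {x : CP2 | x.rep ∈ U}).Nonempty ∧
        ((cpts F \ rpts) ∩ {x : CP2 | x.rep ∈ star ⁻¹' U}).Nonempty := fun q hq h1 h2 => by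
      have q0 : q ≠ 0 := fun h => h1 (h ▸ re3_zero)
      have q1 : star q ≠ 0 := by simpa using q0
      obtain ⟨a, ha⟩ := Projectivization.exists_smul_eq_mk_rep ℂ q q0
      obtain ⟨b, hb⟩ := Projectivization.exists_smul_eq_mk_rep ℂ _ q1
      refine ⟨⟨_, ⟨hmk F h7 q q0 (by rw [aeval_eq, hF, h2]), fun h => h1 ((hre _ _).1 h)⟩, ?_⟩,
        ⟨_, ⟨hmk F h7 _ q1 (by rw [aeval_eq, hF, eval_star, A.cj_F, h2, map_zero]),
          fun h => h1 (by simpa using ((hre _ _).1 h).star)⟩, ?_⟩⟩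
      · change _ ∈ U
        rw [← ha]; exact hs a a.ne_zero _ hq
      · change _ ∈ star ⁻¹' U
        rw [← hb]; exact hs' b b.ne_zero _ (by simpa using hq)
    have q0 : p ≠ 0 := fun h => hp (h ▸ re3_zero)
    obtain ⟨n1, n2⟩ := (hcov p q0 hp0 hp).elim (fun h => hne p h hp hp0) fun h =>
      hne _ h (fun h' => hp (by simpa using h'.star)) (by rw [eval_star, A.cj_F, hp0, map_zero])
    obtain ⟨x, ⟨x1, -⟩, x2, x3⟩ := hpre _ _ (isOpen_rep hU hs)
      (isOpen_rep (hU.preimage continuous_star) hs') (fun x hx => hcov _ x.rep_nonzero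
        (by rw [← hF, ← aeval_eq]; exact hx.1) fun h => hx.2 (mem_rpts.2 h)) n1 n2
    exact hdis _ x2 x.rep_nonzero (by rw [← hF, ← aeval_eq]; exact x1) x3
  · refine hpen d hd _ _ (hG.map _) (hH.map _) (cj_map G) (cj_map H) fun a b hab q q0 h1 h2 => ?_
    refine (hre q q0).1 (ht a b hab ⟨hmk F h7 q q0 (by rw [aeval_eq, hF, h1]),
      hmk _ ((hG.C_mul a).add (hH.C_mul b)) q q0 ?_⟩)
    rw [aeval_eq]; simpa using h2

end Pool.Agent.MP_42957e_ag

end
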