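import Pool.Agent.MP_42957e_ag.Defs

section

set_option autoImplicit false

namespace Pool.Agent.MP_42957e_ag

open MvPolynomial Filter Topology Asymptotics
open scoped ComplexConjugate

abbrev V : Type := Fin 3 → ℂ
abbrev CP : Type := MvPolynomial (Fin 3) ℂ

/-- conjugate polynomial -/
noncomputable def cj (q : CP) : CP := map (starRingEnd ℂ) q

/-- directional derivative of `q` at `p` along `e` -/
noncomputable def dv (q : CP) (p e : V) : ℂ := ∑ i, eval p (pderiv i q) * e i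

/-- projectively real vectors -/
def Re3 (p : V) : Prop := ∀ i j, (p i * conj (p j)).im = 0

def ofR (v : Fin 3 → ℝ) : V := fun i => (v i : ℂ)

/-- linear form with coefficient vector `a` -/
noncomputable def lf (a : V) : CP := ∑ i, C (a i) * X i

/-- the curve `F = 0` is nonsingular -/
def NSg (F : CP) : Prop := ∀ p : V, p ≠ 0 → eval p F = 0 → ∃ e, dv F p e ≠ 0

/-- `K = 0` meets `F = 0` in real points only -/
def Tot (F K : CP) : Prop := ∀ p : V, p ≠ 0 → eval p F = 0 → eval p K = 0 → Re3 p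

@[simp] theorem cj_add (p q : CP) : cj (p + q) = cj p + cj q := by simp [cj]
@[simp] theorem cj_sub (p q : CP) : cj (p - q) = cj p - cj q := by simp [cj]
@[simp] theorem cj_mul (p q : CP) : cj (p * q) = cj p * cj q := by simp [cj]
@[simp] theorem cj_pow (p : CP) (n : ℕ) : cj (p ^ n) = cj p ^ n := by simp [cj]
@[simp] theorem cj_C (a : ℂ) : cj (C a) = C (conj a) := by simp [cj]
@[simp] theorem cj_X (i : Fin 3) : cj (X i) = X i := by simp [cj]
@[simp] theorem cj_zero : cj 0 = 0 := by simp [cj]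
theorem cj_sum {ι : Type*} (s : Finset ι) (f : ι → CP) : cj (∑ i ∈ s, f i) = ∑ i ∈ s, cj (f i) := by
  simp [cj]

@[simp] theorem cj_cj (q : CP) : cj (cj q) = q := by
  induction q using MvPolynomial.induction_on with
  | C a => simp
  | add p q hp hq => simp [hp, hq]
  | mul_X p i hp => simp [hp]

theorem cj_hom {q : CP} {n : ℕ} (h : q.IsHomogeneous n) : (cj q).IsHomogeneous n := h.map _

theorem eval_cj (q : CP) (p : V) : eval p (cj q) = conj (eval (star p) q) := by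
  induction q using MvPolynomial.induction_on with
  | C a => simp
  | add p q hp hq => simp [hp, hq]
  | mul_X p i hp => simp [hp]

theorem eval_star (q : CP) (p : V) : eval (star p) q = conj (eval p (cj q)) := by
  rw [eval_cj, Complex.conj_conj]

@[simp] theorem star_ofR (v : Fin 3 → ℝ) : star (ofR v) = ofR v := by
  ext i; simp [ofR]

@[simp] theorem ofR_apply (v : Fin 3 → ℝ) (i : Fin 3) : ofR v i = (v i : ℂ) := rfl

theorem eval_cj_ofR (q : CP) (v : Fin 3 → ℝ) : eval (ofR v) (cj q) = conj (eval (ofR v) q) := by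
  rw [eval_cj, star_ofR]

theorem continuous_ofR : Continuous ofR := by
  unfold ofR; fun_prop

theorem eval_lf (a p : V) : eval p (lf a) = a 0 * p 0 + a 1 * p 1 + a 2 * p 2 := by
  simp [lf, Fin.sum_univ_three]

theorem lf_hom (a : V) : (lf a).IsHomogeneous 1 :=
  IsHomogeneous.sum _ _ _ fun i _ => by
    simpa using (isHomogeneous_C _ (a i)).mul (isHomogeneous_X ℂ i)

theorem cj_lf (a : V) : cj (lf a) = lf (star a) := by
  simp [lf, cj_sum]

@[simp] theorem dv_add (q r : CP) (p e : V) : dv (q + r) p e = dv q p e + dv r p e := by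
  simp [dv, add_mul, Finset.sum_add_distrib]

@[simp] theorem dv_sub (q r : CP) (p e : V) : dv (q - r) p e = dv q p e - dv r p e := by
  simp [dv, sub_mul, Finset.sum_sub_distrib]

@[simp] theorem dv_mul (q r : CP) (p e : V) :
    dv (q * r) p e = dv q p e * eval p r + eval p q * dv r p e := by
  simp only [dv, Derivation.leibniz, smul_eq_mul, map_add, map_mul, Fin.sum_univ_three]; ring

@[simp] theorem dv_C (a : ℂ) (p e : V) : dv (C a) p e = 0 := by simp [dv]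

@[simp] theorem dv_X (i : Fin 3) (p e : V) : dv (X i) p e = e i := by
  simp [dv, pderiv_X, Pi.single_apply]

@[simp] theorem dv_pow (q : CP) (n : ℕ) (p e : V) :
    dv (q ^ n) p e = n * eval p q ^ (n - 1) * dv q p e := by
  simp only [dv, Derivation.leibniz_pow, smul_eq_mul, nsmul_eq_mul, map_mul, map_natCast,
    map_pow, Fin.sum_univ_three]
  ring

theorem dv_lf (a p e : V) : dv (lf a) p e = eval e (lf a) := by
  rw [eval_lf]; simp [lf, Fin.sum_univ_three]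

theorem dv_add_right (q : CP) (p e e' : V) : dv q p (e + e') = dv q p e + dv q p e' := by
  simp [dv, mul_add, Finset.sum_add_distrib]

theorem dv_sub_right (q : CP) (p e e' : V) : dv q p (e - e') = dv q p e - dv q p e' := by
  simp [dv, mul_sub, Finset.sum_sub_distrib]

theorem dv_smul_right (q : CP) (p e : V) (c : ℂ) : dv q p (c • e) = c * dv q p e := by
  simp only [dv, Pi.smul_apply, smul_eq_mul, Fin.sum_univ_three]; ring

theorem dv_cj (q : CP) (p e : V) : dv (cj q) p e = conj (dv q (star p) (star e)) := by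
  simp only [dv, map_sum, map_mul, Pi.star_apply, Complex.star_def, Complex.conj_conj]
  refine Finset.sum_congr rfl fun i _ => ?_
  rw [← eval_cj, cj, cj, pderiv_map]

/-- the derivative as a continuous linear map -/
noncomputable def dvL (q : CP) (p : V) : V →L[ℂ] ℂ :=
  ∑ i, eval p (pderiv i q) • ContinuousLinearMap.proj (R := ℂ) (φ := fun _ : Fin 3 => ℂ) i

@[simp] theorem dvL_apply (q : CP) (p e : V) : dvL q p e = dv q p e := by
  simp [dvL, dv]

theorem hasStrictFDerivAt_eval (q : CP) (p : V) :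
    HasStrictFDerivAt (fun x : V => eval x q) (dvL q p) p := by
  induction q using MvPolynomial.induction_on with
  | C a =>
    have : dvL (C a) p = 0 := by ext e; simp
    simpa [this] using hasStrictFDerivAt_const a p
  | add q r hq hr =>
    have : dvL (q + r) p = dvL q p + dvL r p := by ext e; simp
    simp only [this, map_add]
    exact hq.add hr
  | mul_X q i hq =>
    have h := hq.mul (hasStrictFDerivAt_apply (𝕜 := ℂ) i p)
    have : dvL (q * X i) p = eval p q • ContinuousLinearMap.proj (R := ℂ)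
        (φ := fun _ : Fin 3 => ℂ) i + p i • dvL q p := by
      ext e; simp; ring
    simp only [this, map_mul, eval_X]
    exact h

theorem contDiff_eval (q : CP) {n : WithTop ℕ∞} : ContDiff ℂ n (fun x : V => eval x q) :=
  (AnalyticOnNhd.eval_mvPolynomial q).contDiff

@[fun_prop] theorem continuous_evalV (q : CP) : Continuous (fun x : V => eval x q) :=
  (contDiff_eval q (n := 0)).continuous

@[fun_prop] theorem differentiable_evalV (q : CP) : Differentiable ℂ (fun x : V => eval x q) :=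
  fun p => (hasStrictFDerivAt_eval q p).differentiableAt

@[fun_prop] theorem continuous_dv (q : CP) (e : V) : Continuous (fun x : V => dv q x e) := by
  unfold dv; fun_prop

theorem tendsto_eval {ι : Type*} {l : Filter ι} {p : ι → V} {p0 : V} (h : Tendsto p l (𝓝 p0))
    (q : CP) : Tendsto (fun i => eval (p i) q) l (𝓝 (eval p0 q)) :=
  ((continuous_evalV q).tendsto p0).comp h

theorem tendsto_dv {ι : Type*} {l : Filter ι} {p : ι → V} {p0 : V} (h : Tendsto p l (𝓝 p0))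
    (q : CP) (e : V) : Tendsto (fun i => dv q (p i) e) l (𝓝 (dv q p0 e)) :=
  ((continuous_dv q e).tendsto p0).comp h

theorem hasDerivAt_eval (q : CP) {g : ℂ → V} {g' : V} {t : ℂ} (h : HasDerivAt g g' t) :
    HasDerivAt (fun t => eval (g t) q) (dv q (g t) g') t := by
  rw [← dvL_apply]
  exact (hasStrictFDerivAt_eval q (g t)).hasFDerivAt.comp_hasDerivAt t h

theorem eval_smul_hom {q : CP} {n : ℕ} (h : q.IsHomogeneous n) (c : ℂ) (p : V) :
    eval (c • p) q = c ^ n * eval p q := by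
  rw [eval_eq', eval_eq', Finset.mul_sum]
  refine Finset.sum_congr rfl fun m hm => ?_
  have := h (mem_support_iff.1 hm)
  rw [← this, Finsupp.weight_apply, Finsupp.sum_fintype _ _ (by simp)]
  simp only [Pi.smul_apply, smul_eq_mul, mul_pow, Fin.prod_univ_three, Fin.sum_univ_three,
    Pi.one_apply, mul_one, pow_add]
  ring

theorem dv_smul_hom {q : CP} {n : ℕ} (h : q.IsHomogeneous n) (c : ℂ) (p e : V) :
    dv q (c • p) e = c ^ (n - 1) * dv q p e := by
  simp only [dv, eval_smul_hom h.pderiv, Fin.sum_univ_three]; ring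

theorem euler {q : CP} {n : ℕ} (h : q.IsHomogeneous n) (p : V) : dv q p p = n * eval p q := by
  have := congrArg (eval p) h.sum_X_mul_pderiv
  simp only [map_sum, map_mul, eval_X, nsmul_eq_mul, map_natCast] at this
  rw [← this, dv]
  exact Finset.sum_congr rfl fun i _ => mul_comm _ _

/-- first order expansion of differences -/
theorem diff_isLittleO {ι : Type*} {l : Filter ι} {p p' : ι → V} {p0 : V}
    (h : Tendsto p l (𝓝 p0)) (h' : Tendsto p' l (𝓝 p0)) (q : CP) :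
    (fun i => eval (p i) q - eval (p' i) q - dv q p0 (p i - p' i)) =o[l] fun i => p i - p' i := by
  have := (hasStrictFDerivAt_eval q p0).isLittleO.comp_tendsto (h.prodMk_nhds h')
  simp only [Function.comp_def, dvL_apply] at this
  exact this

theorem diff_isBigO {ι : Type*} {l : Filter ι} {p p' : ι → V} {p0 : V}
    (h : Tendsto p l (𝓝 p0)) (h' : Tendsto p' l (𝓝 p0)) (q : CP) :
    (fun i => eval (p i) q - eval (p' i) q) =O[l] fun i => p i - p' i := by
  have := (hasStrictFDerivAt_eval q p0).isBigO_sub.comp_tendsto (h.prodMk_nhds h')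
  simp only [Function.comp_def] at this
  exact this

/-- three jointly injective functionals control the vector -/
theorem isBigO_of_inj {ι : Type*} {l : Filter ι} {E : Type*} [NormedAddCommGroup E] {v : ι → V}
    {r : ι → E} (A B D : V →L[ℂ] ℂ) (hinj : ∀ x, A x = 0 → B x = 0 → D x = 0 → x = 0)
    {a b d : ι → ℂ} (ha : a =O[l] r) (hb : b =O[l] r) (hd : d =O[l] r)
    (hA : (fun i => a i - A (v i)) =o[l] v) (hB : (fun i => b i - B (v i)) =o[l] v)
    (hD : (fun i => d i - D (v i)) =o[l] v) : v =O[l] r := by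
  set L : V →L[ℂ] ℂ × ℂ × ℂ := A.prod (B.prod D)
  obtain ⟨K, -, hK⟩ := LinearMap.exists_antilipschitzWith (L : V →ₗ[ℂ] ℂ × ℂ × ℂ)
    (LinearMap.ker_eq_bot'.2 fun x hx => by
      have hx' : (A x, B x, D x) = 0 := hx
      simp only [Prod.mk_eq_zero] at hx'
      exact hinj x hx'.1 hx'.2.1 hx'.2.2)
  have h1 : v =O[l] fun i => L (v i) :=
    IsBigO.of_bound K (Eventually.of_forall fun i => by simpa using hK.le_mul_dist (v i) 0)
  have h2 : (fun i => ((a i, b i, d i) : ℂ × ℂ × ℂ) - L (v i)) =o[l] v :=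
    hA.prod_left (hB.prod_left hD)
  have h3 : (fun i => ((a i, b i, d i) : ℂ × ℂ × ℂ)) =O[l] r := ha.prod_left (hb.prod_left hd)
  have h4 := (h2.trans_isBigO h1).right_isBigO_add
  simp only [sub_add_cancel] at h4
  exact h1.trans (h4.trans h3)

theorem eventually_eq_zero_of_inj {ι : Type*} {l : Filter ι} {v : ι → V}
    (A B D : V →L[ℂ] ℂ) (hinj : ∀ x, A x = 0 → B x = 0 → D x = 0 → x = 0)
    (hA : (fun i => A (v i)) =o[l] v) (hB : (fun i => B (v i)) =o[l] v)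
    (hD : (fun i => D (v i)) =o[l] v) : ∀ᶠ i in l, v i = 0 := by
  have := isBigO_of_inj (r := fun _ : ι => (0 : ℝ)) (a := fun _ => 0) (b := fun _ => 0)
    (d := fun _ => 0) A B D hinj (isBigO_zero _ _) (isBigO_zero _ _) (isBigO_zero _ _)
    (by simpa using hA) (by simpa using hB) (by simpa using hD)
  exact isBigO_zero_right_iff.1 this

theorem exists_dual (A B D : V →L[ℂ] ℂ) (hinj : ∀ x, A x = 0 → B x = 0 → D x = 0 → x = 0)
    (a b d : ℂ) : ∃ x, A x = a ∧ B x = b ∧ D x = d := by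
  set L : V →ₗ[ℂ] V := LinearMap.pi ![(A : V →ₗ[ℂ] ℂ), B, D]
  have hi : Function.Injective L := LinearMap.ker_eq_bot.1 (LinearMap.ker_eq_bot'.2 fun x hx =>
    hinj x (congrFun hx 0) (congrFun hx 1) (congrFun hx 2))
  obtain ⟨x, hx⟩ := LinearMap.injective_iff_surjective.1 hi ![a, b, d]
  exact ⟨x, congrFun hx 0, congrFun hx 1, congrFun hx 2⟩

theorem re3_ofR (v : Fin 3 → ℝ) : Re3 (ofR v) := fun i j => by simp

theorem Re3.smul {p : V} (h : Re3 p) (c : ℂ) : Re3 (c • p) := fun i j => by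
  have : (c • p) i * conj ((c • p) j) = (Complex.normSq c : ℂ) * (p i * conj (p j)) := by
    simp only [Pi.smul_apply, smul_eq_mul, map_mul, Complex.normSq_eq_conj_mul_self]; ring
  rw [this, Complex.im_ofReal_mul, h i j, mul_zero]

theorem re3_smul_iff {p : V} {c : ℂ} (hc : c ≠ 0) : Re3 (c • p) ↔ Re3 p :=
  ⟨fun h => by simpa [hc] using h.smul c⁻¹, fun h => h.smul c⟩

theorem Re3.star {p : V} (h : Re3 p) : Re3 (star p) := fun i j => by
  have := h j i
  simpa [mul_comm] using this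

theorem re3_of_star_eq {p : V} (h : star p = p) : Re3 p := fun i j => by
  have h1 : (p i).im = 0 := Complex.conj_eq_iff_im.1 (congrFun h i)
  have h2 : (p j).im = 0 := Complex.conj_eq_iff_im.1 (congrFun h j)
  simp [h1, h2]

theorem isClosed_re3 : IsClosed {p : V | Re3 p} := by
  simp only [Re3, Set.ofPred_forall]
  exact isClosed_iInter fun i => isClosed_iInter fun j => isClosed_eq (by fun_prop) continuous_const

theorem Re3.eq_ofR {p : V} (h : Re3 p) {k : Fin 3} (hk : p k = 1) :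
    p = ofR fun i => (p i).re := by
  ext i
  have := h i k
  simp only [hk, map_one, mul_one] at this
  exact Complex.ext (by simp) (by simp [this])

theorem Re3.exists_ofR {p : V} (h : Re3 p) (hp : p ≠ 0) :
    ∃ (c : ℂ) (v : Fin 3 → ℝ), c ≠ 0 ∧ p = c • ofR v := by
  obtain ⟨k, hk⟩ := Function.ne_iff.1 hp
  have hk' : p k ≠ 0 := hk
  refine ⟨p k, fun i => (((p k)⁻¹ • p) i).re, hk', ?_⟩
  rw [← (h.smul (p k)⁻¹).eq_ofR (k := k) (by simp [hk']), smul_smul, mul_inv_cancel₀ hk', one_smul]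

/-- compactness of the projective plane: a scale invariant property that holds for arbitrarily
small `s` holds along a filter on which the points converge to a nonzero vector. -/
theorem eventually_forall_of_local (Q : ℝ → V → Prop)
    (hs : ∀ s p (c : ℂ), c ≠ 0 → Q s p → Q s (c • p))
    (h : ∀ (l : Filter (ℝ × V)) [l.NeBot] (p0 : V), p0 ≠ 0 →
      Tendsto Prod.fst l (𝓝[>] 0) → Tendsto Prod.snd l (𝓝 p0) → (∀ᶠ x in l, Q x.1 x.2) → False) :
    ∀ᶠ s in 𝓝[>] (0 : ℝ), ∀ p, p ≠ 0 → ¬ Q s p := by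
  have key : ∀ᶠ s in 𝓝 (0 : ℝ), ∀ p ∈ Metric.sphere (0 : V) 1, 0 < s → ¬ Q s p := by
    refine (isCompact_sphere _ _).eventually_forall_of_forall_eventually fun p0 hp0 => ?_
    by_contra hn
    have hne : (𝓝 ((0 : ℝ), p0) ⊓ 𝓟 {x | 0 < x.1 ∧ Q x.1 x.2}).NeBot := by
      refine frequently_iff_neBot.1 fun hc => hn (hc.mono fun x hx h1 h2 => hx ⟨h1, h2⟩)
    refine h (𝓝 ((0 : ℝ), p0) ⊓ 𝓟 {x | 0 < x.1 ∧ Q x.1 x.2}) p0 ?_ ?_ ?_ ?_
    · rintro rfl; simp at hp0
    · refine tendsto_nhdsWithin_iff.2 ⟨(continuous_fst.tendsto _).mono_left inf_le_left, ?_⟩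
      exact mem_inf_of_right fun x hx => hx.1
    · exact (continuous_snd.tendsto _).mono_left inf_le_left
    · exact mem_inf_of_right fun x hx => hx.2
  filter_upwards [nhdsWithin_le_nhds key, self_mem_nhdsWithin] with s h1 h2 p hp hQ
  have hn : (‖p‖ : ℂ) ≠ 0 := by simpa using hp
  refine h1 ((‖p‖ : ℂ)⁻¹ • p) ?_ h2 (hs _ _ _ (inv_ne_zero hn) hQ)
  simp [norm_smul, hp]

/-- a two by two linear system with convergent coefficients and invertible limit -/
theorem tendsto_solve {ι : Type*} {l : Filter ι} {a b α β γ δ ρ σ : ι → ℂ}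
    {α0 β0 γ0 δ0 ρ0 σ0 : ℂ} (hα : Tendsto α l (𝓝 α0)) (hβ : Tendsto β l (𝓝 β0))
    (hγ : Tendsto γ l (𝓝 γ0)) (hδ : Tendsto δ l (𝓝 δ0)) (hρ : Tendsto ρ l (𝓝 ρ0))
    (hσ : Tendsto σ l (𝓝 σ0)) (hdet : α0 * δ0 - β0 * γ0 ≠ 0)
    (h1 : ∀ᶠ i in l, α i * a i + β i * b i = ρ i) (h2 : ∀ᶠ i in l, γ i * a i + δ i * b i = σ i) :
    ∃ a0 b0, Tendsto a l (𝓝 a0) ∧ Tendsto b l (𝓝 b0) := by
  have hd := (hα.mul hδ).sub (hβ.mul hγ)
  refine ⟨_, _, (((hρ.mul hδ).sub (hβ.mul hσ)).div hd hdet).congr' ?_,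
    (((hα.mul hσ).sub (hρ.mul hγ)).div hd hdet).congr' ?_⟩
  · filter_upwards [h1, h2, hd.eventually_ne hdet] with i e1 e2 e3
    simp only [Pi.div_apply]
    rw [div_eq_iff e3, ← e1, ← e2]; ring
  · filter_upwards [h1, h2, hd.eventually_ne hdet] with i e1 e2 e3
    simp only [Pi.div_apply]
    rw [div_eq_iff e3, ← e1, ← e2]; ring

end Pool.Agent.MP_42957e_ag

end

section

set_option autoImplicit false

namespace Pool.Agent.MP_42957e_ag

open MvPolynomial Filter Topology Asymptotics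
open scoped ComplexConjugate

/-- parametrisation of the nodal cubic (node `e 2 = - xp e 0`) -/
noncomputable def xp (e : Fin 3 → V) (τ : ℂ) : V := τ • e 0 + τ ^ 2 • e 1 + (τ ^ 3 - 1) • e 2

/-- the nodal cubic `X Y Z + X ^ 3 - Y ^ 3` in the coordinates given by the forms `a` -/
noncomputable def cub (a : Fin 3 → V) : CP :=
  lf (a 0) * lf (a 1) * lf (a 2) + lf (a 0) ^ 3 - lf (a 1) ^ 3

/-- point of the line `z = 0` -/
def zp (t : ℂ) : V := ![t, 1, 0]

/-- A non-real nodal cubic with nine real points in general position that meets the line `z = 0`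
in three points of the upper half. -/
structure Data where
  e : Fin 3 → V
  a : Fin 3 → V
  dual : ∀ i j, eval (e j) (lf (a i)) = if i = j then 1 else 0
  θ : Fin 9 → ℂ
  P : Fin 9 → Fin 3 → ℝ
  u : Fin 9 → ℂ
  γ : Fin 3 → ℂ
  t : Fin 3 → ℂ
  v : Fin 3 → ℂ
  θ_inj : Function.Injective θ
  γ_inj : Function.Injective γ
  xθ : ∀ j, xp e (θ j) = u j • ofR (P j)
  P2 : ∀ j, P j 2 = 1
  ψe : eval (e 2) (cj (cub a)) ≠ 0
  ψx : ∀ τ, eval (xp e τ) (cj (cub a)) = eval (e 2) (cj (cub a)) * ∏ j, (τ - θ j)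
  ze : e 2 2 ≠ 0
  zx : ∀ τ, xp e τ 2 = e 2 2 * ∏ i, (τ - γ i)
  xγ : ∀ i, xp e (γ i) = v i • zp (t i)
  t_pos : ∀ i, 0 < (t i).im
  gen : ∀ S : Multiset ℂ, (∀ r ∈ S, (∃ j, r = θ j) ∨ ∃ i, r = γ i) → S.card = 6 → S.prod = 1 →
    ∀ i, γ i ∈ S

/-- The data of the perturbation. -/
structure Fam extends Data where
  W : CP
  W_hom : W.IsHomogeneous 4
  WP : ∀ j, j ≠ 8 → eval (ofR (P j)) W = 0
  Wz : ∀ i, eval (zp (t i)) W ≠ 0
  We : eval (e 2) W ≠ 0
  η : ℝ
  η_pos : 0 < η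
  ρ : Fin 9 → ℂ
  cb : ∀ K : CP, K.IsHomogeneous 3 → ∑ j, ρ j * eval (ofR (P j)) K = 0
  η_lt : √η * ∑ j, ‖ρ j‖ < ‖ρ 8‖ * ‖eval (ofR (P 8)) W‖
  rat : ∀ p : Polynomial ℂ, (∀ r, p.eval r = 0 → r.im = 0) → p.natDegree ≤ 19 →
    ∀ w : ℕ, 1 ≤ w → w ≤ 2 → ∀ κ : ℂ, κ ≠ 0 →
    (∀ i, p.eval (t i) = κ * eval (zp (t i)) W ^ w * eval (zp (t i)) (cj (cub a)) ^ (w + 1)) → False

noncomputable abbrev Data.φ (D : Data) : CP := cub D.a
noncomputable abbrev Data.ψ (D : Data) : CP := cj (cub D.a)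
noncomputable abbrev Data.x (D : Data) (τ : ℂ) : V := xp D.e τ

namespace Fam

variable (A : Fam)

noncomputable def lam : ℂ := conj (eval (ofR (A.P 8)) A.W) / 2
noncomputable def G : CP := A.φ * cj A.W + A.ψ * A.W
noncomputable def R : CP :=
  X 2 ^ 2 * (C A.lam * A.W + C (conj A.lam) * cj A.W) - C (A.η : ℂ) * X 2 ^ 6
/-- the septic -/
noncomputable def F (s : ℝ) : CP :=
  X 2 * A.φ * A.ψ + C (s : ℂ) * A.G + C ((s : ℂ) ^ 2) * (X 2 * A.R)
noncomputable def φt (s : ℝ) : CP := X 2 * A.φ + C (s : ℂ) * A.W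
noncomputable def ψt (s : ℝ) : CP := X 2 * A.ψ + C (s : ℂ) * cj A.W
noncomputable def T : CP := A.W * cj A.W - X 2 ^ 2 * A.R

end Fam

theorem cub_hom (a : Fin 3 → V) : (cub a).IsHomogeneous 3 :=
  ((((lf_hom _).mul (lf_hom _)).mul (lf_hom _)).add ((lf_hom _).pow 3)).sub ((lf_hom _).pow 3)

theorem Data.φ_hom (D : Data) : D.φ.IsHomogeneous 3 := cub_hom _
theorem Data.ψ_hom (D : Data) : D.ψ.IsHomogeneous 3 := cj_hom (cub_hom _)

namespace Fam

variable (A : Fam)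

theorem G_hom : A.G.IsHomogeneous 7 :=
  (A.φ_hom.mul (cj_hom A.W_hom)).add (A.ψ_hom.mul A.W_hom)

theorem R_hom : A.R.IsHomogeneous 6 :=
  (((isHomogeneous_X ℂ 2).pow 2).mul ((A.W_hom.C_mul _).add ((cj_hom A.W_hom).C_mul _))).sub
    (((isHomogeneous_X ℂ 2).pow 6).C_mul _)

theorem F_hom (s : ℝ) : (A.F s).IsHomogeneous 7 :=
  ((((isHomogeneous_X ℂ 2).mul A.φ_hom).mul A.ψ_hom).add (A.G_hom.C_mul _)).add
    (((isHomogeneous_X ℂ 2).mul A.R_hom).C_mul _)

theorem φt_hom (s : ℝ) : (A.φt s).IsHomogeneous 4 :=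
  ((isHomogeneous_X ℂ 2).mul A.φ_hom).add (A.W_hom.C_mul _)

theorem ψt_hom (s : ℝ) : (A.ψt s).IsHomogeneous 4 :=
  ((isHomogeneous_X ℂ 2).mul A.ψ_hom).add ((cj_hom A.W_hom).C_mul _)

theorem T_hom : A.T.IsHomogeneous 8 :=
  (A.W_hom.mul (cj_hom A.W_hom)).sub (((isHomogeneous_X ℂ 2).pow 2).mul A.R_hom)

@[simp] theorem cj_G : cj A.G = A.G := by simp [G, add_comm]
@[simp] theorem cj_R : cj A.R = A.R := by simp [R, add_comm]
@[simp] theorem cj_T : cj A.T = A.T := by simp [T, mul_comm]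
@[simp] theorem cj_φt (s : ℝ) : cj (A.φt s) = A.ψt s := by simp [φt, ψt]
@[simp] theorem cj_ψt (s : ℝ) : cj (A.ψt s) = A.φt s := by simp [φt, ψt]
@[simp] theorem cj_F (s : ℝ) : cj (A.F s) = A.F s := by
  simp only [F, cj_add, cj_mul, cj_X, cj_cj, cj_C, cj_G, cj_R, map_pow, cj_pow, Complex.conj_ofReal]
  ring

theorem X_mul_F (s : ℝ) : X 2 * A.F s = A.φt s * A.ψt s - C ((s : ℂ) ^ 2) * A.T := by
  simp only [F, φt, ψt, T, G, map_pow]; ring

theorem eval_F (s : ℝ) (p : V) : eval p (A.F s) = p 2 * eval p A.φ * eval p A.ψ +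
    s * eval p A.G + (s : ℂ) ^ 2 * (p 2 * eval p A.R) := by
  simp [F]

theorem eval_φt (s : ℝ) (p : V) : eval p (A.φt s) = p 2 * eval p A.φ + s * eval p A.W := by
  simp [φt]

theorem eval_ψt (s : ℝ) (p : V) : eval p (A.ψt s) = p 2 * eval p A.ψ + s * eval p (cj A.W) := by
  simp [ψt]

theorem eval_G (p : V) :
    eval p A.G = eval p A.φ * eval p (cj A.W) + eval p A.ψ * eval p A.W := by
  simp [G]

theorem mul_eval_F (s : ℝ) (p : V) : p 2 * eval p (A.F s) =
    eval p (A.φt s) * eval p (A.ψt s) - (s : ℂ) ^ 2 * eval p A.T := by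
  simpa using congrArg (eval p) (A.X_mul_F s)

theorem T_P (j : Fin 9) : eval (ofR (A.P j)) A.T = A.η := by
  have h2 : ofR (A.P j) 2 = 1 := by simp [A.P2]
  simp only [T, R, map_sub, map_mul, map_pow, map_add, eval_X, eval_C, h2, eval_cj_ofR]
  by_cases hj : j = 8
  · subst hj; simp only [lam, map_div₀, Complex.conj_conj, map_ofNat]; ring
  · simp [A.WP j hj]

theorem continuous_F : Continuous fun x : ℝ × V => eval x.2 (A.F x.1) := by
  simp only [eval_F]; fun_prop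

end Fam

/-- coefficient arrays of real forms of degree at most five -/
abbrev Arr : Type := Fin 6 → Fin 6 → ℝ

/-- the form with coefficient array `c`, divided by `z ^ w` -/
noncomputable def frm (d w : ℕ) (c : Arr) : CP :=
  ∑ a : Fin 6, ∑ b : Fin 6,
    C (c a b : ℂ) * (X 2 ^ ((a : ℕ) - w) * X 0 ^ (b : ℕ) * X 1 ^ (d - a - b))

def Supp (d w : ℕ) (c : Arr) : Prop := ∀ a b, c a b ≠ 0 → w ≤ (a : ℕ) ∧ (a : ℕ) + b ≤ d

/-- row `a` of the array as a polynomial in one variable -/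
noncomputable def rowP (c : Arr) (a : Fin 6) : Polynomial ℂ :=
  ∑ b : Fin 6, Polynomial.C (c a b : ℂ) * Polynomial.X ^ (b : ℕ)

/-- A net of members of total pencils. -/
structure Seq (A : Fam) (ι : Type) (𝒰 : Ultrafilter ι) where
  d : ℕ
  hd : d ≤ 5
  s : ι → ℝ
  c : ι → Arr
  c0 : Arr
  hs : Tendsto s 𝒰 (𝓝[>] 0)
  hc : Tendsto c 𝒰 (𝓝 c0)
  c0_ne : c0 ≠ 0
  supp : ∀ i, Supp d 0 (c i)
  ns : ∀ᶠ i in 𝒰, NSg (A.F (s i))
  tot : ∀ᶠ i in 𝒰, Tot (A.F (s i)) (frm d 0 (c i))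
  N : Fin 9 → ι → Fin 3 → ℝ
  hN : ∀ j, Tendsto (N j) 𝒰 (𝓝 (A.P j))
  N2 : ∀ j, ∀ᶠ i in 𝒰, N j i 2 = 1 ∧ eval (ofR (N j i)) (A.F (s i)) = 0 ∧
    eval (ofR (N j i)) (frm d 0 (c i)) = 0
  im : (eval (A.e 2) (frm d 0 c0) * conj (eval (A.e 2) A.ψ * eval (ofR (A.P 8)) A.W)).im = 0

/-- affine chart -/
noncomputable def ch (p0 e e' : V) (q : ℂ × ℂ) : V := p0 + q.1 • e + q.2 • e'

end Pool.Agent.MP_42957e_ag

end

section

set_option autoImplicit false

namespace Pool.Agent.MP_42957e_ag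

open MvPolynomial Filter Topology Asymptotics
open scoped ComplexConjugate

theorem dataA_lf_add (a p q : V) : eval (p + q) (lf a) = eval p (lf a) + eval q (lf a) := by
  simp only [eval_lf, Pi.add_apply]; ring

theorem dataA_lf_smul (a p : V) (c : ℂ) : eval (c • p) (lf a) = c * eval p (lf a) := by
  simp only [eval_lf, Pi.smul_apply, smul_eq_mul]; ring

theorem dataA_deriv_prod {ι : Type} [Fintype ι] [DecidableEq ι] {θ : ι → ℂ}
    (h : Function.Injective θ) (j : ι) {c : ℂ} (hc : c ≠ 0) :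
    ∃ d : ℂ, d ≠ 0 ∧ HasDerivAt (fun τ : ℂ => c * ∏ k, (τ - θ k)) d (θ j) := by
  have hg : DifferentiableAt ℂ (fun τ : ℂ => ∏ k ∈ Finset.univ.erase j, (τ - θ k)) (θ j) := by
    fun_prop
  have h1 := (((hasDerivAt_id (θ j)).sub_const (θ j)).mul hg.hasDerivAt).const_mul c
  refine ⟨_, ?_, h1.congr_of_eventuallyEq (Eventually.of_forall fun τ => ?_)⟩
  · simp only [id, sub_self, zero_mul, add_zero, one_mul]
    refine mul_ne_zero hc (Finset.prod_ne_zero_iff.2 fun k hk => sub_ne_zero.2 fun e => ?_)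
    exact (Finset.mem_erase.1 hk).1 (h e).symm
  · simp only [Pi.mul_apply, id]
    rw [Finset.mul_prod_erase Finset.univ (fun k => τ - θ k) (Finset.mem_univ j)]

namespace Data

variable (D : Data)

theorem dataA_φ (p : V) : eval p D.φ =
    eval p (lf (D.a 0)) * eval p (lf (D.a 1)) * eval p (lf (D.a 2)) +
      eval p (lf (D.a 0)) ^ 3 - eval p (lf (D.a 1)) ^ 3 := by
  simp [cub]

theorem dataA_dv (p f : V) : dv D.φ p f =
    (eval p (lf (D.a 1)) * eval p (lf (D.a 2)) + 3 * eval p (lf (D.a 0)) ^ 2) *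
        eval f (lf (D.a 0)) +
      (eval p (lf (D.a 0)) * eval p (lf (D.a 2)) - 3 * eval p (lf (D.a 1)) ^ 2) *
        eval f (lf (D.a 1)) +
      eval p (lf (D.a 0)) * eval p (lf (D.a 1)) * eval f (lf (D.a 2)) := by
  simp only [cub, dv_sub, dv_add, dv_mul, dv_pow, dv_lf, map_mul]
  norm_num
  ring

theorem dataA_comb (i : Fin 3) (c0 c1 c2 : ℂ) :
    eval (c0 • D.e 0 + c1 • D.e 1 + c2 • D.e 2) (lf (D.a i)) = ![c0, c1, c2] i := by
  simp only [dataA_lf_add, dataA_lf_smul, D.dual]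
  fin_cases i <;> simp

/-- the derivative of the parametrisation -/
noncomputable def dataA_x' (τ : ℂ) : V := (1 : ℂ) • D.e 0 + (2 * τ) • D.e 1 + (3 * τ ^ 2) • D.e 2

theorem dataA_hasDeriv (τ : ℂ) : HasDerivAt D.x (D.dataA_x' τ) τ := by
  have h0 := (hasDerivAt_id τ).smul_const (D.e 0)
  have h1 := (hasDerivAt_pow 2 τ).smul_const (D.e 1)
  have h2 := ((hasDerivAt_pow 3 τ).sub_const 1).smul_const (D.e 2)
  have h := (h0.add h1).add h2
  have e : D.dataA_x' τ = (1 : ℂ) • D.e 0 + (((2 : ℕ) : ℂ) * τ ^ (2 - 1)) • D.e 1 +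
      (((3 : ℕ) : ℂ) * τ ^ (3 - 1)) • D.e 2 := by
    simp [dataA_x']
  rw [e]
  exact h

theorem expand (p : V) : p = eval p (lf (D.a 0)) • D.e 0 + eval p (lf (D.a 1)) • D.e 1 +
    eval p (lf (D.a 2)) • D.e 2 := by
  set A : Matrix (Fin 3) (Fin 3) ℂ := Matrix.of fun i k => D.a i k
  set E : Matrix (Fin 3) (Fin 3) ℂ := Matrix.of fun k j => D.e j k
  have h1 : A * E = 1 := by
    ext i j
    have := D.dual i j
    rw [eval_lf] at this
    simp [A, E, Matrix.mul_apply, Fin.sum_univ_three, Matrix.one_apply, this]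
  have h2 : E * A = 1 := mul_eq_one_comm.1 h1
  ext k
  have h3 := fun l => congrFun (congrFun h2 k) l
  have a0 := h3 0
  have a1 := h3 1
  have a2 := h3 2
  simp only [A, E, Matrix.mul_apply, Fin.sum_univ_three, Matrix.of_apply] at a0 a1 a2
  have hp : p k = (1 : Matrix (Fin 3) (Fin 3) ℂ) k 0 * p 0 + (1 : Matrix (Fin 3) (Fin 3) ℂ) k 1 * p 1
      + (1 : Matrix (Fin 3) (Fin 3) ℂ) k 2 * p 2 := by
    fin_cases k <;> simp [Matrix.one_apply]
  rw [hp, ← a0, ← a1, ← a2]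
  simp only [eval_lf, Pi.add_apply, Pi.smul_apply, smul_eq_mul]
  ring

theorem x_X (τ : ℂ) : eval (D.x τ) (lf (D.a 0)) = τ := by
  exact D.dataA_comb 0 _ _ _

theorem x_Y (τ : ℂ) : eval (D.x τ) (lf (D.a 1)) = τ ^ 2 := by
  exact D.dataA_comb 1 _ _ _

theorem x_Z (τ : ℂ) : eval (D.x τ) (lf (D.a 2)) = τ ^ 3 - 1 := by
  exact D.dataA_comb 2 _ _ _

theorem x_zero : D.x 0 = (-1 : ℂ) • D.e 2 := by
  simp [xp]

theorem x_ne_zero (τ : ℂ) : D.x τ ≠ 0 := by
  intro h
  have h0 := D.x_X τ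
  have h2 := D.x_Z τ
  rw [h, eval_lf] at h0 h2
  simp only [Pi.zero_apply, mul_zero, add_zero] at h0 h2
  rw [← h0] at h2
  norm_num at h2

theorem φ_x (τ : ℂ) : eval (D.x τ) D.φ = 0 := by
  rw [dataA_φ, x_X, x_Y, x_Z]; ring

theorem φ_e : eval (D.e 2) D.φ = 0 := by
  rw [dataA_φ]; simp [D.dual]

theorem onto {p : V} (h : eval p D.φ = 0) : ∃ c τ : ℂ, p = c • D.x τ := by
  rw [dataA_φ] at h
  have hp := D.expand p
  generalize eval p (lf (D.a 0)) = X at h hp
  generalize eval p (lf (D.a 1)) = Y at h hp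
  generalize eval p (lf (D.a 2)) = Z at h hp
  by_cases hX : X = 0
  · have hY : Y = 0 := by simpa [hX] using h
    refine ⟨-Z, 0, ?_⟩
    rw [hp, hX, hY, x_zero, smul_smul]; simp
  · have hY : Y ≠ 0 := by
      rintro rfl
      exact hX (by simpa using h)
    refine ⟨X ^ 2 / Y, Y / X, ?_⟩
    have e0 : X = X ^ 2 / Y * (Y / X) := by field_simp
    have e1 : Y = X ^ 2 / Y * (Y / X) ^ 2 := by field_simp
    have e2 : Z = X ^ 2 / Y * ((Y / X) ^ 3 - 1) := by
      field_simp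
      linear_combination h
    simp only [xp, smul_add, smul_smul]
    rw [← e0, ← e1, ← e2]
    exact hp

theorem u_ne (j : Fin 9) : D.u j ≠ 0 := by
  intro h
  exact D.x_ne_zero (D.θ j) (by rw [Data.x, D.xθ, h, zero_smul])

theorem v_ne (i : Fin 3) : D.v i ≠ 0 := by
  intro h
  exact D.x_ne_zero (D.γ i) (by rw [Data.x, D.xγ, h, zero_smul])

theorem prod_θ : ∏ j, D.θ j = 1 := by
  have h := D.ψx 0
  have h0 : xp D.e 0 = (-1 : ℂ) • D.e 2 := D.x_zero
  rw [h0, eval_smul_hom D.ψ_hom] at h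
  simp only [zero_sub, Finset.prod_neg, Finset.card_univ, Fintype.card_fin] at h
  apply mul_left_cancel₀ D.ψe
  linear_combination h

theorem prod_γ : ∏ i, D.γ i = 1 := by
  have h := D.zx 0
  have h0 : xp D.e 0 = (-1 : ℂ) • D.e 2 := D.x_zero
  rw [h0] at h
  simp only [zero_sub, Finset.prod_neg, Finset.card_univ, Fintype.card_fin, Pi.smul_apply,
    smul_eq_mul] at h
  apply mul_left_cancel₀ D.ze
  linear_combination h

theorem θ_ne_zero (j : Fin 9) : D.θ j ≠ 0 := by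
  intro h
  have := D.prod_θ
  rw [Finset.prod_eq_zero (Finset.mem_univ j) h] at this
  exact zero_ne_one this

theorem γ_ne_zero (i : Fin 3) : D.γ i ≠ 0 := by
  intro h
  have := D.prod_γ
  rw [Finset.prod_eq_zero (Finset.mem_univ i) h] at this
  exact zero_ne_one this

theorem θ_ne_γ (j : Fin 9) (i : Fin 3) : D.θ j ≠ D.γ i := by
  intro h
  have h1 := D.xθ j
  rw [h, D.xγ] at h1
  have h2 := congrFun h1 2
  simp [zp, D.P2] at h2
  exact D.u_ne j h2.symm

theorem t_inj : Function.Injective D.t := by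
  intro i k h
  have h1 : D.x (D.γ i) = (D.v i / D.v k) • D.x (D.γ k) := by
    rw [Data.x, Data.x, D.xγ, D.xγ, h, smul_smul, div_mul_cancel₀ _ (D.v_ne k)]
  have a0 := D.x_X (D.γ i)
  have a1 := D.x_Y (D.γ i)
  rw [h1, dataA_lf_smul, x_X] at a0
  rw [h1, dataA_lf_smul, x_Y] at a1
  apply D.γ_inj
  apply mul_left_cancel₀ (D.γ_ne_zero i)
  linear_combination (D.γ k) * a0 - a1

theorem φ_P (j : Fin 9) : eval (ofR (D.P j)) D.φ = 0 := by
  have h := D.φ_x (D.θ j)
  rw [Data.x, D.xθ, eval_smul_hom D.φ_hom] at h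
  exact (mul_eq_zero.1 h).resolve_left (pow_ne_zero _ (D.u_ne j))

theorem ψ_P (j : Fin 9) : eval (ofR (D.P j)) D.ψ = 0 := by
  rw [Data.ψ, eval_cj_ofR, D.φ_P, map_zero]

theorem φ_z (i : Fin 3) : eval (zp (D.t i)) D.φ = 0 := by
  have h := D.φ_x (D.γ i)
  rw [Data.x, D.xγ, eval_smul_hom D.φ_hom] at h
  exact (mul_eq_zero.1 h).resolve_left (pow_ne_zero _ (D.v_ne i))

theorem ψ_z (i : Fin 3) : eval (zp (D.t i)) D.ψ ≠ 0 := by
  intro h0
  have h := D.ψx (D.γ i)
  rw [D.xγ, eval_smul_hom D.ψ_hom, h0, mul_zero] at h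
  refine mul_ne_zero D.ψe (Finset.prod_ne_zero_iff.2 fun j _ => sub_ne_zero.2 ?_) h.symm
  exact (D.θ_ne_γ j i).symm

theorem common {p : V} (h1 : eval p D.φ = 0) (h2 : eval p D.ψ = 0) :
    ∃ j, ∃ c : ℂ, p = c • ofR (D.P j) := by
  obtain ⟨c, τ, rfl⟩ := D.onto h1
  rw [eval_smul_hom D.ψ_hom, Data.x, D.ψx] at h2
  rcases mul_eq_zero.1 h2 with h | h
  · exact ⟨0, 0, by rw [pow_eq_zero_iff (by norm_num)] at h; rw [h, zero_smul, zero_smul]⟩
  · obtain ⟨j, -, hj⟩ := Finset.prod_eq_zero_iff.1 ((mul_eq_zero.1 h).resolve_left D.ψe)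
    exact ⟨j, c * D.u j, by rw [sub_eq_zero.1 hj, Data.x, D.xθ, smul_smul]⟩

theorem onL {p : V} (h1 : eval p D.φ = 0) (h2 : p 2 = 0) :
    ∃ i, ∃ c : ℂ, p = c • zp (D.t i) := by
  obtain ⟨c, τ, rfl⟩ := D.onto h1
  rw [Pi.smul_apply, smul_eq_mul, Data.x, D.zx] at h2
  rcases mul_eq_zero.1 h2 with h | h
  · exact ⟨0, 0, by rw [h, zero_smul, zero_smul]⟩
  · obtain ⟨i, -, hi⟩ := Finset.prod_eq_zero_iff.1 ((mul_eq_zero.1 h).resolve_left D.ze)
    exact ⟨i, c * D.v i, by rw [sub_eq_zero.1 hi, Data.x, D.xγ, smul_smul]⟩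

theorem not_re3 {p : V} (h1 : eval p D.φ = 0) (h2 : eval p D.ψ ≠ 0) : ¬ Re3 p := by
  intro h
  have hp : p ≠ 0 := by
    rintro rfl
    have := eval_smul_hom D.ψ_hom 0 (0 : V)
    rw [zero_smul] at this
    exact h2 (by rw [this]; simp)
  obtain ⟨c, v, hc, rfl⟩ := h.exists_ofR hp
  rw [eval_smul_hom D.φ_hom] at h1
  rw [eval_smul_hom D.ψ_hom, Data.ψ, eval_cj_ofR,
    (mul_eq_zero.1 h1).resolve_left (pow_ne_zero _ hc)] at h2
  simp at h2

theorem exists_ne : ∃ q : V, q 2 * eval q D.φ * eval q D.ψ ≠ 0 := by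
  obtain ⟨r, hr⟩ := Infinite.exists_notMem_finset (Finset.univ.image fun j => D.P j 0)
  have h : eval (ofR ![r, 0, 1]) D.φ ≠ 0 := by
    intro h
    obtain ⟨j, c, hc⟩ := D.common h (by rw [Data.ψ, eval_cj_ofR, h, map_zero])
    have h2 := congrFun hc 2
    have h0 := congrFun hc 0
    simp [D.P2] at h2 h0
    rw [← h2, one_mul] at h0
    exact hr (Finset.mem_image.2 ⟨j, Finset.mem_univ _, by exact_mod_cast h0.symm⟩)
  refine ⟨ofR ![r, 0, 1], mul_ne_zero (mul_ne_zero (by simp) h) ?_⟩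
  rw [Data.ψ, eval_cj_ofR]
  exact (map_ne_zero _).2 h

theorem sing_φ {p : V} (h : ∀ f, dv D.φ p f = 0) : ∃ c : ℂ, p = c • D.e 2 := by
  have h0 := h (D.e 0)
  have h1 := h (D.e 1)
  have h2 := h (D.e 2)
  rw [dataA_dv] at h0 h1 h2
  simp only [D.dual] at h0 h1 h2
  have hp := D.expand p
  generalize eval p (lf (D.a 0)) = X at h0 h1 h2 hp
  generalize eval p (lf (D.a 1)) = Y at h0 h1 h2 hp
  generalize eval p (lf (D.a 2)) = Z at h0 h1 h2 hp
  simp at h0 h1 h2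
  have hX : X = 0 := by
    rcases h2 with h2 | h2
    · exact h2
    · simpa [h2] using h0
  have hY : Y = 0 := by simpa [hX] using h1
  exact ⟨Z, by rw [hp, hX, hY]; simp⟩

theorem dataA_dv_x (τ : ℂ) (f : V) : dv D.φ (D.x τ) f =
    (τ ^ 5 + 2 * τ ^ 2) * eval f (lf (D.a 0)) - (2 * τ ^ 4 + τ) * eval f (lf (D.a 1)) +
      τ ^ 3 * eval f (lf (D.a 2)) := by
  rw [dataA_dv, x_X, x_Y, x_Z]; ring

theorem dataA_dv_x' (τ : ℂ) : dv D.φ (D.x τ) (D.dataA_x' τ) = 0 := by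
  rw [dataA_dv_x]
  simp only [dataA_x', dataA_comb]
  simp
  ring

theorem dataA_tangent {τ : ℂ} (hτ : τ ≠ 0) {f : V} (h : dv D.φ (D.x τ) f = 0) :
    ∃ α β : ℂ, f = α • D.x τ + β • D.dataA_x' τ := by
  rw [dataA_dv_x] at h
  have hp := D.expand f
  generalize eval f (lf (D.a 0)) = X at h hp
  generalize eval f (lf (D.a 1)) = Y at h hp
  generalize eval f (lf (D.a 2)) = Z at h hp
  refine ⟨(2 * τ * X - Y) / τ ^ 2, (Y - τ * X) / τ, ?_⟩
  have e0 : X = (2 * τ * X - Y) / τ ^ 2 * τ + (Y - τ * X) / τ * 1 := by field_simp; ring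
  have e1 : Y = (2 * τ * X - Y) / τ ^ 2 * τ ^ 2 + (Y - τ * X) / τ * (2 * τ) := by
    field_simp; ring
  have e2 : Z = (2 * τ * X - Y) / τ ^ 2 * (τ ^ 3 - 1) + (Y - τ * X) / τ * (3 * τ ^ 2) := by
    apply mul_left_cancel₀ hτ
    field_simp
    apply mul_left_cancel₀ hτ
    linear_combination h
  generalize (2 * τ * X - Y) / τ ^ 2 = α at e0 e1 e2 ⊢
  generalize (Y - τ * X) / τ = β at e0 e1 e2 ⊢
  rw [hp, e0, e1, e2]
  simp only [xp, dataA_x']
  module

theorem inj_P (j : Fin 9) (f : V) (h0 : f 2 = 0) (h1 : dv D.φ (ofR (D.P j)) f = 0)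
    (h2 : dv D.ψ (ofR (D.P j)) f = 0) : f = 0 := by
  have hx : D.x (D.θ j) = D.u j • ofR (D.P j) := D.xθ j
  have a1 : dv D.φ (D.x (D.θ j)) f = 0 := by rw [hx, dv_smul_hom D.φ_hom, h1, mul_zero]
  have a2 : dv D.ψ (D.x (D.θ j)) f = 0 := by rw [hx, dv_smul_hom D.ψ_hom, h2, mul_zero]
  obtain ⟨α, β, rfl⟩ := D.dataA_tangent (D.θ_ne_zero j) a1
  obtain ⟨d, hd, hder⟩ := dataA_deriv_prod D.θ_inj j D.ψe
  have b1 := hasDerivAt_eval D.ψ (D.dataA_hasDeriv (D.θ j))
  have b2 : (fun t => eval (D.x t) D.ψ) =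
      fun τ : ℂ => eval (D.e 2) (cj (cub D.a)) * ∏ k, (τ - D.θ k) := funext D.ψx
  rw [b2] at b1
  have b3 : eval (D.x (D.θ j)) D.ψ = 0 := by
    rw [hx, eval_smul_hom D.ψ_hom, D.ψ_P, mul_zero]
  rw [dv_add_right, dv_smul_right, dv_smul_right, euler D.ψ_hom, b3, b1.unique hder] at a2
  have hβ : β = 0 := by simpa [hd] using a2
  have hα : α = 0 := by simpa [hβ, hx, D.P2, D.u_ne j] using h0
  rw [hα, hβ]; simp

theorem dual_z (i : Fin 3) : ∃ f f' : V, f 2 = 1 ∧ dv D.φ (zp (D.t i)) f = 0 ∧ f' 2 = 0 ∧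
    dv D.φ (zp (D.t i)) f' = 1 := by
  have hx : zp (D.t i) = (D.v i)⁻¹ • D.x (D.γ i) := by
    rw [Data.x, D.xγ, smul_smul, inv_mul_cancel₀ (D.v_ne i), one_smul]
  obtain ⟨d, hd, hder⟩ := dataA_deriv_prod D.γ_inj i D.ze
  have b1 := (hasDerivAt_pi.1 (D.dataA_hasDeriv (D.γ i))) 2
  have b2 : (fun t => D.x t 2) = fun τ : ℂ => D.e 2 2 * ∏ k, (τ - D.γ k) := funext D.zx
  rw [b2] at b1
  have b3 : D.dataA_x' (D.γ i) 2 = d := b1.unique hder
  have c1 : dv D.φ (zp (D.t i)) (d⁻¹ • D.dataA_x' (D.γ i)) = 0 := by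
    rw [hx, dv_smul_hom D.φ_hom, dv_smul_right, dataA_dv_x', mul_zero, mul_zero]
  have c2 : (d⁻¹ • D.dataA_x' (D.γ i)) 2 = 1 := by
    rw [Pi.smul_apply, b3, smul_eq_mul, inv_mul_cancel₀ hd]
  have c3 : dv D.φ (zp (D.t i)) (D.e 2) ≠ 0 := by
    rw [hx, dv_smul_hom D.φ_hom, dataA_dv_x]
    simp [D.dual, D.v_ne i, D.γ_ne_zero i]
  refine ⟨_, (dv D.φ (zp (D.t i)) (D.e 2))⁻¹ • (D.e 2 - D.e 2 2 • d⁻¹ • D.dataA_x' (D.γ i)),
    c2, c1, ?_, ?_⟩
  · rw [Pi.smul_apply, Pi.sub_apply, Pi.smul_apply (D.e 2 2), c2]; simp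
  · rw [dv_smul_right, dv_sub_right, dv_smul_right _ _ _ (D.e 2 2), c1, mul_zero, sub_zero,
      inv_mul_cancel₀ c3]

end Data

end Pool.Agent.MP_42957e_ag

end

section

set_option autoImplicit false

namespace Pool.Agent.MP_42957e_ag

open MvPolynomial Filter Topology Asymptotics
open scoped ComplexConjugate

theorem Curve_param {f : ℂ × ℂ → ℂ} (hf : ContDiff ℂ 1 f) {q : ℂ × ℂ} (h0 : f q = 0)
    (h1 : fderiv ℂ f q (0, 1) ≠ 0) : ∃ g : ℂ → ℂ × ℂ, AnalyticAt ℂ g 0 ∧ g 0 = q ∧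
      (∀ᶠ t in 𝓝 (0 : ℂ), f (g t) = 0) ∧ ∀ᶠ t in 𝓝 (0 : ℂ), (g t).1 = q.1 + t := by
  let A : ℂ × ℂ →L[ℂ] ℂ × ℂ := (ContinuousLinearMap.fst ℂ ℂ ℂ).prod (fderiv ℂ f q)
  have hinj : Function.Injective A.toLinearMap := by
    rw [injective_iff_map_eq_zero]
    rintro ⟨u, v⟩ h
    have h2 : (u, fderiv ℂ f q (u, v)) = 0 := h
    rw [Prod.mk_eq_zero] at h2
    obtain ⟨rfl, h3⟩ := h2
    have h4 : ((0 : ℂ), v) = v • ((0 : ℂ), (1 : ℂ)) := by simp
    rw [h4, map_smul, smul_eq_mul, mul_eq_zero] at h3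
    rw [h3.resolve_right h1]
    rfl
  let e : (ℂ × ℂ) ≃L[ℂ] ℂ × ℂ :=
    (LinearEquiv.ofInjectiveEndo A.toLinearMap hinj).toContinuousLinearEquiv
  have he : (e : ℂ × ℂ →L[ℂ] ℂ × ℂ) = A := ContinuousLinearMap.ext fun _ => rfl
  let P : ℂ × ℂ → ℂ × ℂ := fun p => (p.1, f p)
  have hP : ContDiffAt ℂ 1 P q := (contDiff_fst.prodMk hf).contDiffAt
  have hP' : HasFDerivAt P (e : ℂ × ℂ →L[ℂ] ℂ × ℂ) q := by
    rw [he]
    exact hasFDerivAt_fst.prodMk (hf.differentiable one_ne_zero q).hasFDerivAt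
  have hPq : P q = (q.1 + 0, 0) := by simp [P, h0]
  have hl : ContDiff ℂ 1 fun t : ℂ => ((q.1 + t, 0) : ℂ × ℂ) :=
    (contDiff_const.add contDiff_id).prodMk contDiff_const
  have hr : ∀ᶠ t in 𝓝 (0 : ℂ), P (hP.localInverse hP' one_ne_zero (q.1 + t, 0)) = (q.1 + t, 0) := by
    have h2 := (hP.hasStrictFDerivAt' hP' one_ne_zero).eventually_right_inverse
    rw [hPq] at h2
    exact (hl.continuous.tendsto 0).eventually h2
  refine ⟨fun t => hP.localInverse hP' one_ne_zero (q.1 + t, 0), ?_, ?_, ?_, ?_⟩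
  · have h2 := hP.to_localInverse hP' one_ne_zero
    rw [hPq] at h2
    have h3 : ContDiffAt ℂ 1 (fun t : ℂ => hP.localInverse hP' one_ne_zero (q.1 + t, 0)) 0 :=
      ContDiffAt.comp (g := hP.localInverse hP' one_ne_zero)
        (f := fun t : ℂ => ((q.1 + t, 0) : ℂ × ℂ)) 0 h2 hl.contDiffAt
    rw [Complex.analyticAt_iff_eventually_differentiableAt]
    exact (h3.eventually (by simp)).mono fun t ht => ht.differentiableAt one_ne_zero
  · have h2 := hP.localInverse_apply_image hP' one_ne_zero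
    rwa [hPq] at h2
  · exact hr.mono fun t ht => congrArg Prod.snd ht
  · exact hr.mono fun t ht => congrArg Prod.fst ht

theorem Curve_not_re : ¬ ∀ᶠ t in 𝓝 (0 : ℂ), t.re ≤ 0 := by
  intro h
  obtain ⟨ε, hε, h2⟩ := Metric.eventually_nhds_iff.mp h
  have h3 := @h2 ((ε / 2 : ℝ) : ℂ) (by
    rw [dist_zero_right, Complex.norm_real, Real.norm_of_nonneg (by linarith)]
    linarith)
  rw [Complex.ofReal_re] at h3
  linarith

theorem exists_param {f : ℂ × ℂ → ℂ} (hf : ContDiff ℂ 1 f) {q : ℂ × ℂ} (h0 : f q = 0)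
    (h1 : fderiv ℂ f q ≠ 0) : ∃ g : ℂ → ℂ × ℂ, AnalyticAt ℂ g 0 ∧ g 0 = q ∧
      (∀ᶠ t in 𝓝 (0 : ℂ), f (g t) = 0) ∧
      ((∀ᶠ t in 𝓝 (0 : ℂ), (g t).1 = q.1 + t) ∨ ∀ᶠ t in 𝓝 (0 : ℂ), (g t).2 = q.2 + t) := by
  by_cases h2 : fderiv ℂ f q (0, 1) = 0
  · have h3 : fderiv ℂ f q (1, 0) ≠ 0 := by
      intro h3
      apply h1
      refine ContinuousLinearMap.ext fun p => ?_
      have h4 : p = p.1 • ((1 : ℂ), (0 : ℂ)) + p.2 • ((0 : ℂ), (1 : ℂ)) := by simp
      rw [h4, map_add, map_smul, map_smul, h2, h3]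
      simp
    have hs : ContDiff ℂ 1 fun p : ℂ × ℂ => (p.2, p.1) := contDiff_snd.prodMk contDiff_fst
    have hd : HasFDerivAt (fun p : ℂ × ℂ => f (p.2, p.1)) ((fderiv ℂ f q).comp
        ((ContinuousLinearMap.snd ℂ ℂ ℂ).prod (ContinuousLinearMap.fst ℂ ℂ ℂ))) (q.2, q.1) :=
      HasFDerivAt.comp (g := f) (f := fun p : ℂ × ℂ => (p.2, p.1)) (q.2, q.1)
        (hf.differentiable one_ne_zero q).hasFDerivAt (hasFDerivAt_snd.prodMk hasFDerivAt_fst)
    obtain ⟨g, g1, g2, g3, g4⟩ := Curve_param (f := fun p : ℂ × ℂ => f (p.2, p.1))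
      (hf.comp hs) (q := (q.2, q.1)) h0 (by rw [hd.fderiv]; exact h3)
    refine ⟨fun t => ((g t).2, (g t).1), (analyticAt_snd.comp g1).prod (analyticAt_fst.comp g1),
      ?_, g3, Or.inr g4⟩
    simp only [g2]
  · obtain ⟨g, g1, g2, g3, g4⟩ := Curve_param hf h0 h2
    exact ⟨g, g1, g2, g3, Or.inl g4⟩

theorem exists_zero_near {Θ E : Type} [TopologicalSpace Θ] [NormedAddCommGroup E] [NormedSpace ℂ E]
    {f : Θ → E → ℂ} (hc : Continuous fun x : Θ × E => f x.1 x.2)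
    (hd : ∀ σ, Differentiable ℂ (f σ)) {σ0 : Θ} {q0 : E} (h0 : f σ0 q0 = 0)
    (hne : ∃ q, f σ0 q ≠ 0) {U : Set E} (hU : U ∈ 𝓝 q0) :
    ∀ᶠ σ in 𝓝 σ0, ∃ q ∈ U, f σ q = 0 := by
  obtain ⟨q, hq⟩ := hne
  let a : Θ → ℂ → ℂ := fun σ t => f σ (q0 + t • (q - q0))
  have hline : Differentiable ℂ fun t : ℂ => q0 + t • (q - q0) := by fun_prop
  have had : ∀ σ, Differentiable ℂ (a σ) := fun σ => (hd σ).comp hline
  have hac : Continuous fun x : Θ × ℂ => a x.1 x.2 :=
    hc.comp (continuous_fst.prodMk (hline.continuous.comp continuous_snd))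
  have ha0 : a σ0 0 = 0 := by simp only [a, zero_smul, add_zero, h0]
  have hne0 : ∀ᶠ t in 𝓝[≠] (0 : ℂ), a σ0 t ≠ 0 := by
    refine ((had σ0).analyticAt 0).eventually_eq_zero_or_eventually_ne_zero.resolve_left ?_
    intro h
    have h2 : AnalyticOnNhd ℂ (a σ0) Set.univ := fun t _ => (had σ0).analyticAt t
    have h3 := h2.eqOn_zero_of_preconnected_of_eventuallyEq_zero isPreconnected_univ
      (Set.mem_univ 0) h (Set.mem_univ 1)
    apply hq
    simpa only [a, one_smul, add_sub_cancel, Pi.zero_apply] using h3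
  have hU0 : ∀ᶠ t in 𝓝 (0 : ℂ), q0 + t • (q - q0) ∈ U := by
    apply hline.continuous.continuousAt.eventually_mem
    simpa only [zero_smul, add_zero] using hU
  rw [eventually_nhdsWithin_iff] at hne0
  obtain ⟨r, hr, hball⟩ := Metric.nhds_basis_closedBall.eventually_iff.mp (hne0.and hU0)
  have hev : ∀ᶠ σ in 𝓝 σ0, ∀ t ∈ Metric.sphere (0 : ℂ) r, ‖a σ 0‖ < ‖a σ t‖ := by
    apply (isCompact_sphere (0 : ℂ) r).eventually_forall_of_forall_eventually
    intro t ht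
    have h2 : Continuous fun x : Θ × ℂ => ‖a x.1 0‖ :=
      (hac.comp (continuous_fst.prodMk continuous_const)).norm
    apply h2.continuousAt.eventually_lt hac.norm.continuousAt
    simp only [ha0, norm_zero, norm_pos_iff]
    exact (hball (Metric.sphere_subset_closedBall ht)).1 (Metric.ne_of_mem_sphere ht hr.ne')
  refine hev.mono fun σ hσ => ?_
  by_contra hcon
  have hz : ∀ t ∈ Metric.closedBall (0 : ℂ) r, a σ t ≠ 0 :=
    fun t ht h => hcon ⟨_, (hball ht).2, h⟩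
  have hdc : DiffContOnCl ℂ (fun t => (a σ t)⁻¹) (Metric.ball (0 : ℂ) r) := by
    apply DifferentiableOn.diffContOnCl
    rw [closure_ball _ hr.ne']
    exact (had σ).differentiableOn.inv hz
  obtain ⟨z, hz1, hz2⟩ := Complex.exists_mem_frontier_isMaxOn_norm Metric.isBounded_ball
    ⟨0, Metric.mem_ball_self hr⟩ hdc
  rw [frontier_ball _ hr.ne'] at hz1
  have h2 : ‖(a σ 0)⁻¹‖ ≤ ‖(a σ z)⁻¹‖ := hz2 (subset_closure (Metric.mem_ball_self hr))
  rw [norm_inv, norm_inv] at h2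
  have h3 : 0 < ‖a σ 0‖ := norm_pos_iff.mpr (hz 0 (Metric.mem_closedBall_self hr.le))
  have h4 := hσ z hz1
  rw [inv_le_inv₀ h3 (h3.trans h4)] at h2
  linarith

theorem min_modulus {f k : ℂ × ℂ → ℂ} (hf : ContDiff ℂ 1 f) (hk : Differentiable ℂ k)
    (hns : ∀ q, f q = 0 → fderiv ℂ f q ≠ 0) {q0 q1 : ℂ × ℂ} {ρ c : ℝ}
    (hb : ∀ q ∈ Metric.sphere q0 ρ, f q = 0 → c ≤ ‖k q‖) (h1 : q1 ∈ Metric.closedBall q0 ρ)
    (hf1 : f q1 = 0) (hk1 : ‖k q1‖ < c) :
    ∃ q ∈ Metric.closedBall q0 ρ, f q = 0 ∧ k q = 0 := by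
  by_contra hcon
  let S : Set (ℂ × ℂ) := Metric.closedBall q0 ρ ∩ {q | f q = 0}
  have hS : IsCompact S :=
    (isCompact_closedBall q0 ρ).inter_right (isClosed_eq hf.continuous continuous_const)
  have hz : ∀ q ∈ S, k q ≠ 0 := fun q hq h => hcon ⟨q, hq.1, hq.2, h⟩
  obtain ⟨q2, hq2, hm2⟩ := hS.exists_isMinOn ⟨q1, h1, hf1⟩ hk.continuous.norm.continuousOn
  let M : Set (ℂ × ℂ) := S ∩ {q | ‖k q‖ = ‖k q2‖}
  have hM : IsCompact M := hS.inter_right (isClosed_eq hk.continuous.norm continuous_const)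
  have c1 : Continuous fun p : ℂ × ℂ => p.1.re := by fun_prop
  have c2 : Continuous fun p : ℂ × ℂ => p.2.re := by fun_prop
  obtain ⟨q3, hq3, hm3⟩ := hM.exists_isMaxOn ⟨q2, hq2, rfl⟩ c1.continuousOn
  let N : Set (ℂ × ℂ) := M ∩ {q | q.1.re = q3.1.re}
  have hN : IsCompact N := hM.inter_right (isClosed_eq c1 continuous_const)
  obtain ⟨q, hq, hm⟩ := hN.exists_isMaxOn ⟨q3, hq3, rfl⟩ c2.continuousOn
  have hqS : q ∈ S := hq.1.1
  have hqk : ‖k q‖ = ‖k q2‖ := hq.1.2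
  have hq1 : q.1.re = q3.1.re := hq.2
  have hqb : q ∈ Metric.ball q0 ρ := by
    rw [Metric.mem_ball]
    refine lt_of_le_of_ne hqS.1 fun h => ?_
    have h2 := hb q h hqS.2
    have h3 : ‖k q2‖ ≤ ‖k q1‖ := hm2 ⟨h1, hf1⟩
    linarith
  obtain ⟨g, g1, g2, g3, g4⟩ := exists_param hf hqS.2 (hns q hqS.2)
  have gd : ∀ᶠ t in 𝓝 (0 : ℂ), DifferentiableAt ℂ g t :=
    g1.eventually_analyticAt.mono fun t ht => ht.differentiableAt
  have gS : ∀ᶠ t in 𝓝 (0 : ℂ), g t ∈ S := by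
    have h2 : ∀ᶠ t in 𝓝 (0 : ℂ), g t ∈ Metric.ball q0 ρ := by
      apply g1.continuousAt.eventually_mem
      rw [g2]
      exact Metric.isOpen_ball.mem_nhds hqb
    filter_upwards [h2, g3] with t h3 h4 using ⟨Metric.ball_subset_closedBall h3, h4⟩
  have gM : ∀ᶠ t in 𝓝 (0 : ℂ), g t ∈ M := by
    have h2 := Complex.norm_eventually_eq_of_isLocalMax (f := fun t => (k (g t))⁻¹) (c := 0)
      (by
        filter_upwards [gd, gS] with t h3 h4
        exact ((hk (g t)).comp t h3).inv (hz _ h4))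
      (by
        filter_upwards [gS] with t h4
        have h5 : ‖k q2‖ ≤ ‖k (g t)‖ := hm2 h4
        simp only [Function.comp_def, norm_inv, g2, hqk]
        exact inv_anti₀ (norm_pos_iff.mpr (hz _ hq2)) h5)
    filter_upwards [h2, gS] with t h3 h4
    refine ⟨h4, ?_⟩
    simp only [norm_inv, g2, hqk, inv_inj] at h3
    exact h3
  apply Curve_not_re
  rcases g4 with g4 | g4
  · filter_upwards [gM, g4] with t h3 h4
    have h5 : (g t).1.re ≤ q3.1.re := hm3 h3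
    rw [h4, Complex.add_re] at h5
    linarith
  · have h2 := Complex.norm_eventually_eq_of_isLocalMax (f := fun t => Complex.exp (g t).1) (c := 0)
      (by
        filter_upwards [gd] with t h3
        exact h3.fst.cexp)
      (by
        filter_upwards [gM] with t h3
        have h5 : (g t).1.re ≤ q3.1.re := hm3 h3
        simp only [Function.comp_def, Complex.norm_exp, g2, hq1]
        exact Real.exp_le_exp.mpr h5)
    filter_upwards [gM, g4, h2] with t h3 h4 h5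
    simp only [Complex.norm_exp, g2, hq1, Real.exp_eq_exp] at h5
    have h6 : (g t).2.re ≤ q.2.re := hm ⟨h3, h5⟩
    rw [h4, Complex.add_re] at h6
    linarith

theorem persist {Θ ι : Type} [TopologicalSpace Θ] {l : Filter ι} {f k : Θ → ℂ × ℂ → ℂ}
    (hfc : Continuous fun x : Θ × (ℂ × ℂ) => f x.1 x.2)
    (hkc : Continuous fun x : Θ × (ℂ × ℂ) => k x.1 x.2)
    (hfd : ∀ σ, ContDiff ℂ 1 (f σ)) (hkd : ∀ σ, Differentiable ℂ (k σ))
    {σ : ι → Θ} {σ0 : Θ} (hσ : Tendsto σ l (𝓝 σ0))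
    (hns : ∀ᶠ i in l, ∀ q, f (σ i) q = 0 → fderiv ℂ (f (σ i)) q ≠ 0)
    {q0 : ℂ × ℂ} (hf0 : f σ0 q0 = 0) (hk0 : k σ0 q0 = 0) (hne : ∃ q, f σ0 q ≠ 0)
    (hiso : ∀ᶠ q in 𝓝[≠] q0, f σ0 q = 0 → k σ0 q ≠ 0) {U : Set (ℂ × ℂ)} (hU : U ∈ 𝓝 q0) :
    ∀ᶠ i in l, ∃ q ∈ U, f (σ i) q = 0 ∧ k (σ i) q = 0 := by
  rw [eventually_nhdsWithin_iff] at hiso
  obtain ⟨ρ, hρ, hball⟩ := Metric.nhds_basis_closedBall.eventually_iff.mp (hiso.and hU)
  have hsum : Continuous fun x : Θ × (ℂ × ℂ) => ‖f x.1 x.2‖ + ‖k x.1 x.2‖ :=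
    hfc.norm.add hkc.norm
  obtain ⟨c, hc, hc2⟩ := (isCompact_sphere q0 ρ).exists_forall_le'
    (f := fun q => ‖f σ0 q‖ + ‖k σ0 q‖) (a := 0)
    ((hfd σ0).continuous.norm.add (hkd σ0).continuous.norm).continuousOn (by
      intro q hq
      have h2 := (hball (Metric.sphere_subset_closedBall hq)).1 (Metric.ne_of_mem_sphere hq hρ.ne')
      by_cases h3 : f σ0 q = 0
      · have := norm_pos_iff.mpr (h2 h3)
        positivity
      · have := norm_pos_iff.mpr h3
        positivity)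
  have h1 : ∀ᶠ s in 𝓝 σ0, ∀ q ∈ Metric.sphere q0 ρ, c / 2 < ‖f s q‖ + ‖k s q‖ := by
    apply (isCompact_sphere q0 ρ).eventually_forall_of_forall_eventually
    intro q hq
    apply continuousAt_const.eventually_lt hsum.continuousAt
    have := hc2 q hq
    linarith
  have h2 : ∀ᶠ x in 𝓝 (σ0, q0), ‖k x.1 x.2‖ < c / 2 := by
    apply hkc.norm.continuousAt.eventually_lt continuousAt_const
    simp only [hk0, norm_zero]
    linarith
  rw [nhds_prod_eq, eventually_prod_iff] at h2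
  obtain ⟨pa, ha, pb, hb, hab⟩ := h2
  have h3 := exists_zero_near hfc (fun s => (hfd s).differentiable one_ne_zero) hf0 hne
    (inter_mem (Metric.closedBall_mem_nhds q0 hρ) hb)
  filter_upwards [hns, hσ.eventually h1, hσ.eventually ha, hσ.eventually h3] with i e1 e2 e3 e4
  obtain ⟨q1, e5, e6⟩ := e4
  obtain ⟨q, e7, e8⟩ := min_modulus (hfd _) (hkd _) e1 (q0 := q0) (ρ := ρ) (c := c / 2)
    (fun q hq h => by
      have := e2 q hq
      rw [h, norm_zero, zero_add] at this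
      exact this.le) e5.1 e6 (hab e3 e5.2)
  exact ⟨q, (hball e7).2, e8⟩

end Pool.Agent.MP_42957e_ag

end

section

set_option autoImplicit false

namespace Pool.Agent.MP_42957e_ag

open MvPolynomial Filter Topology Asymptotics
open scoped ComplexConjugate

theorem Meet_contDiff (p0 e e' : V) {n : WithTop ℕ∞} : ContDiff ℂ n (ch p0 e e') := by
  unfold ch
  fun_prop

theorem contDiff_ch (F : CP) (p0 e e' : V) :
    ContDiff ℂ 1 fun q : ℂ × ℂ => eval (ch p0 e e' q) F := by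
  exact (contDiff_eval F).comp (Meet_contDiff p0 e e')

theorem chart_ns {F : CP} {n : ℕ} (hF : F.IsHomogeneous n) (hns : NSg F) {p0 e e' : V} {q : ℂ × ℂ}
    (hne : ch p0 e e' q ≠ 0)
    (hspan : ∀ v : V, ∃ a b c : ℂ, v = a • ch p0 e e' q + b • e + c • e')
    (h0 : eval (ch p0 e e' q) F = 0) : fderiv ℂ (fun q => eval (ch p0 e e' q) F) q ≠ 0 := by
  intro hz
  have h1 : HasFDerivAt (ch p0 e e') ((ContinuousLinearMap.fst ℂ ℂ ℂ).smulRight e +
      (ContinuousLinearMap.snd ℂ ℂ ℂ).smulRight e') q := by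
    have := ((hasFDerivAt_fst (𝕜 := ℂ) (p := q)).smul_const e).add
      ((hasFDerivAt_snd (𝕜 := ℂ) (p := q)).smul_const e')
    have h2 := this.const_add p0
    refine h2.congr_of_eventuallyEq (Eventually.of_forall fun x => ?_)
    simp only [ch, Pi.add_apply, add_assoc]
  have h2 := (hasStrictFDerivAt_eval F (ch p0 e e' q)).hasFDerivAt.comp q h1
  simp only [Function.comp_def] at h2
  rw [h2.fderiv] at hz
  have a0 : dv F (ch p0 e e' q) 0 = 0 := by simp [dv]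
  have a1 : dv F (ch p0 e e' q) e = 0 := by
    have := congrArg (fun L : ℂ × ℂ →L[ℂ] ℂ => L (1, 0)) hz
    simpa [a0] using this
  have a2 : dv F (ch p0 e e' q) e' = 0 := by
    have := congrArg (fun L : ℂ × ℂ →L[ℂ] ℂ => L (0, 1)) hz
    simpa [a0] using this
  obtain ⟨v, hv⟩ := hns _ hne h0
  obtain ⟨a, b, c, rfl⟩ := hspan v
  apply hv
  rw [dv_add_right, dv_add_right, dv_smul_right, dv_smul_right, dv_smul_right, euler hF, h0, a1, a2]
  simp

theorem Meet_basis (k : Fin 3) : ∃ e e' : V, e k = 0 ∧ e' k = 0 ∧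
    (∀ v : V, v k = 0 → ∃ b c : ℂ, v = b • e + c • e') ∧
    ∀ b c : ℂ, b • e + c • e' = 0 → b = 0 ∧ c = 0 := by
  fin_cases k
  · refine ⟨![0, 1, 0], ![0, 0, 1], rfl, rfl, fun v hv => ⟨v 1, v 2, ?_⟩, fun b c h => ?_⟩
    · ext i
      fin_cases i
      · simpa using hv
      · simp
      · simp
    · exact ⟨by simpa using congrFun h 1, by simpa using congrFun h 2⟩
  · refine ⟨![1, 0, 0], ![0, 0, 1], rfl, rfl, fun v hv => ⟨v 0, v 2, ?_⟩, fun b c h => ?_⟩
    · ext i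
      fin_cases i
      · simp
      · simpa using hv
      · simp
    · exact ⟨by simpa using congrFun h 0, by simpa using congrFun h 2⟩
  · refine ⟨![1, 0, 0], ![0, 1, 0], rfl, rfl, fun v hv => ⟨v 0, v 1, ?_⟩, fun b c h => ?_⟩
    · ext i
      fin_cases i
      · simp
      · simp
      · simpa using hv
    · exact ⟨by simpa using congrFun h 0, by simpa using congrFun h 1⟩

/-- an isolated non-real intersection point cannot be a limit of totally real intersections -/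
theorem persist3 {Θ ι : Type} [TopologicalSpace Θ] {l : Filter ι} [l.NeBot] {F K : Θ → CP} {n : ℕ}
    (hF : ∀ σ, (F σ).IsHomogeneous n) (hFc : Continuous fun x : Θ × V => eval x.2 (F x.1))
    (hKc : Continuous fun x : Θ × V => eval x.2 (K x.1)) {σ : ι → Θ} {σ0 : Θ}
    (hσ : Tendsto σ l (𝓝 σ0)) (hns : ∀ᶠ i in l, NSg (F (σ i)))
    (htot : ∀ᶠ i in l, Tot (F (σ i)) (K (σ i))) {p : V} (hp : ¬ Re3 p)
    (hF0 : eval p (F σ0) = 0) (hK0 : eval p (K σ0) = 0) (hne : ∃ q, eval q (F σ0) ≠ 0)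
    (hiso : ∀ᶠ q in 𝓝 p, eval q (F σ0) = 0 → eval q (K σ0) = 0 → ∃ u : ℂ, q = u • p) : False := by
  have hp0 : p ≠ 0 := by
    rintro rfl
    exact hp fun i j => by simp
  obtain ⟨k, hk⟩ := Function.ne_iff.1 hp0
  have hk' : p k ≠ 0 := hk
  obtain ⟨e, e', he, he', hsp, hind⟩ := Meet_basis k
  have hck : ∀ q, ch p e e' q k = p k := fun q => by simp [ch, he, he']
  have hc0 : ∀ q, ch p e e' q ≠ 0 := fun q h => hk' (by rw [← hck q, h]; rfl)
  have hz : ch p e e' 0 = p := by simp [ch]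
  have hcc : Continuous (ch p e e') := (Meet_contDiff p e e' (n := 0)).continuous
  have hcc' : Continuous fun x : Θ × (ℂ × ℂ) => (x.1, ch p e e' x.2) :=
    continuous_fst.prodMk (hcc.comp continuous_snd)
  have hspan : ∀ q, ∀ v : V, ∃ a b c : ℂ, v = a • ch p e e' q + b • e + c • e' := by
    intro q v
    obtain ⟨b, c, h⟩ := hsp (v - (v k / p k) • ch p e e' q) (by
      simp only [Pi.sub_apply, Pi.smul_apply, hck, smul_eq_mul]
      field_simp
      ring)
    exact ⟨v k / p k, b, c, by rw [add_assoc, ← h]; abel⟩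
  have ht : Tendsto (ch p e e') (𝓝 0) (𝓝 p) := by
    have := hcc.tendsto 0
    rwa [hz] at this
  have hU : {q | ¬ Re3 (ch p e e' q)} ∈ 𝓝 (0 : ℂ × ℂ) :=
    ht.eventually (isClosed_re3.isOpen_compl.mem_nhds hp)
  have c1 := hFc.comp hcc'
  have c2 := hKc.comp hcc'
  simp only [Function.comp_def] at c1 c2
  have key := persist (l := l) (f := fun s q => eval (ch p e e' q) (F s))
    (k := fun s q => eval (ch p e e' q) (K s)) c1 c2 (fun s => contDiff_ch _ _ _ _)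
    (fun s => (contDiff_ch _ _ _ _).differentiable one_ne_zero) hσ
    (hns.mono fun i hi q h0 => chart_ns (hF _) hi (hc0 q) (hspan q) h0) (q0 := 0)
    (by rw [hz]; exact hF0) (by rw [hz]; exact hK0) ?_ ?_ hU
  · obtain ⟨i, ⟨q, hq, h1, h2⟩, h3⟩ := (key.and htot).exists
    exact hq (h3 _ (hc0 q) h1 h2)
  · by_contra hn
    push Not at hn
    obtain ⟨w, hw⟩ := hne
    have h1 : F σ0 * X k = 0 := by
      refine MvPolynomial.funext fun v => ?_
      rw [map_mul, eval_X, map_zero]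
      by_cases hv : v k = 0
      · rw [hv, mul_zero]
      · obtain ⟨b, c, h⟩ := hsp ((p k / v k) • v - p) (by
          simp only [Pi.sub_apply, Pi.smul_apply, smul_eq_mul]
          field_simp
          ring)
        have h2 : ch p e e' (b, c) = (p k / v k) • v := by
          simp only [ch]
          rw [add_assoc, ← h]
          abel
        have h3 := hn (b, c)
        rw [h2, eval_smul_hom (hF _)] at h3
        rw [(mul_eq_zero.1 h3).resolve_left (pow_ne_zero _ (div_ne_zero hk' hv)), zero_mul]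
    rcases mul_eq_zero.1 h1 with h | h
    · exact hw (by rw [h, map_zero])
    · exact X_ne_zero k h
  · filter_upwards [nhdsWithin_le_nhds (ht.eventually hiso), self_mem_nhdsWithin] with q h1 h2 h3 h4
    obtain ⟨u, hu⟩ := h1 h3 h4
    have h5 : u = 1 := by
      have := congrFun hu k
      rw [hck, Pi.smul_apply, smul_eq_mul] at this
      exact mul_right_cancel₀ hk' (by rw [← this, one_mul])
    rw [h5, one_smul, ch, add_assoc, add_eq_left] at hu
    exact h2 (Prod.ext (hind _ _ hu).1 (hind _ _ hu).2)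

theorem Meet_not_im : ¬ ∀ᶠ t in 𝓝 (0 : ℂ), t.im = 0 := by
  intro h
  have h1 : Tendsto (fun s : ℝ => (s : ℂ) * Complex.I) (𝓝[≠] 0) (𝓝 0) := by
    have : Continuous fun s : ℝ => (s : ℂ) * Complex.I := by fun_prop
    have h2 := this.tendsto 0
    simp only [Complex.ofReal_zero, zero_mul] at h2
    exact h2.mono_left nhdsWithin_le_nhds
  obtain ⟨s, h2, h3⟩ := ((h1.eventually h).and self_mem_nhdsWithin).exists
  exact h3 (by simpa using h2)

/-- every real member of a total pencil meets every oval -/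
theorem meet {F K0 K1 : CP} {n : ℕ} (hF : F.IsHomogeneous n) (hns : NSg F) (h0 : cj K0 = K0)
    (h1 : cj K1 = K1) (htot : ∀ μ : ℝ, Tot F (K1 - C (μ : ℂ) * K0)) {P : Fin 3 → ℝ} {ρ : ℝ}
    (hsph : ∀ N : Fin 3 → ℝ, N 2 = 1 → dist N P = ρ → eval (ofR N) F ≠ 0)
    (hex : ∃ N : Fin 3 → ℝ, N 2 = 1 ∧ dist N P ≤ ρ ∧ eval (ofR N) F = 0) :
    ∃ N : Fin 3 → ℝ, N 2 = 1 ∧ dist N P ≤ ρ ∧ eval (ofR N) F = 0 ∧ eval (ofR N) K0 = 0 := by
  by_contra hn
  push Not at hn
  have hcont : ∀ q : CP, Continuous fun N : Fin 3 → ℝ => eval (ofR N) q := fun q => by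
    have := (continuous_evalV q).comp continuous_ofR
    simp only [Function.comp_def] at this
    exact this
  have hO : IsCompact {N : Fin 3 → ℝ | N 2 = 1 ∧ dist N P ≤ ρ ∧ eval (ofR N) F = 0} :=
    (isCompact_closedBall P ρ).of_isClosed_subset
      ((isClosed_eq (continuous_apply 2) continuous_const).inter
        ((Metric.isClosed_closedBall (x := P) (ε := ρ)).inter
          (isClosed_eq (hcont F) continuous_const))) fun N hN => hN.2.1
  obtain ⟨N0, ⟨a1, a2, a3⟩, hmax⟩ := hO.exists_isMaxOn hex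
    (f := fun N => (eval (ofR N) K1 / eval (ofR N) K0).re)
    (Complex.continuous_re.comp_continuousOn ((hcont K1).continuousOn.div (hcont K0).continuousOn
      fun N hN => hn N hN.1 hN.2.1 hN.2.2))
  have a4 : dist N0 P < ρ := lt_of_le_of_ne a2 fun h => hsph N0 a1 h a3
  have a5 : eval (ofR N0) K0 ≠ 0 := hn N0 a1 a2 a3
  set μ0 : ℝ := (eval (ofR N0) K1 / eval (ofR N0) K0).re with hμ0
  have a6 : eval (ofR N0) K1 / eval (ofR N0) K0 = (μ0 : ℂ) := by
    refine (Complex.conj_eq_iff_re.1 ?_).symm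
    rw [map_div₀, ← eval_cj_ofR, ← eval_cj_ofR, h0, h1]
  set c : ℂ × ℂ → V := ch ![0, 0, 1] ![1, 0, 0] ![0, 1, 0] with hc
  have c0 : ∀ q, c q 0 = q.1 := fun q => by simp [hc, ch]
  have c1 : ∀ q, c q 1 = q.2 := fun q => by simp [hc, ch]
  have c2 : ∀ q, c q 2 = 1 := fun q => by simp [hc, ch]
  have cne : ∀ q, c q ≠ 0 := fun q h => by
    have := c2 q
    rw [h] at this
    exact zero_ne_one this
  have cq : c ((N0 0 : ℂ), (N0 1 : ℂ)) = ofR N0 := by
    ext i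
    fin_cases i
    · exact c0 _
    · exact c1 _
    · exact (c2 _).trans (by simp [a1])
  obtain ⟨g, hg, g0, hgF, hgt⟩ := exists_param (contDiff_ch F ![0, 0, 1] ![1, 0, 0] ![0, 1, 0])
    (q := ((N0 0 : ℂ), (N0 1 : ℂ))) (by rw [← hc, cq]; exact a3)
    (chart_ns hF hns (cne _) (fun v => ⟨v 2, v 0 - v 2 * N0 0, v 1 - v 2 * N0 1, by
      ext i
      fin_cases i <;> simp [ch]⟩) (by rw [← hc, cq]; exact a3))
  rw [← hc] at hgF
  have hG : AnalyticAt ℂ (fun t => c (g t)) 0 :=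
    ((Meet_contDiff _ _ _ (n := ⊤)).contDiffAt.analyticAt).comp hg
  have hG0 : c (g 0) = ofR N0 := by rw [g0, cq]
  have hGq : ∀ q : CP, AnalyticAt ℂ (fun t => eval (c (g t)) q) 0 := fun q =>
    ((contDiff_eval q (n := ⊤)).contDiffAt.analyticAt).comp hG
  have hGt : Tendsto (fun t => c (g t)) (𝓝 0) (𝓝 (ofR N0)) := by
    have := hG.continuousAt.tendsto
    rwa [hG0] at this
  have hK : ∀ᶠ t in 𝓝 (0 : ℂ), eval (c (g t)) K0 ≠ 0 := (tendsto_eval hGt K0).eventually_ne a5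
  have hreal : ∀ (q : ℂ × ℂ) (μ : ℝ), eval (c q) F = 0 → eval (c q) K0 ≠ 0 →
      eval (c q) K1 / eval (c q) K0 = (μ : ℂ) → c q = ofR fun i => (c q i).re := by
    intro q μ b1 b2 b3
    refine Re3.eq_ofR (htot μ _ (cne q) b1 ?_) (c2 q)
    rw [map_sub, map_mul, eval_C, ← b3, div_mul_cancel₀ _ b2, sub_self]
  have hh : AnalyticAt ℂ (fun t => eval (c (g t)) K1 / eval (c (g t)) K0) 0 :=
    (hGq K1).div (hGq K0) (by rw [hG0]; exact a5)
  rcases hh.eventually_constant_or_nhds_le_map_nhds with h | h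
  · simp only [hG0, a6] at h
    apply Meet_not_im
    have him : ∀ᶠ t in 𝓝 (0 : ℂ), ∀ i, (c (g t) i).im = 0 := by
      filter_upwards [h, hK, hgF] with t b1 b2 b3 i
      rw [hreal _ _ b3 b2 b1]
      simp
    rcases hgt with h' | h'
    · filter_upwards [him, h'] with t b1 b2
      have := b1 0
      rw [c0, b2] at this
      simpa using this
    · filter_upwards [him, h'] with t b1 b2
      have := b1 1
      rw [c1, b2] at this
      simpa using this
  · simp only [hG0, a6] at h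
    have hd : ∀ᶠ t in 𝓝 (0 : ℂ), dist (fun i => (c (g t) i).re) P < ρ := by
      have b1 : Continuous fun v : V => dist (fun i => (v i).re) P := by fun_prop
      have b2 := (b1.tendsto (ofR N0)).comp hGt
      simp only [Function.comp_def, ofR_apply, Complex.ofReal_re] at b2
      exact b2.eventually (gt_mem_nhds a4)
    have hS := h (image_mem_map (hd.and (hK.and hgF)))
    have hm : Tendsto (fun μ : ℝ => (μ : ℂ)) (𝓝[>] μ0) (𝓝 (μ0 : ℂ)) :=
      (Complex.continuous_ofReal.tendsto μ0).mono_left nhdsWithin_le_nhds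
    obtain ⟨μ, ⟨t, ⟨b1, b2, b3⟩, b4⟩, b5⟩ := ((hm.eventually hS).and self_mem_nhdsWithin).exists
    have b6 := hreal _ _ b3 b2 b4
    have b7 := hmax (a := fun i => (c (g t) i).re) ⟨by simp [c2], b1.le, by rw [← b6]; exact b3⟩
    simp only [Set.mem_ofPred_eq] at b7 b4
    rw [← b6, b4, Complex.ofReal_re] at b7
    exact absurd b5 (not_lt.2 b7)

end Pool.Agent.MP_42957e_ag

end
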